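import Pool.Agent.H68.KR.Main
import Pool.Agent.H13.SM.Cone

/-!
# KR SMC: smooth surfaces of general type carry a holomorphic section of `M K - H`
-/

set_option autoImplicit false

open MvPolynomial Topology Filter
open Pool.Agent.H17LG.Variety (FunField ratio PoleAtMost IsLogGeneralType)
open Pool.Agent.H17BP (Tan IsForm NoZeros)
open Pool.Agent.H62.FC (Homog LogGeneralType)
open Pool.Agent.H13.SM (conTan)

noncomputable section

namespace Pool.Agent.H68.KR

variable {N : ℕ} {P : Ideal (MvPolynomial (Fin (N + 1)) ℂ)}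

theorem exists_cchart [P.IsPrime] (hP : Homog P) {z : Fin 2 → FunField P}
    (hz : IsTranscendenceBasis ℂ z)
    (hsm : ∀ y : Fin (N + 1) → ℂ, y ≠ 0 → (∀ Q ∈ P, eval y Q = 0) →
      Module.finrank ℂ (conTan P y) ≤ 2 + 1) :
    ∀ x ∈ cone P, ∃ t σ, CChart P x t σ := by
  intro x hx
  obtain ⟨l, hl⟩ : ∃ l, x l ≠ 0 := by
    by_contra h
    push Not at h
    exact hx.1 (funext h)
  obtain ⟨I, σ, han, h0, hmem, hsurj, hnd⟩ := Pool.Agent.H13.SM.exists_coneChart hP hz hsm hx.2 hl
  -- the linear map `u ↦ ![u.1, u.2]`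
  set e : (ℂ × ℂ) → (Fin 2 → ℂ) := fun u => ![u.1, u.2] with he
  have hean : AnalyticAt ℂ e 0 := by
    rw [analyticAt_pi_iff]
    intro i
    fin_cases i
    · exact analyticAt_fst
    · exact analyticAt_snd
  have he0 : e 0 = 0 := by
    funext i
    fin_cases i <;> rfl
  have het : Tendsto e (𝓝 0) (𝓝 0) := by
    have := hean.continuousAt.tendsto
    rwa [he0] at this
  have hinv : ∀ w : Fin 2 → ℂ, e (w 0, w 1) = w := by
    intro w
    funext i
    fin_cases i <;> rfl
  refine ⟨![l, I 0, I 1], fun u => σ (e u), ?_⟩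
  have hm := het.eventually hmem
  refine
    { an := ?_
      zero := ?_
      ne := hl
      mem := hm.mono fun u hu => hu.1
      c0 := hm.mono fun u hu => hu.2.1
      c1 := hm.mono fun u hu => hu.2.2 0
      c2 := hm.mono fun u hu => hu.2.2 1
      surj := ?_
      nd := ?_ }
  · have h1 : AnalyticAt ℂ σ (e 0) := by rw [he0]; exact han
    exact h1.comp hean
  · simp only [he0, h0]
  · filter_upwards [hsurj] with y hy hyP
    have h1 := hy hyP
    rw [← hinv (fun k => y (I k) / y l - x (I k) / x l)] at h1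
    exact h1
  · intro d Q hQ hQP h
    apply hnd d Q hQ hQP
    have hpr : Tendsto (fun w : Fin 2 → ℂ => (w 0, w 1)) (𝓝 0) (𝓝 (0 : ℂ × ℂ)) := by
      have h2 : Continuous fun w : Fin 2 → ℂ => (w 0, w 1) := by fun_prop
      have := h2.tendsto 0
      exact this
    have h3 := hpr.eventually h
    filter_upwards [h3] with w hw
    rw [hinv] at hw
    exact hw

/-- **Kodaira's lemma for surfaces**: a smooth projective surface of general type has a holomorphic section of
`M K - H` for some `M ≥ 1`, without zeros outside a hypersurface section. -/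
theorem exists_form_of_smooth [P.IsPrime] (hP : Homog P) {z : Fin 2 → FunField P}
    (hz : IsTranscendenceBasis ℂ z)
    (hsm : ∀ y : Fin (N + 1) → ℂ, y ≠ 0 → (∀ Q ∈ P, eval y Q = 0) →
      Module.finrank ℂ (conTan P y) ≤ 2 + 1)
    (hgt : LogGeneralType P ∅ 2) :
    ∃ (M : ℕ) (Om : (Fin (N + 1) → ℂ) → (Fin (N + 1) → ℂ) → (Fin (N + 1) → ℂ) → ℂ) (D₀ : ℕ)
      (Q₀ : MvPolynomial (Fin (N + 1)) ℂ), 1 ≤ M ∧ Q₀.IsHomogeneous D₀ ∧ Q₀ ∉ P ∧
      IsForm {x | x ≠ 0 ∧ ∀ Q ∈ P, eval x Q = 0} M 1 Om ∧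
      NoZeros {x | x ≠ 0 ∧ ∀ Q ∈ P, eval x Q = 0}
        {x | (x ≠ 0 ∧ ∀ Q ∈ P, eval x Q = 0) ∧ eval x Q₀ = 0} Om := by
  refine exists_form P hP hz ?_ (exists_cchart hP hz hsm)
  have h1 : (Pool.Agent.H62.FC.OnBoundary P ∅ (w := 2)) = fun _ => False := by
    funext E
    apply propext
    constructor
    · rintro ⟨j, -, -, i, hi, -⟩
      exact absurd hi (Finset.notMem_empty i)
    · exact False.elim
  have h2 := hgt
  unfold LogGeneralType at h2
  rw [h1] at h2
  exact h2

end Pool.Agent.H68.KR
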