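import Pool.Agent.H17LG.Variety

/-!
# KR Pt: the generic point of a subvariety of projective space

The proof of `exists_point_aux` is that of `Pool.Agent.H17LG.exists_point_log`.
-/

set_option autoImplicit false

open MvPolynomial
open Pool.Agent.H17GT (coordFun functionField)

noncomputable section

namespace Pool.Agent.H68.KR

/-- The function `x_i / x_j` on the subvariety of `ℙ^N` given by `P`. -/
def ratio' {N : ℕ} (P : Ideal (MvPolynomial (Fin (N + 1)) ℂ)) [P.IsPrime] (i j : Fin (N + 1)) :
    functionField P :=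
  ⟨coordFun P i / coordFun P j, IntermediateField.subset_adjoin _ _ ⟨i, j, rfl⟩⟩

/-- The generic point of a closed subvariety of `ℙ^N` of positive dimension. -/
theorem exists_point_aux {N : ℕ} (P : Ideal (MvPolynomial (Fin (N + 1)) ℂ)) [P.IsPrime]
    {k : ℕ} (z : Fin (k + 1) → functionField P) (hz : IsTranscendenceBasis ℂ z) :
    ∃ x : Fin (N + 1) → functionField P, x ≠ 0 ∧
      IntermediateField.adjoin ℂ {y | ∃ i j, y = x i / x j} = ⊤ ∧
      IntermediateField.adjoin ℂ (Set.range x) = ⊤ ∧
      (∀ (d : ℕ) (G : MvPolynomial (Fin (N + 1)) ℂ), G.IsHomogeneous d →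
        (aeval x G = 0 ↔ G ∈ P)) ∧ (∀ i, x i = 0 ↔ coordFun P i = 0) ∧
      ∀ i j, x i / x j = ratio' P i j := by
  classical
  -- some coordinate is nonzero
  obtain ⟨j₀, hj₀⟩ : ∃ j, coordFun P j ≠ 0 := by
    by_contra hcon
    push Not at hcon
    have h1 : functionField P = ⊥ := by
      rw [functionField, IntermediateField.adjoin_eq_bot_iff]
      rintro y ⟨i, j, rfl⟩
      rw [hcon i, zero_div]
      exact zero_mem _
    have h2 := hz.1.transcendental 0
    apply h2
    have h3 : ((z 0 : functionField P) : FractionRing (MvPolynomial (Fin (N + 1)) ℂ ⧸ P)) ∈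
        (⊥ : IntermediateField ℂ (FractionRing (MvPolynomial (Fin (N + 1)) ℂ ⧸ P))) := by
      rw [← h1]
      exact (z 0).2
    obtain ⟨a, ha⟩ := IntermediateField.mem_bot.1 h3
    have h4 : z 0 = algebraMap ℂ (functionField P) a := by
      apply Subtype.ext
      rw [← ha]
      rfl
    rw [h4]
    exact isAlgebraic_algebraMap a
  have hmem : ∀ i, coordFun P i / coordFun P j₀ ∈ functionField P := fun i =>
    IntermediateField.subset_adjoin _ _ ⟨i, j₀, rfl⟩
  set x : Fin (N + 1) → functionField P := fun i => ⟨coordFun P i / coordFun P j₀, hmem i⟩ with hx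
  have hx1 : x j₀ = 1 := by
    apply Subtype.ext
    rw [hx]
    exact div_self hj₀
  have hratio : ∀ i j, ((x i / x j : functionField P) :
      FractionRing (MvPolynomial (Fin (N + 1)) ℂ ⧸ P)) = coordFun P i / coordFun P j := by
    intro i j
    have h1 : ((x i / x j : functionField P) :
      FractionRing (MvPolynomial (Fin (N + 1)) ℂ ⧸ P)) =
        (coordFun P i / coordFun P j₀) / (coordFun P j / coordFun P j₀) := by
      rw [hx]
      rfl
    rw [h1, div_div_div_cancel_right₀ hj₀]
  have hgen : IntermediateField.adjoin ℂ {y | ∃ i j, y = x i / x j} = ⊤ := by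
    rw [← IntermediateField.lift_inj, IntermediateField.lift_adjoin, IntermediateField.lift_top]
    conv_rhs => rw [functionField]
    congr 1
    ext y
    constructor
    · rintro ⟨y', ⟨i, j, rfl⟩, rfl⟩
      exact ⟨i, j, hratio i j⟩
    · rintro ⟨i, j, rfl⟩
      exact ⟨x i / x j, ⟨i, j, rfl⟩, hratio i j⟩
  refine ⟨x, fun h => ?_, hgen, ?_, ?_, ?_, ?_⟩
  · have := congrFun h j₀
    rw [hx1] at this
    exact one_ne_zero this
  · rw [eq_top_iff, ← hgen, IntermediateField.adjoin_le_iff]
    rintro y ⟨i, j, rfl⟩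
    exact div_mem (IntermediateField.subset_adjoin _ _ ⟨i, rfl⟩)
      (IntermediateField.subset_adjoin _ _ ⟨j, rfl⟩)
  · intro d G hG
    have h1 : ((aeval x G : functionField P) : FractionRing (MvPolynomial (Fin (N + 1)) ℂ ⧸ P)) =
        aeval (fun i => (coordFun P j₀)⁻¹ * coordFun P i) G := by
      have h3 : ((functionField P).val (aeval x G)) =
          aeval (fun i => (functionField P).val (x i)) G := by
        rw [← MvPolynomial.comp_aeval]
        rfl
      change (functionField P).val (aeval x G) = _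
      rw [h3]
      congr 2
      funext i
      change coordFun P i / coordFun P j₀ = _
      rw [div_eq_inv_mul]
    have h4 : aeval (fun i => (coordFun P j₀)⁻¹ * coordFun P i) G =
        (coordFun P j₀)⁻¹ ^ d * aeval (coordFun P) G := by
      rw [aeval_def, aeval_def, eval₂_eq, eval₂_eq, Finset.mul_sum]
      refine Finset.sum_congr rfl fun m hm => ?_
      have h5 : ∑ i ∈ m.support, m i = d := by
        have := hG (mem_support_iff.1 hm)
        rw [Finsupp.weight_apply, Finsupp.sum] at this
        simpa using this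
      simp only [mul_pow, Finset.prod_mul_distrib]
      rw [Finset.prod_pow_eq_pow_sum, h5]
      ring
    have h7 : aeval (coordFun P) G =
        algebraMap (MvPolynomial (Fin (N + 1)) ℂ ⧸ P)
          (FractionRing (MvPolynomial (Fin (N + 1)) ℂ ⧸ P)) (Ideal.Quotient.mk P G) := by
      have h8 : (aeval (coordFun P) : MvPolynomial (Fin (N + 1)) ℂ →ₐ[ℂ] _) =
          (IsScalarTower.toAlgHom ℂ (MvPolynomial (Fin (N + 1)) ℂ ⧸ P)
            (FractionRing (MvPolynomial (Fin (N + 1)) ℂ ⧸ P))).comp (Ideal.Quotient.mkₐ ℂ P) := by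
        apply MvPolynomial.algHom_ext
        intro i
        rw [aeval_X]
        rfl
      rw [h8]
      rfl
    rw [h4, h7] at h1
    constructor
    · intro h0
      rw [h0] at h1
      have h9 := (mul_eq_zero.1 h1.symm).resolve_left (pow_ne_zero _ (inv_ne_zero hj₀))
      have h10 : Ideal.Quotient.mk P G = 0 :=
        (IsFractionRing.injective (MvPolynomial (Fin (N + 1)) ℂ ⧸ P)
          (FractionRing (MvPolynomial (Fin (N + 1)) ℂ ⧸ P))) (by rw [h9, map_zero])
      exact Ideal.Quotient.eq_zero_iff_mem.1 h10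
    · intro hGP
      apply Subtype.ext
      rw [h1, Ideal.Quotient.eq_zero_iff_mem.2 hGP, map_zero, mul_zero]
      rfl
  · intro i
    constructor
    · intro h0
      have h1 : coordFun P i / coordFun P j₀ = 0 := congrArg Subtype.val h0
      exact (div_eq_zero_iff.1 h1).resolve_right hj₀
    · intro h0
      apply Subtype.ext
      change coordFun P i / coordFun P j₀ = 0
      rw [h0, zero_div]
  · intro i j
    apply Subtype.ext
    exact hratio i j

open Pool.Agent.H17LG.Variety (FunField ratio)

/-- The generic point of a closed subvariety of `ℙ^N` of positive dimension. -/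
theorem exists_point {N : ℕ} (P : Ideal (MvPolynomial (Fin (N + 1)) ℂ)) [P.IsPrime]
    {k : ℕ} (z : Fin (k + 1) → FunField P) (hz : IsTranscendenceBasis ℂ z) :
    ∃ x : Fin (N + 1) → FunField P, x ≠ 0 ∧
      IntermediateField.adjoin ℂ {y | ∃ i j, y = x i / x j} = ⊤ ∧
      IntermediateField.adjoin ℂ (Set.range x) = ⊤ ∧
      (∀ (d : ℕ) (G : MvPolynomial (Fin (N + 1)) ℂ), G.IsHomogeneous d →
        (aeval x G = 0 ↔ G ∈ P)) ∧ (∀ i, x i = 0 ↔ coordFun P i = 0) ∧
      ∀ i j, x i / x j = ratio P i j :=
  exists_point_aux P z hz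

end Pool.Agent.H68.KR
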