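import Pool.Agent.H68.KR.HZ
import Pool.Agent.H68.KR.Pt

/-!
# KR KOD: Kodaira's lemma

`exists_relation`.  `ξ` is algebraic over the field `ℂ(φ)`, `φ i = f i / f 0`, hence over the ring `ℂ[φ]` (the field is its
fraction field: `IsFractionRing` instance in the scope `algebraAdjoinAdjoin` of
`Mathlib/FieldTheory/IntermediateField/Adjoin/Algebra.lean`, `IsFractionRing.isAlgebraic_iff` or
`IsAlgebraic.of…`/clearing denominators).  So there is a polynomial `p ≠ 0` over `ℂ[φ]` with `p (ξ) = 0`; divide by the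
power of `T` (`Polynomial.exists_eq_X_pow…`, `p.divX`, or choose `p` of minimal degree; `ξ ≠ 0`): `p.coeff 0 ≠ 0`.
`p.coeff k = aeval φ (g k)` (`Algebra.adjoin_range_eq_range_aeval`).  Let `D ≥ 1` be at least all total degrees,
`a k = hmz 0 D (g k)`: homogeneous of degree `D`, `aeval f (a k) = f 0 ^ D * aeval φ (g k)` (`eval₂_hmz`, `aeval` is
`eval₂ (algebraMap …)`).

`exists_good_coordinate`.  Let `x` be the point of `exists_point`, `l` with `D.ord (x l)` minimal (finite set,
`Finset.exists_min_image`); `x ≠ 0`, so `x l ≠ 0` (its order is not `⊤`) and `X l ∉ P`; `ratio P i l = x i / x l` has order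
`≥ 0`: `D.ord (x i) = D.ord (x i / x l) + D.ord (x l)`.

`kodaira`.  Let `m, ω, r, f` be given by `hgt` (`B` is empty: for all `i`, `D` `PoleAtMost 0 D m (f i) ω`).  Choose `o` with
`X o ∉ P`.  For every `l` with `X l ∉ P` let `ξ l = ratio P o l ≠ 0`, and `D_l ≥ 1`, `n_l`, `a^l` be given by
`exists_relation` (for other `l` put the factor `1` and `D_l = 0`).
`H = ∏_l aeval f (a^l 0)` over `l` with `X l ∉ P`, `M = m * ∑ D_l ≥ 1`.  `H ≠ 0`.
Let `D` be a prime divisor and `l'` with `X l' ∉ P`.  For every `i` there are `g_i, η_i` with `ω = g_i • η_i`,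
`0 ≤ D.ord (f i * g_i ^ m)`.  Let `g = g_i, η = η_i` be those with `D.ord g_i` maximal (it is not `⊤`: `g_i ≠ 0` as
`ω ≠ 0`).  Then `0 ≤ D.ord (f i * g ^ m)` for all `i`.  Hence for `a` homogeneous of degree `d`:
`aeval f a * g ^ (m d) = aeval (fun i => f i * g ^ m) a` has order `≥ 0` (`eval₂_of_isHomogeneous`; a polynomial with
constant coefficients in elements of the valuation ring, `D.ord_const`, `MvPolynomial.induction_on` or `eval₂_eq` and the sum
formula).  Let `l` be the coordinate of `exists_good_coordinate`.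
`aeval f (a^l 0) * g^(m D_l) = - ξ_l * ∑_{k ≥ 1} (aeval f (a^l k) * g^(m D_l)) ξ_l^(k-1)` and `ξ_l = ratio P o l` has
order `≥ 0`, so `D.ord (aeval f (a^l 0) * g^(m D_l)) ≥ D.ord ξ_l`, and the other factors of
`H * g ^ M = ∏ (aeval f (a^l 0) * g^(m D_l))` have order `≥ 0`.  So
`D.ord (H * ratio P l' o * g ^ M) ≥ D.ord (ratio P o l * ratio P l' o) = D.ord (ratio P l' l) ≥ 0`.
-/

set_option autoImplicit false

open MvPolynomial
open Pool.Agent.H23.Fano (Form regularForms PrimeDivisorOver)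
open Pool.Agent.H17GT (coordFun functionField)
open Pool.Agent.H17LG.Variety (FunField ratio PoleAtMost IsLogGeneralType)

noncomputable section

namespace Pool.Agent.H68.KR

theorem exists_relation {K : Type} [Field K] [Algebra ℂ K] {r : ℕ} {f : Fin (r + 1) → K} (hf : f 0 ≠ 0)
    {ξ : K} (hξ : ξ ≠ 0)
    (halg : IsAlgebraic (IntermediateField.adjoin ℂ (Set.range fun i => f i / f 0)) ξ) :
    ∃ (D n : ℕ) (a : ℕ → MvPolynomial (Fin (r + 1)) ℂ), 1 ≤ D ∧ (∀ k, (a k).IsHomogeneous D) ∧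
      aeval f (a 0) ≠ 0 ∧ ∑ k ∈ Finset.range (n + 1), aeval f (a k) * ξ ^ k = 0 := by
  classical
  have halg2 : IsAlgebraic (Algebra.adjoin ℂ (Set.range fun i => f i / f 0)) ξ := by
    open scoped IntermediateField.algebraAdjoinAdjoin in
    exact (IsFractionRing.isAlgebraic_iff (Algebra.adjoin ℂ (Set.range fun i => f i / f 0))
      (IntermediateField.adjoin ℂ (Set.range fun i => f i / f 0)) K).2 halg
  obtain ⟨p, hp0, hp⟩ := halg2
  obtain ⟨q, hpq, hq⟩ := Polynomial.exists_eq_pow_rootMultiplicity_mul_and_not_dvd p hp0 0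
  rw [map_zero, sub_zero] at hpq hq
  rw [Polynomial.X_dvd_iff] at hq
  have hq0 : Polynomial.aeval ξ q = 0 := by
    rw [hpq, map_mul, map_pow, Polynomial.aeval_X] at hp
    exact (mul_eq_zero.1 hp).resolve_left (pow_ne_zero _ hξ)
  have hg : ∀ k, ∃ G : MvPolynomial (Fin (r + 1)) ℂ, aeval (fun i => f i / f 0) G =
      ((q.coeff k : Algebra.adjoin ℂ (Set.range fun i => f i / f 0)) : K) := by
    intro k
    have h1 : ∀ y ∈ Algebra.adjoin ℂ (Set.range fun i => f i / f 0),
        ∃ G : MvPolynomial (Fin (r + 1)) ℂ, aeval (fun i => f i / f 0) G = y := by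
      intro y hy
      rw [Algebra.adjoin_range_eq_range_aeval] at hy
      exact hy
    exact h1 _ (q.coeff k).2
  choose G hG using hg
  refine ⟨1 + ∑ k ∈ Finset.range (q.natDegree + 1), (G k).totalDegree, q.natDegree,
    fun k => hmz 0 (1 + ∑ k ∈ Finset.range (q.natDegree + 1), (G k).totalDegree) (G k), by omega,
    fun k => hmz_isHomogeneous _ _ _, ?_, ?_⟩
  all_goals
    have key : ∀ k ∈ Finset.range (q.natDegree + 1),
        aeval f (hmz 0 (1 + ∑ k ∈ Finset.range (q.natDegree + 1), (G k).totalDegree) (G k)) =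
          f 0 ^ (1 + ∑ k ∈ Finset.range (q.natDegree + 1), (G k).totalDegree) *
            ((q.coeff k : Algebra.adjoin ℂ (Set.range fun i => f i / f 0)) : K) := by
      intro k hk
      rw [← hG k]
      have h1 : (G k).totalDegree ≤ 1 + ∑ k ∈ Finset.range (q.natDegree + 1), (G k).totalDegree := by
        have := Finset.single_le_sum (f := fun k => (G k).totalDegree)
          (fun i _ => Nat.zero_le _) hk
        exact le_trans this (Nat.le_add_left _ _)
      exact eval₂_hmz (algebraMap ℂ K) h1 hf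
  · rw [key 0 (by simp)]
    apply mul_ne_zero (pow_ne_zero _ hf)
    intro h
    exact hq (Subtype.ext h)
  · rw [Finset.sum_congr rfl fun k hk => by rw [key k hk, mul_assoc], ← Finset.mul_sum]
    have h2 : ∑ k ∈ Finset.range (q.natDegree + 1),
        ((q.coeff k : Algebra.adjoin ℂ (Set.range fun i => f i / f 0)) : K) * ξ ^ k = 0 := by
      rw [← hq0, Polynomial.aeval_eq_sum_range]
      refine Finset.sum_congr rfl fun k _ => ?_
      rw [Algebra.smul_def]
      rfl
    rw [h2, mul_zero]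

variable {N : ℕ} (P : Ideal (MvPolynomial (Fin (N + 1)) ℂ)) [P.IsPrime]

private theorem X_coordFun_ne {l : Fin (N + 1)} (h : coordFun P l ≠ 0) : X l ∉ P := by
  intro hX
  apply h
  rw [coordFun, Ideal.Quotient.eq_zero_iff_mem.2 hX, map_zero]

private theorem X_coordFun_ne' {l : Fin (N + 1)} (h : X l ∉ P) : coordFun P l ≠ 0 := by
  intro h0
  apply h
  rw [coordFun] at h0
  have h10 : Ideal.Quotient.mk P (X l) = 0 :=
    (IsFractionRing.injective (MvPolynomial (Fin (N + 1)) ℂ ⧸ P)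
      (FractionRing (MvPolynomial (Fin (N + 1)) ℂ ⧸ P))) (by rw [h0, map_zero])
  exact Ideal.Quotient.eq_zero_iff_mem.1 h10

theorem exists_good_coordinate {k : ℕ} (z : Fin (k + 1) → FunField P) (hz : IsTranscendenceBasis ℂ z)
    {n : ℕ} (D : PrimeDivisorOver (FunField P) n) :
    ∃ l, X l ∉ P ∧ ∀ i, 0 ≤ D.ord (ratio P i l) := by
  obtain ⟨x, hx0, -, -, -, hx5, hx6⟩ := exists_point P z hz
  obtain ⟨l, hl⟩ := Finite.exists_min fun l => D.ord (x l)
  obtain ⟨i₀, hi₀⟩ : ∃ i, x i ≠ 0 := by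
    by_contra hcon
    push Not at hcon
    exact hx0 (funext hcon)
  have hl1 : D.ord (x l) ≠ ⊤ := by
    intro h
    have h1 := hl i₀
    rw [h, top_le_iff] at h1
    exact hi₀ (D.ord.top_iff.1 h1)
  have hl2 : x l ≠ 0 := by
    intro h
    exact hl1 (by rw [h]; exact D.ord.map_zero)
  refine ⟨l, X_coordFun_ne P fun h => hl2 ((hx5 l).2 h), fun i => ?_⟩
  rw [← hx6]
  have h2 : x i = x i / x l * x l := by field_simp
  have h3 : D.ord (x l) ≤ D.ord (x i) := hl i
  rw [h2, D.ord.map_mul] at h3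
  obtain ⟨c, hc⟩ := WithTop.ne_top_iff_exists.1 hl1
  rw [← hc] at h3
  rcases h4 : D.ord (x i / x l) with _ | b
  · exact le_top
  · rw [h4] at h3
    have h5 : (c : WithTop ℤ) ≤ ((b + c : ℤ) : WithTop ℤ) := h3
    have h6 : c ≤ b + c := WithTop.coe_le_coe.1 h5
    have h7 : 0 ≤ b := by omega
    exact WithTop.coe_le_coe.2 h7

private theorem X_ord_aeval {K : Type} [Field K] [Algebra ℂ K] {n s : ℕ} (D : PrimeDivisorOver K n)
    (y : Fin s → K) (hy : ∀ i, 0 ≤ D.ord (y i)) (Q : MvPolynomial (Fin s) ℂ) :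
    0 ≤ D.ord (aeval y Q) := by
  induction Q using MvPolynomial.induction_on with
  | C a =>
    rw [aeval_C]
    exact D.ord_const a
  | add p q hp hq =>
    rw [map_add]
    exact D.ord.map_le_add hp hq
  | mul_X p i hp =>
    rw [map_mul, aeval_X, D.ord.map_mul]
    exact add_nonneg hp (hy i)

private theorem X_ord_prod {K : Type} [Field K] [Algebra ℂ K] {n : ℕ} (D : PrimeDivisorOver K n)
    {ι : Type} (S : Finset ι) (y : ι → K) (hy : ∀ i ∈ S, 0 ≤ D.ord (y i)) :
    0 ≤ D.ord (∏ i ∈ S, y i) := by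
  classical
  induction S using Finset.induction_on with
  | empty => rw [Finset.prod_empty, D.ord.map_one]
  | insert a S ha ih =>
    rw [Finset.prod_insert ha, D.ord.map_mul]
    exact add_nonneg (hy a (Finset.mem_insert_self _ _))
      (ih fun i hi => hy i (Finset.mem_insert_of_mem hi))

private theorem X_solve {K : Type} [Field K] {n : ℕ} {A : ℕ → K} {ξ : K} (c : K)
    (h : ∑ j ∈ Finset.range (n + 1), A j * ξ ^ j = 0) :
    c * A 0 = ξ * (-∑ j ∈ Finset.range n, c * A (j + 1) * ξ ^ j) := by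
  rw [Finset.sum_range_succ', pow_zero, mul_one] at h
  have h7 : A 0 = -∑ j ∈ Finset.range n, A (j + 1) * ξ ^ (j + 1) := by
    linear_combination h
  rw [h7, mul_neg, mul_neg, Finset.mul_sum, Finset.mul_sum]
  congr 1
  refine Finset.sum_congr rfl fun j _ => ?_
  ring

/-- Kodaira's lemma. -/
theorem kodaira {k : ℕ} (z : Fin (k + 1) → FunField P) (hz : IsTranscendenceBasis ℂ z) {n : ℕ}
    (hgt : IsLogGeneralType (K := FunField P) (k := n) fun _ => False) :
    ∃ ω : Form (FunField P) n, ω ≠ 0 ∧ ∃ (M : ℕ) (H : FunField P) (o : Fin (N + 1)), 1 ≤ M ∧ H ≠ 0 ∧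
      X o ∉ P ∧ ∀ l, X l ∉ P → ∀ D : PrimeDivisorOver (FunField P) n,
        PoleAtMost 0 D M (H * ratio P l o) ω := by
  classical
  obtain ⟨m, hm, ω, hω, r, f, hf, hpole, halg⟩ := hgt
  obtain ⟨x, hx0, -, -, -, hx5, hx6⟩ := exists_point P z hz
  obtain ⟨o, ho⟩ : ∃ i, x i ≠ 0 := by
    by_contra hcon
    push Not at hcon
    exact hx0 (funext hcon)
  have hoP : X o ∉ P := X_coordFun_ne P fun h => ho ((hx5 o).2 h)
  have hx7 : ∀ l, X l ∉ P → x l ≠ 0 := fun l hl h => X_coordFun_ne' P hl ((hx5 l).1 h)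
  have hξ : ∀ l, X l ∉ P → ratio P o l ≠ 0 := by
    intro l hl
    rw [← hx6]
    exact div_ne_zero ho (hx7 l hl)
  have hex : ∀ l : Fin (N + 1), ∃ (D n : ℕ) (a : ℕ → MvPolynomial (Fin (r + 1)) ℂ),
      (∀ k, (a k).IsHomogeneous D) ∧ aeval f (a 0) ≠ 0 ∧ (X l ∉ P → 1 ≤ D ∧
        ∑ k ∈ Finset.range (n + 1), aeval f (a k) * ratio P o l ^ k = 0) := by
    intro l
    by_cases hl : X l ∈ P
    · refine ⟨0, 0, fun _ => 1, fun _ => isHomogeneous_one _ _, ?_, fun h => absurd hl h⟩
      rw [map_one]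
      exact one_ne_zero
    · obtain ⟨D, n, a, h1, h2, h3, h4⟩ := exists_relation hf (hξ l hl)
        (halg.isAlgebraic (ratio P o l))
      exact ⟨D, n, a, h2, h3, fun _ => ⟨h1, h4⟩⟩
  choose d nn a ha ha0 hrel using hex
  refine ⟨ω, hω, m * ∑ l, d l, ∏ l, aeval f (a l 0), o, ?_, ?_, hoP, ?_⟩
  · have h1 : 1 ≤ d o := (hrel o hoP).1
    have h2 : d o ≤ ∑ l, d l := Finset.single_le_sum (f := d) (fun i _ => Nat.zero_le _)
      (Finset.mem_univ o)
    exact Nat.mul_pos hm (by omega)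
  · exact Finset.prod_ne_zero_iff.2 fun l _ => ha0 l
  · intro l' hl' D
    have h1 : ∀ i, ∃ (g : FunField P) (η : Form (FunField P) n), η ∈ regularForms n D.localRing ∧
        ω = g • η ∧ 0 ≤ D.ord (f i * g ^ m) := by
      intro i
      obtain ⟨g, η, h2, h3, h4⟩ := (hpole i D).1 (fun h => h)
      refine ⟨g, η, h2, h3, ?_⟩
      rw [Nat.cast_zero, add_zero] at h4
      exact h4
    choose g η hη hωg hord using h1
    obtain ⟨i₀, hi₀⟩ := Finite.exists_max fun i => D.ord (g i)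
    have h2 : ∀ i, 0 ≤ D.ord (g i₀ ^ m * f i) := by
      intro i
      refine le_trans (hord i) ?_
      rw [D.ord.map_mul, D.ord.map_mul, D.ord.map_pow, D.ord.map_pow, add_comm]
      gcongr
      exact hi₀ i
    have h3 : ∀ l j, 0 ≤ D.ord (g i₀ ^ (m * d l) * aeval f (a l j)) := by
      intro l j
      have h4 := eval₂_of_isHomogeneous (algebraMap ℂ (FunField P)) (ha l j) (g i₀ ^ m) f
      rw [pow_mul]
      have h5 := X_ord_aeval D (fun i => g i₀ ^ m * f i) h2 (a l j)
      rw [aeval_def, h4] at h5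
      exact h5
    obtain ⟨l, hlP, hl⟩ := exists_good_coordinate P z hz D
    have h4 : D.ord (ratio P o l) ≤ D.ord (g i₀ ^ (m * d l) * aeval f (a l 0)) := by
      have h6 := X_solve (g i₀ ^ (m * d l)) (hrel l hlP).2
      rw [h6, D.ord.map_mul]
      refine le_add_of_nonneg_right ?_
      rw [D.ord.map_neg]
      refine D.ord.map_le_sum fun j _ => ?_
      rw [D.ord.map_mul, D.ord.map_pow]
      exact add_nonneg (h3 l (j + 1)) (nsmul_nonneg (hl o) j)
    have h5 : D.ord (ratio P o l) ≤ D.ord (g i₀ ^ (m * ∑ l, d l) * ∏ l, aeval f (a l 0)) := by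
      have h6 : g i₀ ^ (m * ∑ l, d l) * ∏ l, aeval f (a l 0) =
          ∏ l, (g i₀ ^ (m * d l) * aeval f (a l 0)) := by
        rw [Finset.prod_mul_distrib, Finset.prod_pow_eq_pow_sum, Finset.mul_sum]
      rw [h6, ← Finset.mul_prod_erase _ _ (Finset.mem_univ l), D.ord.map_mul]
      exact le_add_of_le_of_nonneg h4 (X_ord_prod D _ _ fun i _ => h3 i 0)
    refine ⟨g i₀, η i₀, hη i₀, hωg i₀, ?_⟩
    rw [Nat.cast_zero, add_zero]
    have h6 : (∏ l, aeval f (a l 0)) * ratio P l' o * g i₀ ^ (m * ∑ l, d l) =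
        (g i₀ ^ (m * ∑ l, d l) * ∏ l, aeval f (a l 0)) * ratio P l' o := by ring
    rw [h6, D.ord.map_mul]
    have h7 : ratio P o l * ratio P l' o = ratio P l' l := by
      rw [← hx6, ← hx6, ← hx6]
      have := hx7 l hlP
      field_simp
    calc (0 : WithTop ℤ) ≤ D.ord (ratio P l' l) := hl l'
      _ = D.ord (ratio P o l) + D.ord (ratio P l' o) := by rw [← h7, D.ord.map_mul]
      _ ≤ _ := by gcongr

end Pool.Agent.H68.KR
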