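import Mathlib

/-!
# KR HZ: homogenisation with respect to a variable

`hmz l n G = ∑_{d ≤ n} X_l^(n-d) G_d`, `G_d` the homogeneous component.

Proofs.
* `hmz_isHomogeneous`: `X_l^(n-d)` has degree `n - d`, `G_d` degree `d` (`homogeneousComponent_isHomogeneous`,
  `isHomogeneous_X_pow`, `IsHomogeneous.mul`, `IsHomogeneous.sum`).
* `eval₂_of_isHomogeneous`: `Q (c y) = c^d Q (y)`: expand `eval₂_eq`, for every monomial in the support the sum of the
  exponents is `d` (compare the proof in `Pt.lean`).
* `eval₂_hmz`: for every `d`: `G_d (y) = y_l^d G_d (y / y_l)`, so `y_l^(n-d) G_d (y) = y_l^n G_d (y / y_l)` (`d ≤ n`), and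
  `∑_{d ≤ n} G_d = G` (`sum_homogeneousComponent`, the components of degree `> totalDegree` vanish).
-/

set_option autoImplicit false

open MvPolynomial

noncomputable section

namespace Pool.Agent.H68.KR

variable {m : ℕ}

/-- The homogenisation of `G` in degree `n` with respect to the variable `X l`. -/
def hmz (l : Fin m) (n : ℕ) (G : MvPolynomial (Fin m) ℂ) : MvPolynomial (Fin m) ℂ :=
  ∑ d ∈ Finset.range (n + 1), X l ^ (n - d) * homogeneousComponent d G

theorem hmz_isHomogeneous (l : Fin m) (n : ℕ) (G : MvPolynomial (Fin m) ℂ) :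
    (hmz l n G).IsHomogeneous n := by
  unfold hmz
  apply MvPolynomial.IsHomogeneous.sum
  intro d hd
  have h1 : d ≤ n := Nat.lt_succ_iff.1 (Finset.mem_range.1 hd)
  have h2 := (MvPolynomial.isHomogeneous_X_pow (R := ℂ) l (n - d)).mul
    (MvPolynomial.homogeneousComponent_isHomogeneous d G)
  rwa [Nat.sub_add_cancel h1] at h2

/-- Scaling of a homogeneous polynomial. -/
theorem eval₂_of_isHomogeneous {F : Type} [Field F] (ι : ℂ →+* F) {d : ℕ} {Q : MvPolynomial (Fin m) ℂ}
    (hQ : Q.IsHomogeneous d) (c : F) (y : Fin m → F) :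
    eval₂ ι (fun i => c * y i) Q = c ^ d * eval₂ ι y Q := by
  rw [eval₂_eq, eval₂_eq, Finset.mul_sum]
  refine Finset.sum_congr rfl fun m hm => ?_
  have h5 : ∑ i ∈ m.support, m i = d := by
    have := hQ (mem_support_iff.1 hm)
    rw [Finsupp.weight_apply, Finsupp.sum] at this
    simpa using this
  simp only [mul_pow, Finset.prod_mul_distrib]
  rw [Finset.prod_pow_eq_pow_sum, h5]
  ring

theorem eval₂_hmz {F : Type} [Field F] (ι : ℂ →+* F) {l : Fin m} {n : ℕ} {G : MvPolynomial (Fin m) ℂ}
    (hn : G.totalDegree ≤ n) {y : Fin m → F} (hy : y l ≠ 0) :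
    eval₂ ι y (hmz l n G) = y l ^ n * eval₂ ι (fun i => y i / y l) G := by
  have h1 : G = ∑ d ∈ Finset.range (n + 1), homogeneousComponent d G := by
    conv_lhs => rw [← MvPolynomial.sum_homogeneousComponent G]
    apply Finset.sum_subset
    · intro d hd
      rw [Finset.mem_range] at hd ⊢
      omega
    · intro d _ hd
      apply MvPolynomial.homogeneousComponent_eq_zero
      rw [Finset.mem_range] at hd
      omega
  have h2 : eval₂ ι (fun i => y i / y l) G =
      ∑ d ∈ Finset.range (n + 1), eval₂ ι (fun i => y i / y l) (homogeneousComponent d G) := by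
    conv_lhs => rw [h1]
    exact MvPolynomial.eval₂_sum _ _ _ _
  have h3 : eval₂ ι y (hmz l n G) =
      ∑ d ∈ Finset.range (n + 1), eval₂ ι y (X l ^ (n - d) * homogeneousComponent d G) :=
    MvPolynomial.eval₂_sum _ _ _ _
  rw [h2, h3, Finset.mul_sum]
  refine Finset.sum_congr rfl fun d hd => ?_
  have h4 : d ≤ n := Nat.lt_succ_iff.1 (Finset.mem_range.1 hd)
  have h5 := eval₂_of_isHomogeneous ι (MvPolynomial.homogeneousComponent_isHomogeneous d G) (y l)
    (fun i => y i / y l)
  have h6 : (fun i => y l * (y i / y l)) = y := by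
    funext i
    field_simp
  rw [h6] at h5
  rw [eval₂_mul, eval₂_pow, eval₂_X, h5, ← mul_assoc, ← pow_add, Nat.sub_add_cancel h4]

end Pool.Agent.H68.KR
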