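import Pool.Agent.H68.KR.KOD

/-!
# KR KODL: Kodaira's lemma with logarithmic poles
-/

set_option autoImplicit false

open MvPolynomial
open Pool.Agent.H23.Fano (Form regularForms PrimeDivisorOver)
open Pool.Agent.H17GT (coordFun functionField)
open Pool.Agent.H17LG.Variety (FunField ratio PoleAtMost IsLogGeneralType)

noncomputable section

namespace Pool.Agent.H68.KR

variable {N : ℕ} (P : Ideal (MvPolynomial (Fin (N + 1)) ℂ)) [P.IsPrime]

private theorem X_coordFun_ne {l : Fin (N + 1)} (h : coordFun P l ≠ 0) : X l ∉ P := by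
  intro hX
  apply h
  rw [coordFun, Ideal.Quotient.eq_zero_iff_mem.2 hX, map_zero]

private theorem X_coordFun_ne' {l : Fin (N + 1)} (h : X l ∉ P) : coordFun P l ≠ 0 := by
  intro h0
  apply h
  rw [coordFun] at h0
  have h10 : Ideal.Quotient.mk P (X l) = 0 :=
    (IsFractionRing.injective (MvPolynomial (Fin (N + 1)) ℂ ⧸ P)
      (FractionRing (MvPolynomial (Fin (N + 1)) ℂ ⧸ P))) (by rw [h0, map_zero])
  exact Ideal.Quotient.eq_zero_iff_mem.1 h10

private theorem X_ord_aeval {K : Type} [Field K] [Algebra ℂ K] {n s : ℕ} (D : PrimeDivisorOver K n)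
    (y : Fin s → K) (hy : ∀ i, 0 ≤ D.ord (y i)) (Q : MvPolynomial (Fin s) ℂ) :
    0 ≤ D.ord (aeval y Q) := by
  induction Q using MvPolynomial.induction_on with
  | C a =>
    rw [aeval_C]
    exact D.ord_const a
  | add p q hp hq =>
    rw [map_add]
    exact D.ord.map_le_add hp hq
  | mul_X p i hp =>
    rw [map_mul, aeval_X, D.ord.map_mul]
    exact add_nonneg hp (hy i)

private theorem X_ord_prod {K : Type} [Field K] [Algebra ℂ K] {n : ℕ} (D : PrimeDivisorOver K n)
    {ι : Type} (S : Finset ι) (y : ι → K) (hy : ∀ i ∈ S, 0 ≤ D.ord (y i)) :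
    0 ≤ D.ord (∏ i ∈ S, y i) := by
  classical
  induction S using Finset.induction_on with
  | empty => rw [Finset.prod_empty, D.ord.map_one]
  | insert a S ha ih =>
    rw [Finset.prod_insert ha, D.ord.map_mul]
    exact add_nonneg (hy a (Finset.mem_insert_self _ _))
      (ih fun i hi => hy i (Finset.mem_insert_of_mem hi))

private theorem X_solve {K : Type} [Field K] {n : ℕ} {A : ℕ → K} {ξ : K} (c : K)
    (h : ∑ j ∈ Finset.range (n + 1), A j * ξ ^ j = 0) :
    c * A 0 = ξ * (-∑ j ∈ Finset.range n, c * A (j + 1) * ξ ^ j) := by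
  rw [Finset.sum_range_succ', pow_zero, mul_one] at h
  have h7 : A 0 = -∑ j ∈ Finset.range n, A (j + 1) * ξ ^ (j + 1) := by
    linear_combination h
  rw [h7, mul_neg, mul_neg, Finset.mul_sum, Finset.mul_sum]
  congr 1
  refine Finset.sum_congr rfl fun j _ => ?_
  ring

/-- Kodaira's lemma. -/
theorem kodaira_log {k : ℕ} (z : Fin (k + 1) → FunField P) (hz : IsTranscendenceBasis ℂ z) {n : ℕ}
    {Bd : PrimeDivisorOver (FunField P) n → Prop} (hgt : IsLogGeneralType Bd) :
    ∃ ω : Form (FunField P) n, ω ≠ 0 ∧ ∃ (M : ℕ) (H : FunField P) (o : Fin (N + 1)), 1 ≤ M ∧ H ≠ 0 ∧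
      X o ∉ P ∧ ∀ l, X l ∉ P → ∀ D : PrimeDivisorOver (FunField P) n,
        (¬ Bd D → PoleAtMost 0 D M (H * ratio P l o) ω) ∧
          (Bd D → PoleAtMost M D M (H * ratio P l o) ω) := by
  classical
  obtain ⟨m, hm, ω, hω, r, f, hf, hpole, halg⟩ := hgt
  obtain ⟨x, hx0, -, -, -, hx5, hx6⟩ := exists_point P z hz
  obtain ⟨o, ho⟩ : ∃ i, x i ≠ 0 := by
    by_contra hcon
    push Not at hcon
    exact hx0 (funext hcon)
  have hoP : X o ∉ P := X_coordFun_ne P fun h => ho ((hx5 o).2 h)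
  have hx7 : ∀ l, X l ∉ P → x l ≠ 0 := fun l hl h => X_coordFun_ne' P hl ((hx5 l).1 h)
  have hξ : ∀ l, X l ∉ P → ratio P o l ≠ 0 := by
    intro l hl
    rw [← hx6]
    exact div_ne_zero ho (hx7 l hl)
  have hex : ∀ l : Fin (N + 1), ∃ (D n : ℕ) (a : ℕ → MvPolynomial (Fin (r + 1)) ℂ),
      (∀ k, (a k).IsHomogeneous D) ∧ aeval f (a 0) ≠ 0 ∧ (X l ∉ P → 1 ≤ D ∧
        ∑ k ∈ Finset.range (n + 1), aeval f (a k) * ratio P o l ^ k = 0) := by
    intro l
    by_cases hl : X l ∈ P
    · refine ⟨0, 0, fun _ => 1, fun _ => isHomogeneous_one _ _, ?_, fun h => absurd hl h⟩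
      rw [map_one]
      exact one_ne_zero
    · obtain ⟨D, n, a, h1, h2, h3, h4⟩ := exists_relation hf (hξ l hl)
        (halg.isAlgebraic (ratio P o l))
      exact ⟨D, n, a, h2, h3, fun _ => ⟨h1, h4⟩⟩
  choose d nn a ha ha0 hrel using hex
  refine ⟨ω, hω, m * ∑ l, d l, ∏ l, aeval f (a l 0), o, ?_, ?_, hoP, ?_⟩
  · have h1 : 1 ≤ d o := (hrel o hoP).1
    have h2 : d o ≤ ∑ l, d l := Finset.single_le_sum (f := d) (fun i _ => Nat.zero_le _)
      (Finset.mem_univ o)
    exact Nat.mul_pos hm (by omega)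
  · exact Finset.prod_ne_zero_iff.2 fun l _ => ha0 l
  · intro l' hl' D
    obtain ⟨t, ht⟩ := D.exists_uniformizer
    -- the common part
    have hmain : ∀ e : ℕ, (∀ i, ∃ (g : FunField P) (η : Form (FunField P) n),
        η ∈ regularForms n D.localRing ∧ ω = g • η ∧ 0 ≤ D.ord (f i * (t ^ e * g) ^ m)) →
        ∃ (g : FunField P) (η : Form (FunField P) n), η ∈ regularForms n D.localRing ∧ ω = g • η ∧
          0 ≤ D.ord ((∏ l, aeval f (a l 0)) * ratio P l' o * (t ^ e * g) ^ (m * ∑ l, d l)) := by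
      intro e h1
      choose g η hη hωg hord using h1
      obtain ⟨i₀, hi₀⟩ := Finite.exists_max fun i => D.ord (g i)
      have h2 : ∀ i, 0 ≤ D.ord ((t ^ e * g i₀) ^ m * f i) := by
        intro i
        refine le_trans (hord i) ?_
        rw [D.ord.map_mul, D.ord.map_mul, D.ord.map_pow, D.ord.map_pow, D.ord.map_mul, D.ord.map_mul,
          add_comm]
        gcongr
        exact hi₀ i
      have h3 : ∀ l j, 0 ≤ D.ord ((t ^ e * g i₀) ^ (m * d l) * aeval f (a l j)) := by
        intro l j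
        have h4 := eval₂_of_isHomogeneous (algebraMap ℂ (FunField P)) (ha l j) ((t ^ e * g i₀) ^ m) f
        rw [pow_mul]
        have h5 := X_ord_aeval D (fun i => (t ^ e * g i₀) ^ m * f i) h2 (a l j)
        rw [aeval_def, h4] at h5
        exact h5
      obtain ⟨l, hlP, hl⟩ := exists_good_coordinate P z hz D
      have h4 : D.ord (ratio P o l) ≤ D.ord ((t ^ e * g i₀) ^ (m * d l) * aeval f (a l 0)) := by
        have h6 := X_solve ((t ^ e * g i₀) ^ (m * d l)) (hrel l hlP).2
        rw [h6, D.ord.map_mul]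
        refine le_add_of_nonneg_right ?_
        rw [D.ord.map_neg]
        refine D.ord.map_le_sum fun j _ => ?_
        rw [D.ord.map_mul, D.ord.map_pow]
        exact add_nonneg (h3 l (j + 1)) (nsmul_nonneg (hl o) j)
      have h5 : D.ord (ratio P o l) ≤
          D.ord ((t ^ e * g i₀) ^ (m * ∑ l, d l) * ∏ l, aeval f (a l 0)) := by
        have h6 : (t ^ e * g i₀) ^ (m * ∑ l, d l) * ∏ l, aeval f (a l 0) =
            ∏ l, ((t ^ e * g i₀) ^ (m * d l) * aeval f (a l 0)) := by
          rw [Finset.prod_mul_distrib, Finset.prod_pow_eq_pow_sum, Finset.mul_sum]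
        rw [h6, ← Finset.mul_prod_erase _ _ (Finset.mem_univ l), D.ord.map_mul]
        exact le_add_of_le_of_nonneg h4 (X_ord_prod D _ _ fun i _ => h3 i 0)
      refine ⟨g i₀, η i₀, hη i₀, hωg i₀, ?_⟩
      have h6 : (∏ l, aeval f (a l 0)) * ratio P l' o * (t ^ e * g i₀) ^ (m * ∑ l, d l) =
          ((t ^ e * g i₀) ^ (m * ∑ l, d l) * ∏ l, aeval f (a l 0)) * ratio P l' o := by ring
      rw [h6, D.ord.map_mul]
      have h7 : ratio P o l * ratio P l' o = ratio P l' l := by
        rw [← hx6, ← hx6, ← hx6]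
        have := hx7 l hlP
        field_simp
      calc (0 : WithTop ℤ) ≤ D.ord (ratio P l' l) := hl l'
        _ = D.ord (ratio P o l) + D.ord (ratio P l' o) := by rw [← h7, D.ord.map_mul]
        _ ≤ _ := by gcongr
    constructor
    · intro hB
      obtain ⟨g, η, h1, h2, h3⟩ := hmain 0 (by
        intro i
        obtain ⟨g, η, h2, h3, h4⟩ := (hpole i D).1 hB
        refine ⟨g, η, h2, h3, ?_⟩
        rw [pow_zero, one_mul]
        rw [Nat.cast_zero, add_zero] at h4
        exact h4)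
      refine ⟨g, η, h1, h2, ?_⟩
      rw [Nat.cast_zero, add_zero]
      rw [pow_zero, one_mul] at h3
      exact h3
    · intro hB
      obtain ⟨g, η, h1, h2, h3⟩ := hmain 1 (by
        intro i
        obtain ⟨g, η, h2, h3, h4⟩ := (hpole i D).2 hB
        refine ⟨g, η, h2, h3, ?_⟩
        have h5 : f i * (t ^ 1 * g) ^ m = f i * g ^ m * t ^ m := by ring
        rw [h5, D.ord.map_mul, D.ord.map_pow t, ht, nsmul_one]
        exact h4)
      refine ⟨g, η, h1, h2, ?_⟩
      have h5 : (∏ l, aeval f (a l 0)) * ratio P l' o * (t ^ 1 * g) ^ (m * ∑ l, d l) =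
          (∏ l, aeval f (a l 0)) * ratio P l' o * g ^ (m * ∑ l, d l) * t ^ (m * ∑ l, d l) := by ring
      rw [h5, D.ord.map_mul, D.ord.map_pow t, ht, nsmul_one] at h3
      exact h3

end Pool.Agent.H68.KR
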