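import Pool.Agent.H68.KR.T1
import Pool.Agent.H68.KR.D2

/-!
# KR T2: the Taylor series of a function of two variables

`t2 f ∈ ℂ⟦X⟧⟦T⟧`: the coefficient of `T^n` is `1/n!` times the Taylor series in `x` of `(∂/∂y)^n f (x, 0)`.

Proofs.
* `t2_congr`: `iterate_dy_congr` along `x ↦ (x, 0)` and `t1_congr`.
* `t2_add`, `t2_mul`: for all `n` and all `f, g` analytic at `0`:
  `coeff n (t2 (f g)) = coeff n (t2 f * t2 g)` by induction on `n`.  `n = 0`: `coeff 0` is
  `t1 (fun x => f (x, 0))` (`Nat.factorial 0 = 1`), so `t1_mul`.  Step: `(n + 1) coeff (n + 1) F = coeff n F'`, and by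
  `t2_dy`, `t2_add`, `t2_congr`, `dy_mul` and the induction hypothesis `(t2 (f g))' = t2 (dy f g + f dy g)` has the same
  `n`-th coefficient as `(t2 f t2 g)'`.  `t2_add`: the same or directly.
* `t2_dy`: `coeff n (F') = (n + 1) coeff (n + 1) F` (`PowerSeries.coeff_derivative`), `dy^[n + 1] f = dy^[n] (dy f)`
  (`Function.iterate_succ_apply`), `(n + 1) / (n + 1)! = 1 / n!`.
* `t2_dx`: `dx_iterate_dy_comm` and `t1_deriv`, `deriv_slice_x` (at the points `(x, 0)`, `x` near `0`:
  `deriv (fun x => g (x, 0)) x = dx g (x, 0)` with `g = dy^[n] f`).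
* `t2_of_fst`: `dy (fun u => f u.1) = 0` near `0`.  `t2_snd`: `dy (fun u => u.2) = 1`, `dy (1) = 0`.
* `t2_eq_zero_iff` (`→`): let `f` be analytic at all points of the polydisc `|x| < r, |y| < r`
  (`AnalyticAt.eventually_analyticAt`, `Metric.nhds_basis_ball`, the sup norm of `ℂ × ℂ`).  By `t1_eq_zero_iff`
  `dy^[n] f (x, 0) = 0` for `x` near `0`, hence for all `|x| < r` (identity theorem in the connected ball,
  `AnalyticOnNhd.eqOn_zero_of_preconnected_of_eventuallyEq_zero`).  By `iterate_dy_slice` all derivatives of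
  `y ↦ f (x, y)` vanish at `0`, hence it vanishes near `0` (e.g. `t1_eq_zero_iff`) and for `|y| < r` (identity theorem).
* `t2_eval`: `MvPolynomial.induction_on`.
-/

set_option autoImplicit false

open Topology Filter

noncomputable section

namespace Pool.Agent.H68.KR

/-- The Taylor series at `0` of a function of two variables, as a power series in the second variable whose
coefficients are power series in the first variable. -/
def t2 (f : ℂ × ℂ → ℂ) : PowerSeries (PowerSeries ℂ) :=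
  PowerSeries.mk fun n => PowerSeries.C ((n.factorial : ℂ)⁻¹) * t1 (fun x => (dy^[n] f) (x, 0))

/-- The derivative in the first variable of a power series in two variables. -/
def pX (F : PowerSeries (PowerSeries ℂ)) : PowerSeries (PowerSeries ℂ) :=
  PowerSeries.mk fun n => PowerSeries.derivative ℂ (PowerSeries.coeff n F)

private theorem T2_slice_tendsto :
    Tendsto (fun x : ℂ => (x, (0 : ℂ))) (𝓝 0) (𝓝 (0 : ℂ × ℂ)) := by
  have h : ContinuousAt (fun x : ℂ => (x, (0 : ℂ))) 0 := by fun_prop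
  exact h

private theorem T2_slice {f : ℂ × ℂ → ℂ} {x : ℂ} (hf : AnalyticAt ℂ f (x, 0)) :
    AnalyticAt ℂ (fun x : ℂ => f (x, 0)) x := by
  have h : AnalyticAt ℂ (fun x : ℂ => (x, (0 : ℂ))) x := analyticAt_id.prod analyticAt_const
  exact AnalyticAt.comp (g := f) (f := fun x : ℂ => (x, (0 : ℂ))) hf h

private theorem T2_slice_y {f : ℂ × ℂ → ℂ} {x y : ℂ} (hf : AnalyticAt ℂ f (x, y)) :
    AnalyticAt ℂ (fun y : ℂ => f (x, y)) y := by
  have h : AnalyticAt ℂ (fun y : ℂ => (x, y)) y := analyticAt_const.prod analyticAt_id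
  exact AnalyticAt.comp (g := f) (f := fun y : ℂ => (x, y)) hf h

private theorem T2_coeff (f : ℂ × ℂ → ℂ) (n : ℕ) : PowerSeries.coeff n (t2 f) =
    PowerSeries.C ((n.factorial : ℂ)⁻¹) * t1 (fun x => (dy^[n] f) (x, 0)) := by
  unfold t2
  rw [PowerSeries.coeff_mk]

private theorem T2_der_mul {R : Type*} [CommRing R] (F G : PowerSeries R) :
    PowerSeries.derivative R (F * G) =
      PowerSeries.derivative R F * G + F * PowerSeries.derivative R G := by
  rw [Derivation.leibniz, smul_eq_mul, smul_eq_mul, mul_comm G, add_comm]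

private theorem T2_cast_ne (n : ℕ) : ((n : PowerSeries ℂ) + 1) ≠ 0 := by
  have h1 : ((n : PowerSeries ℂ) + 1) = PowerSeries.C ((n : ℂ) + 1) := by
    rw [map_add, map_natCast, map_one]
  rw [h1]
  intro h3
  rw [map_eq_zero_iff _ PowerSeries.C_injective] at h3
  exact Nat.cast_add_one_ne_zero n h3

private theorem T2_ext {F G : PowerSeries (PowerSeries ℂ)}
    (hD : PowerSeries.derivative (PowerSeries ℂ) F = PowerSeries.derivative (PowerSeries ℂ) G)
    (hc : PowerSeries.constantCoeff F = PowerSeries.constantCoeff G) : F = G := by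
  refine PowerSeries.ext fun n => ?_
  rcases n with - | n
  · rw [PowerSeries.coeff_zero_eq_constantCoeff_apply, PowerSeries.coeff_zero_eq_constantCoeff_apply]
    exact hc
  · have h := congrArg (PowerSeries.coeff n) hD
    rw [PowerSeries.coeff_derivative, PowerSeries.coeff_derivative] at h
    exact mul_right_cancel₀ (T2_cast_ne n) h

theorem t2_congr {f g : ℂ × ℂ → ℂ} (h : ∀ᶠ u in 𝓝 (0 : ℂ × ℂ), f u = g u) : t2 f = t2 g := by
  unfold t2
  congr 1
  funext n
  congr 1
  exact t1_congr (T2_slice_tendsto.eventually (iterate_dy_congr h n))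

theorem constantCoeff_t2 (f : ℂ × ℂ → ℂ) :
    PowerSeries.constantCoeff (t2 f) = t1 (fun x => f (x, 0)) := by
  rw [← PowerSeries.coeff_zero_eq_constantCoeff_apply, T2_coeff]
  simp

theorem t2_add {f g : ℂ × ℂ → ℂ} (hf : AnalyticAt ℂ f 0) (hg : AnalyticAt ℂ g 0) :
    t2 (fun u => f u + g u) = t2 f + t2 g := by
  have key : ∀ (n : ℕ) (f g : ℂ × ℂ → ℂ), AnalyticAt ℂ f 0 → AnalyticAt ℂ g 0 →
      ∀ᶠ u in 𝓝 (0 : ℂ × ℂ), (dy^[n] fun u => f u + g u) u = (dy^[n] f) u + (dy^[n] g) u := by
    intro n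
    induction n with
    | zero => intro f g _ _; exact Filter.Eventually.of_forall fun u => rfl
    | succ n ih =>
      intro f g hf hg
      have h1 := iterate_dy_congr (dy_add hf hg) n
      have h2 := ih (dy f) (dy g) (analyticAt_dy hf) (analyticAt_dy hg)
      filter_upwards [h1, h2] with u hu1 hu2
      rw [Function.iterate_succ_apply, Function.iterate_succ_apply, Function.iterate_succ_apply]
      exact hu1.trans hu2
  refine PowerSeries.ext fun n => ?_
  rw [map_add, T2_coeff, T2_coeff, T2_coeff, ← mul_add]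
  congr 1
  rw [← t1_add (T2_slice (analyticAt_iterate_dy hf n)) (T2_slice (analyticAt_iterate_dy hg n))]
  exact t1_congr (T2_slice_tendsto.eventually (key n f g hf hg))

theorem t2_dy {f : ℂ × ℂ → ℂ} (hf : AnalyticAt ℂ f 0) :
    PowerSeries.derivative (PowerSeries ℂ) (t2 f) = t2 (dy f) := by
  refine PowerSeries.ext fun n => ?_
  rw [PowerSeries.coeff_derivative, T2_coeff, T2_coeff, Function.iterate_succ_apply]
  have h1 : ((n : PowerSeries ℂ) + 1) = PowerSeries.C ((n : ℂ) + 1) := by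
    rw [map_add, map_natCast, map_one]
  have h2 : PowerSeries.C (((n + 1).factorial : ℂ)⁻¹) * PowerSeries.C ((n : ℂ) + 1) =
      PowerSeries.C ((n.factorial : ℂ)⁻¹) := by
    rw [← map_mul]
    congr 1
    rw [Nat.factorial_succ, Nat.cast_mul, Nat.cast_add, Nat.cast_one, mul_inv]
    have h3 : (n : ℂ) + 1 ≠ 0 := by exact_mod_cast Nat.succ_ne_zero n
    field_simp
  rw [h1, mul_right_comm, h2]

theorem t2_dx {f : ℂ × ℂ → ℂ} (hf : AnalyticAt ℂ f 0) : pX (t2 f) = t2 (dx f) := by
  refine PowerSeries.ext fun n => ?_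
  unfold pX
  rw [PowerSeries.coeff_mk, T2_coeff, T2_coeff, ← PowerSeries.smul_eq_C_mul, ← PowerSeries.smul_eq_C_mul,
    Derivation.map_smul]
  congr 1
  rw [t1_deriv (T2_slice (analyticAt_iterate_dy hf n))]
  refine t1_congr ?_
  have h1 := T2_slice_tendsto.eventually (dx_iterate_dy_comm hf n)
  have h2 := T2_slice_tendsto.eventually (analyticAt_iterate_dy hf n).eventually_analyticAt
  filter_upwards [h1, h2] with x hx1 hx2
  rw [← hx1]
  exact deriv_slice_x (p := (x, 0)) hx2

theorem t2_mul {f g : ℂ × ℂ → ℂ} (hf : AnalyticAt ℂ f 0) (hg : AnalyticAt ℂ g 0) :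
    t2 (fun u => f u * g u) = t2 f * t2 g := by
  have key : ∀ (n : ℕ) (f g : ℂ × ℂ → ℂ), AnalyticAt ℂ f 0 → AnalyticAt ℂ g 0 →
      PowerSeries.coeff n (t2 fun u => f u * g u) = PowerSeries.coeff n (t2 f * t2 g) := by
    intro n
    induction n with
    | zero =>
      intro f g hf hg
      rw [PowerSeries.coeff_zero_eq_constantCoeff_apply, PowerSeries.coeff_zero_eq_constantCoeff_apply,
        map_mul, constantCoeff_t2, constantCoeff_t2, constantCoeff_t2]
      exact t1_mul (T2_slice hf) (T2_slice hg)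
    | succ n ih =>
      intro f g hf hg
      have h1 : PowerSeries.derivative (PowerSeries ℂ) (t2 fun u => f u * g u) =
          t2 (fun u => dy f u * g u) + t2 (fun u => f u * dy g u) := by
        have hfg : AnalyticAt ℂ (fun u => f u * g u) 0 := hf.mul hg
        rw [t2_dy hfg, t2_congr (dy_mul hf hg)]
        exact t2_add ((analyticAt_dy hf).mul hg) (hf.mul (analyticAt_dy hg))
      have h2 : PowerSeries.derivative (PowerSeries ℂ) (t2 f * t2 g) =
          t2 (dy f) * t2 g + t2 f * t2 (dy g) := by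
        rw [T2_der_mul, t2_dy hf, t2_dy hg]
      have h3 : PowerSeries.coeff n (PowerSeries.derivative (PowerSeries ℂ) (t2 fun u => f u * g u)) =
          PowerSeries.coeff n (PowerSeries.derivative (PowerSeries ℂ) (t2 f * t2 g)) := by
        rw [h1, h2, map_add, map_add, ih _ _ (analyticAt_dy hf) hg, ih _ _ hf (analyticAt_dy hg)]
      rw [PowerSeries.coeff_derivative, PowerSeries.coeff_derivative] at h3
      exact mul_right_cancel₀ (T2_cast_ne n) h3
  exact PowerSeries.ext fun n => key n f g hf hg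

private theorem T2_zero : t2 (fun _ => (0 : ℂ)) = 0 := by
  have h1 : dy (fun _ => (0 : ℂ)) = fun _ => (0 : ℂ) := by
    funext u
    unfold dy
    simp
  refine PowerSeries.ext fun n => ?_
  rw [T2_coeff, Function.iterate_fixed h1 n, t1_const, map_zero, mul_zero, map_zero]

/-- Functions of the first variable. -/
theorem t2_of_fst {f : ℂ → ℂ} (hf : AnalyticAt ℂ f 0) :
    t2 (fun u => f u.1) = PowerSeries.C (t1 f) := by
  refine T2_ext ?_ ?_
  · have hF : AnalyticAt ℂ (fun u : ℂ × ℂ => f u.1) 0 := by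
      have h : AnalyticAt ℂ (fun u : ℂ × ℂ => u.1) 0 := analyticAt_fst
      exact AnalyticAt.comp (g := f) (f := fun u : ℂ × ℂ => u.1) hf h
    have h1 : ∀ᶠ u in 𝓝 (0 : ℂ × ℂ), dy (fun u => f u.1) u = (fun _ => (0 : ℂ)) u := by
      filter_upwards [hF.eventually_analyticAt] with u hu
      have h5 := deriv_slice_y hu
      have h6 : deriv (fun _ : ℂ => f u.1) u.2 = 0 := deriv_const _ _
      exact h5.symm.trans h6
    rw [t2_dy hF, t2_congr h1, T2_zero, PowerSeries.derivative_C]
  · rw [constantCoeff_t2, PowerSeries.constantCoeff_C]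

theorem t2_snd : t2 (fun u => u.2) = PowerSeries.X := by
  refine T2_ext ?_ ?_
  · have hF : AnalyticAt ℂ (fun u : ℂ × ℂ => u.2) 0 := analyticAt_snd
    have h1 : ∀ᶠ u in 𝓝 (0 : ℂ × ℂ), dy (fun u => u.2) u = (fun _ => (1 : ℂ)) u := by
      refine Filter.Eventually.of_forall fun u => ?_
      have h2 : AnalyticAt ℂ (fun u : ℂ × ℂ => u.2) u := analyticAt_snd
      have h5 := deriv_slice_y h2
      have h6 : deriv (fun y : ℂ => y) u.2 = 1 := deriv_id _
      exact h5.symm.trans h6
    have h3 : t2 (fun _ => (1 : ℂ)) = 1 := by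
      have h4 := t2_of_fst (f := fun _ => (1 : ℂ)) analyticAt_const
      rw [h4, t1_const, map_one, map_one]
    rw [t2_dy hF, t2_congr h1, h3, PowerSeries.derivative_X]
  · rw [constantCoeff_t2, PowerSeries.constantCoeff_X, t1_const, map_zero]

theorem t2_const (c : ℂ) : t2 (fun _ => c) = PowerSeries.C (PowerSeries.C c) := by
  have h := t2_of_fst (f := fun _ => c) analyticAt_const
  rw [h, t1_const]

theorem t2_eq_zero_iff {f : ℂ × ℂ → ℂ} (hf : AnalyticAt ℂ f 0) :
    t2 f = 0 ↔ ∀ᶠ u in 𝓝 (0 : ℂ × ℂ), f u = 0 := by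
  constructor
  · intro h
    obtain ⟨r, hr, hball⟩ := Metric.eventually_nhds_iff_ball.1 hf.eventually_analyticAt
    have hmem : ∀ x y : ℂ, x ∈ Metric.ball (0 : ℂ) r → y ∈ Metric.ball (0 : ℂ) r →
        (x, y) ∈ Metric.ball (0 : ℂ × ℂ) r := by
      intro x y hx hy
      rw [Metric.mem_ball, Prod.dist_eq]
      exact max_lt hx hy
    have hpre : IsPreconnected (Metric.ball (0 : ℂ) r) := (convex_ball _ _).isPreconnected
    have h0 : (0 : ℂ) ∈ Metric.ball (0 : ℂ) r := Metric.mem_ball_self hr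
    have hcoef : ∀ n : ℕ, ∀ᶠ x in 𝓝 (0 : ℂ), (dy^[n] f) (x, 0) = 0 := by
      intro n
      have h1 : PowerSeries.C ((n.factorial : ℂ)⁻¹) * t1 (fun x => (dy^[n] f) (x, 0)) = 0 := by
        rw [← T2_coeff, h, map_zero]
      have h2 : PowerSeries.C ((n.factorial : ℂ)⁻¹) ≠ 0 := by
        intro h3
        rw [map_eq_zero_iff _ PowerSeries.C_injective, inv_eq_zero] at h3
        exact Nat.factorial_ne_zero n (by exact_mod_cast h3)
      have h3 := (mul_eq_zero.1 h1).resolve_left h2
      exact (t1_eq_zero_iff (T2_slice (analyticAt_iterate_dy hf n))).1 h3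
    have haxis : ∀ n : ℕ, ∀ x ∈ Metric.ball (0 : ℂ) r, (dy^[n] f) (x, 0) = 0 := by
      intro n x hx
      have h1 : AnalyticOnNhd ℂ (fun x : ℂ => (dy^[n] f) (x, 0)) (Metric.ball 0 r) := by
        intro x hx
        exact T2_slice (analyticAt_iterate_dy (hball _ (hmem x 0 hx h0)) n)
      exact h1.eqOn_zero_of_preconnected_of_eventuallyEq_zero hpre h0 (hcoef n) hx
    have hall : ∀ x ∈ Metric.ball (0 : ℂ) r, ∀ y ∈ Metric.ball (0 : ℂ) r, f (x, y) = 0 := by
      intro x hx y hy
      have h1 : AnalyticOnNhd ℂ (fun y : ℂ => f (x, y)) (Metric.ball 0 r) := by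
        intro y hy
        exact T2_slice_y (hball _ (hmem x y hx hy))
      have h2 : t1 (fun y : ℂ => f (x, y)) = 0 := by
        refine PowerSeries.ext fun n => ?_
        unfold t1
        rw [PowerSeries.coeff_mk, map_zero]
        have h3 := iterate_dy_slice (p := (x, 0)) (hball _ (hmem x 0 hx h0)) n
        rw [haxis n x hx] at h3
        rw [← h3, zero_div]
      have h3 := (t1_eq_zero_iff (h1 0 h0)).1 h2
      exact h1.eqOn_zero_of_preconnected_of_eventuallyEq_zero hpre h0 h3 hy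
    filter_upwards [Metric.ball_mem_nhds (0 : ℂ × ℂ) hr] with u hu
    rw [Metric.mem_ball, Prod.dist_eq, max_lt_iff] at hu
    exact hall u.1 hu.1 u.2 hu.2
  · intro h
    have h1 : ∀ᶠ u in 𝓝 (0 : ℂ × ℂ), f u = (fun _ => (0 : ℂ)) u := h
    rw [t2_congr h1, T2_zero]

theorem t2_pow {f : ℂ × ℂ → ℂ} (hf : AnalyticAt ℂ f 0) (n : ℕ) :
    t2 (fun u => f u ^ n) = t2 f ^ n := by
  induction n with
  | zero =>
    simp only [pow_zero]
    rw [t2_const, map_one, map_one]
  | succ n ih =>
    have h1 : (fun u => f u ^ (n + 1)) = fun u => f u ^ n * f u := by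
      funext u
      rw [pow_succ]
    have hn : AnalyticAt ℂ (fun u => f u ^ n) 0 := hf.pow n
    rw [h1, t2_mul hn hf, ih, pow_succ]

theorem t2_eval {n : ℕ} {ψ : ℂ × ℂ → Fin n → ℂ} (hψ : AnalyticAt ℂ ψ 0) (Q : MvPolynomial (Fin n) ℂ) :
    t2 (fun u => MvPolynomial.eval (ψ u) Q) =
      MvPolynomial.eval₂ ((PowerSeries.C : PowerSeries ℂ →+* PowerSeries (PowerSeries ℂ)).comp
        (PowerSeries.C : ℂ →+* PowerSeries ℂ)) (fun i => t2 (fun u => ψ u i)) Q := by
  have hi : ∀ i, AnalyticAt ℂ (fun u => ψ u i) 0 := fun i => analyticAt_pi_iff.1 hψ i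
  have key : ∀ Q : MvPolynomial (Fin n) ℂ, AnalyticAt ℂ (fun u => MvPolynomial.eval (ψ u) Q) 0 ∧
      t2 (fun u => MvPolynomial.eval (ψ u) Q) =
      MvPolynomial.eval₂ ((PowerSeries.C : PowerSeries ℂ →+* PowerSeries (PowerSeries ℂ)).comp
        (PowerSeries.C : ℂ →+* PowerSeries ℂ)) (fun i => t2 (fun u => ψ u i)) Q := by
    intro Q
    induction Q using MvPolynomial.induction_on with
    | C a =>
      simp only [MvPolynomial.eval_C]
      refine ⟨analyticAt_const, ?_⟩
      rw [t2_const, MvPolynomial.eval₂_C]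
      rfl
    | add p q hp hq =>
      simp only [map_add]
      refine ⟨hp.1.add hq.1, ?_⟩
      rw [t2_add hp.1 hq.1, hp.2, hq.2, MvPolynomial.eval₂_add]
    | mul_X p i hp =>
      simp only [map_mul, MvPolynomial.eval_X]
      refine ⟨hp.1.mul (hi i), ?_⟩
      rw [t2_mul hp.1 (hi i), hp.2, MvPolynomial.eval₂_mul, MvPolynomial.eval₂_X]
  exact (key Q).2

end Pool.Agent.H68.KR
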