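import Pool.Agent.H68.KR.CB4
import Pool.Agent.H68.KR.T2

/-!
# KR CB5: a curve of poles

Proof of `exists_pole_curve` (`A / B` with `B (0, ·) ≠ 0`, no extension at `0`; `U` a neighbourhood of `0`).
Let `r > 0` with `ball 0 r ⊆ U` and `A, B` analytic on `ball 0 r`; `0 < ρ < r` with `B (0, y) ≠ 0` for `0 < |y| ≤ ρ`;
`0 < δ < r` with `B (x, y) ≠ 0` for `|x| < δ, |y| = ρ` (compactness).  For `|x| < δ` the function `B (x, ·)` is analytic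
on `|y| < r`, not `0` on the circle `|y| = ρ`, so it does not vanish identically near any `y`, `|y| < r`.
Let `Bad = {(x, y) | |x| < δ, |y| < ρ, ¬ LD A B x y}` and for `(x, y) ∈ Bad` let `k (x, y)` be the order of
`exists_order`.  `Bad` is not empty: otherwise `extend_of_slices` with `ρ₀ = ρ` applies.  Let `k` be the minimum of the
orders over `Bad`, attained at `(x₁, y₁)`: `dy^[i] B (x₁, y₁) = 0` for `i < k`, `dy^[k] B (x₁, y₁) ≠ 0`, and for every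
`(x, y) ∈ Bad`: `dy^[i] B (x, y) = 0` for all `i < k`.  `k ≥ 1`: if `k = 0` then `ld_of_vanish` with `k = 0` says
`LD A B x₁ y₁`.
Let `G = dy^[k-1] B`, `G (x₁, y₁) = 0`, `dy G (x₁, y₁) = dy^[k] B (x₁, y₁) ≠ 0`: `exists_implicit` gives `c₁`.
Put `c x = c₁ (x₁ + x)`.
Claim: for `x` near `0`, `x ≠ 0`: `(x₁ + x, c x) ∈ Bad`.  The pair `A (x₁ + ·, y₁ + ·), B (x₁ + ·, y₁ + ·)` has no
extension at `0` (otherwise `LD A B x₁ y₁`, `q z = Φ (0, z - y₁)`), so by `extend_of_slices` (contrapositive) for every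
`ρ' > 0` and all `x ≠ 0` near `0` there is `y` with `|y - y₁| < ρ'` and `¬ LD A B (x₁ + x) y` (translate `LD`).  With
`ρ'` and `x` so small that `|x₁ + x| < δ`, `|y| < ρ` and that the point is in the neighbourhood of `exists_implicit`:
`(x₁ + x, y) ∈ Bad`, `G (x₁ + x, y) = 0`, `y = c₁ (x₁ + x) = c x`.
The conclusions: `(x₁, c 0) = (x₁, y₁) ∈ U`; for `i < k`: `dy^[i] B (x₁ + x, c x) = 0` for `x ≠ 0` near `0` (and for
`x = 0`); `dy^[k] B (x₁, c 0) ≠ 0`; if for all `i < k` `dy^[i] A (x₁ + x, c x) = 0` for `x` near `0`, then take one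
`x ≠ 0` near `0` for which all hold and `dy^[k] B (x₁ + x, c x) ≠ 0`: `ld_of_vanish` contradicts `Bad`.

Proof of `exists_curve`.  `m` from `exists_direction`.  `A' (x, y) = A (x + m y, y)`, `B'` similarly; no extension
`Φ'` at `0` (otherwise `Φ (x, y) = Φ' (x - m y, y)`).  Apply `exists_pole_curve` to `A', B'` and the preimage of `U`.
For `θ = shear m x₁ c` and `f' (x, y) = f (x + m y, y)`: `f (θ u) = f' (x₁ + u.1, c u.1 + u.2)`, and for `x` near `0`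
`dy^[i] (f ∘ θ) (x, 0) = (dy^[i] f') (x₁ + x, c x)` (`iterate_dy_slice` for both sides, `iteratedDeriv_comp_const_add`;
the hypothesis of `iterate_dy_slice` holds at `(x, 0)` and `(x₁ + x, c x)` for `x` near `0`).
The `i`-th coefficient of `t2 (f ∘ θ)` is `C (1/i!) * t1 (fun x => dy^[i] (f ∘ θ) (x, 0))`, `0` iff the function is `0`
near `0` (`t1_congr`, `t1_eq_zero_iff`).  So `t2 (B ∘ θ)` has order `k` and `t2 (A ∘ θ)` has a non-zero coefficient of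
index `< k` (`PowerSeries.order_eq_nat`, `PowerSeries.order_le`).
-/

set_option autoImplicit false

open Topology Filter Metric

noncomputable section

namespace Pool.Agent.H68.KR

theorem analyticAt_shift (x₁ y₁ : ℂ) (p : ℂ × ℂ) :
    AnalyticAt ℂ (fun u : ℂ × ℂ => ((x₁ + u.1, y₁ + u.2) : ℂ × ℂ)) p :=
  AnalyticAt.prod (analyticAt_const.add analyticAt_fst) (analyticAt_const.add analyticAt_snd)

theorem ld_shift_of {A B : ℂ × ℂ → ℂ} {x₁ y₁ x y : ℂ}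
    (h : LD A B (x₁ + x) (y₁ + y)) :
    LD (fun u => A (x₁ + u.1, y₁ + u.2)) (fun u => B (x₁ + u.1, y₁ + u.2)) x y := by
  obtain ⟨q, hq, he⟩ := h
  refine ⟨fun z => q (y₁ + z), ?_, ?_⟩
  · have h1 : AnalyticAt ℂ q ((fun z => y₁ + z) y) := hq
    exact AnalyticAt.fun_comp h1 (by fun_prop)
  · have hc : ContinuousAt (fun z : ℂ => y₁ + z) y := by fun_prop
    have ht : Tendsto (fun z : ℂ => y₁ + z) (𝓝 y) (𝓝 (y₁ + y)) := hc
    filter_upwards [ht.eventually he] with z hz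
    simpa using hz

theorem ld_of_ext {A B Φ : ℂ × ℂ → ℂ} {x₁ y₁ : ℂ} (hΦ : AnalyticAt ℂ Φ 0)
    (h : ∀ᶠ u in 𝓝 (0 : ℂ × ℂ), A (x₁ + u.1, y₁ + u.2) = B (x₁ + u.1, y₁ + u.2) * Φ u) :
    LD A B x₁ y₁ := by
  refine ⟨fun z => Φ (0, z - y₁), ?_, ?_⟩
  · have h1 : AnalyticAt ℂ Φ ((fun z : ℂ => ((0 : ℂ), z - y₁)) y₁) := by
      simpa [Prod.zero_eq_mk] using hΦ
    exact AnalyticAt.fun_comp h1 (by fun_prop)
  · have hc : ContinuousAt (fun z : ℂ => ((0 : ℂ), z - y₁)) y₁ := by fun_prop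
    have ht : Tendsto (fun z : ℂ => ((0 : ℂ), z - y₁)) (𝓝 y₁) (𝓝 0) := by
      have h2 := hc.tendsto
      simpa [Prod.zero_eq_mk] using h2
    filter_upwards [ht.eventually h] with z hz
    simpa using hz

theorem eventually_of_punctured {P : ℂ → Prop} (h : ∀ᶠ x in 𝓝[≠] (0 : ℂ), P x) (h0 : P 0) :
    ∀ᶠ x in 𝓝 (0 : ℂ), P x := by
  rw [eventually_nhdsWithin_iff] at h
  filter_upwards [h] with x hx
  by_cases hx0 : x = 0
  · rw [hx0]; exact h0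
  · exact hx hx0

/-- The point of minimal order and the implicit function. -/
theorem exists_min {A B : ℂ × ℂ → ℂ} (hA : AnalyticAt ℂ A 0) (hB : AnalyticAt ℂ B 0)
    (hB0 : ¬ ∀ᶠ y in 𝓝 (0 : ℂ), B (0, y) = 0)
    (hne : ¬ ∃ Φ : ℂ × ℂ → ℂ, AnalyticAt ℂ Φ 0 ∧ ∀ᶠ u in 𝓝 (0 : ℂ × ℂ), A u = B u * Φ u)
    {U : Set (ℂ × ℂ)} (hU : U ∈ 𝓝 (0 : ℂ × ℂ)) :
    ∃ (V : Set (ℂ × ℂ)) (k : ℕ) (x₁ y₁ : ℂ), IsOpen V ∧ ((x₁, y₁) : ℂ × ℂ) ∈ V ∧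
      (∀ u ∈ V, AnalyticAt ℂ A u ∧ AnalyticAt ℂ B u ∧ u ∈ U) ∧
      (∀ x y : ℂ, (x, y) ∈ V → ¬ LD A B x y → ∀ i < k, (dy^[i] B) (x, y) = 0) ∧
      ¬ LD A B x₁ y₁ ∧ (dy^[k] B) (x₁, y₁) ≠ 0 ∧ 0 < k ∧
      ¬ ∀ᶠ z in 𝓝 y₁, B (x₁, z) = 0 := by
  obtain ⟨r, hr0, hr⟩ : ∃ r > 0, ∀ u ∈ ball (0 : ℂ × ℂ) r, AnalyticAt ℂ A u ∧ AnalyticAt ℂ B u ∧ u ∈ U := by
    have h := (hA.eventually_analyticAt.and hB.eventually_analyticAt).and hU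
    obtain ⟨r, hr0, hr⟩ := Metric.eventually_nhds_iff_ball.1 h
    exact ⟨r, hr0, fun u hu => ⟨(hr u hu).1.1, (hr u hu).1.2, (hr u hu).2⟩⟩
  have hrr : ∀ x y : ℂ, ‖x‖ < r → ‖y‖ < r → ((x, y) : ℂ × ℂ) ∈ ball (0 : ℂ × ℂ) r := by
    intro x y hx hy
    rw [mem_ball_zero_iff, Prod.norm_def]
    exact max_lt hx hy
  have hb0 : AnalyticAt ℂ (fun y : ℂ => B (0, y)) 0 := by
    have h1 : AnalyticAt ℂ B ((fun y : ℂ => ((0 : ℂ), y)) 0) := by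
      simpa [Prod.zero_eq_mk] using hB
    exact AnalyticAt.fun_comp h1 (by fun_prop)
  obtain ⟨ε, hε0, hε⟩ : ∃ ε > 0, ∀ y : ℂ, ‖y‖ < ε → y ≠ 0 → B (0, y) ≠ 0 := by
    rcases hb0.eventually_eq_zero_or_eventually_ne_zero with h | h
    · exact absurd h hB0
    · rw [eventually_nhdsWithin_iff, Metric.eventually_nhds_iff_ball] at h
      obtain ⟨ε, hε0, hε⟩ := h
      exact ⟨ε, hε0, fun y hy hy0 => hε y (mem_ball_zero_iff.2 hy) hy0⟩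
  set ρ : ℝ := min ε r / 2 with hρdef
  have hm0 : 0 < min ε r := lt_min hε0 hr0
  have hρ0 : 0 < ρ := by positivity
  have hρε : ρ < ε := lt_of_lt_of_le (by rw [hρdef]; linarith) (min_le_left ε r)
  have hρr : ρ < r := lt_of_lt_of_le (by rw [hρdef]; linarith) (min_le_right ε r)
  obtain ⟨δ₀, hδ0, hδ⟩ : ∃ δ₀ > 0, ∀ x : ℂ, ‖x‖ < δ₀ → ∀ y ∈ sphere (0 : ℂ) ρ, B (x, y) ≠ 0 := by
    have h := (isCompact_sphere (0 : ℂ) ρ).eventually_forall_of_forall_eventually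
      (x₀ := (0 : ℂ)) (P := fun x y => B (x, y) ≠ 0) (by
        intro y hy
        have hy' : ‖y‖ = ρ := by simpa using hy
        have hne0 : y ≠ 0 := by
          rintro rfl
          rw [norm_zero] at hy'
          linarith
        have h1 : B (0, y) ≠ 0 := hε y (by rw [hy']; exact hρε) hne0
        have h2 : AnalyticAt ℂ B (0, y) := (hr _ (hrr 0 y (by simpa using hr0) (by rw [hy']; exact hρr))).2.1
        have h3 : ∀ᶠ z in 𝓝 ((0, y) : ℂ × ℂ), B z ≠ 0 := h2.continuousAt.eventually_ne h1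
        filter_upwards [h3] with z hz
        exact hz)
    rw [Metric.eventually_nhds_iff_ball] at h
    obtain ⟨δ₀, hδ0, hδ⟩ := h
    exact ⟨δ₀, hδ0, fun x hx => hδ x (mem_ball_zero_iff.2 hx)⟩
  set δ : ℝ := min δ₀ r with hδdef
  have hδp : 0 < δ := lt_min hδ0 hr0
  have hδr : δ ≤ r := min_le_right _ _
  have hδδ : δ ≤ δ₀ := min_le_left _ _
  have hnz : ∀ x y : ℂ, ‖x‖ < δ → ‖y‖ < r → ¬ ∀ᶠ z in 𝓝 y, B (x, z) = 0 := by
    intro x y hx hy h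
    have han : AnalyticOnNhd ℂ (fun z : ℂ => B (x, z)) (ball (0 : ℂ) r) := by
      intro z hz
      have h1 : AnalyticAt ℂ B ((fun z : ℂ => (x, z)) z) :=
        (hr _ (hrr x z (lt_of_lt_of_le hx hδr) (mem_ball_zero_iff.1 hz))).2.1
      exact AnalyticAt.fun_comp h1 (by fun_prop)
    have h2 := han.eqOn_zero_of_preconnected_of_eventuallyEq_zero
      (convex_ball (0 : ℂ) r).isPreconnected (mem_ball_zero_iff.2 hy) h
    have hρn : ‖(ρ : ℂ)‖ = ρ := by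
      rw [Complex.norm_real, Real.norm_of_nonneg hρ0.le]
    have h3 := h2 (x := (ρ : ℂ)) (mem_ball_zero_iff.2 (by rw [hρn]; exact hρr))
    exact hδ x (lt_of_lt_of_le hx hδδ) (ρ : ℂ) (by simp [hρ0.le]) h3
  have hex : ∃ x y : ℂ, ‖x‖ < δ ∧ ‖y‖ < ρ ∧ ¬ LD A B x y := by
    by_contra hcon
    push Not at hcon
    apply hne
    apply extend_of_slices hA hB hB0 hρ0
    apply Eventually.frequently
    rw [eventually_nhdsWithin_iff, Metric.eventually_nhds_iff_ball]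
    exact ⟨δ, hδp, fun x hx _ y hy => hcon x y (mem_ball_zero_iff.1 hx) (mem_ball_zero_iff.1 hy)⟩
  have hord : ∀ x y : ℂ, ‖x‖ < δ → ‖y‖ < ρ →
      ∃ k : ℕ, (∀ i < k, (dy^[i] B) (x, y) = 0) ∧ (dy^[k] B) (x, y) ≠ 0 := by
    intro x y hx hy
    exact exists_order (hr _ (hrr x y (lt_of_lt_of_le hx hδr) (hy.trans hρr))).2.1
      (hnz x y hx (hy.trans hρr))
  have hK : ∃ k : ℕ, ∃ x y : ℂ, ‖x‖ < δ ∧ ‖y‖ < ρ ∧ ¬ LD A B x y ∧
      (∀ i < k, (dy^[i] B) (x, y) = 0) ∧ (dy^[k] B) (x, y) ≠ 0 := by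
    obtain ⟨x, y, hx, hy, hL⟩ := hex
    obtain ⟨k, hk⟩ := hord x y hx hy
    exact ⟨k, x, y, hx, hy, hL, hk⟩
  classical
  set k := Nat.find hK with hkdef
  obtain ⟨x₁, y₁, hx₁, hy₁, hL₁, hk1, hk2⟩ := Nat.find_spec hK
  rw [← hkdef] at hk1 hk2
  have hmin : ∀ x y : ℂ, ‖x‖ < δ → ‖y‖ < ρ → ¬ LD A B x y → ∀ i < k, (dy^[i] B) (x, y) = 0 := by
    intro x y hx hy hL i hi
    obtain ⟨j, hj1, hj2⟩ := hord x y hx hy
    have hkj : k ≤ j := Nat.find_min' hK ⟨x, y, hx, hy, hL, hj1, hj2⟩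
    exact hj1 i (lt_of_lt_of_le hi hkj)
  have hpt := hr _ (hrr x₁ y₁ (lt_of_lt_of_le hx₁ hδr) (hy₁.trans hρr))
  refine ⟨ball (0 : ℂ) δ ×ˢ ball (0 : ℂ) ρ, k, x₁, y₁, isOpen_ball.prod isOpen_ball, ?_, ?_, ?_,
    hL₁, hk2, ?_, hnz x₁ y₁ hx₁ (hy₁.trans hρr)⟩
  · exact ⟨mem_ball_zero_iff.2 hx₁, mem_ball_zero_iff.2 hy₁⟩
  · intro u hu
    exact hr _ (hrr u.1 u.2 (lt_of_lt_of_le (mem_ball_zero_iff.1 hu.1) hδr)
      ((mem_ball_zero_iff.1 hu.2).trans hρr))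
  · intro x y hxy hL
    exact hmin x y (mem_ball_zero_iff.1 hxy.1) (mem_ball_zero_iff.1 hxy.2) hL
  · by_contra h0
    have hk0 : k = 0 := by omega
    apply hL₁
    apply ld_of_vanish hpt.1 hpt.2.1 (k := k)
    · intro i hi
      omega
    · exact hk1
    · exact hk2

theorem exists_pole_curve {A B : ℂ × ℂ → ℂ} (hA : AnalyticAt ℂ A 0) (hB : AnalyticAt ℂ B 0)
    (hB0 : ¬ ∀ᶠ y in 𝓝 (0 : ℂ), B (0, y) = 0)
    (hne : ¬ ∃ Φ : ℂ × ℂ → ℂ, AnalyticAt ℂ Φ 0 ∧ ∀ᶠ u in 𝓝 (0 : ℂ × ℂ), A u = B u * Φ u)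
    {U : Set (ℂ × ℂ)} (hU : U ∈ 𝓝 (0 : ℂ × ℂ)) :
    ∃ (x₁ : ℂ) (c : ℂ → ℂ) (k : ℕ), AnalyticAt ℂ c 0 ∧ ((x₁, c 0) : ℂ × ℂ) ∈ U ∧
      AnalyticAt ℂ A (x₁, c 0) ∧ AnalyticAt ℂ B (x₁, c 0) ∧
      (∀ i < k, ∀ᶠ x in 𝓝 (0 : ℂ), (dy^[i] B) (x₁ + x, c x) = 0) ∧ (dy^[k] B) (x₁, c 0) ≠ 0 ∧
      ∃ i < k, ¬ ∀ᶠ x in 𝓝 (0 : ℂ), (dy^[i] A) (x₁ + x, c x) = 0 := by
  obtain ⟨V, k, x₁, y₁, hVo, hV1, hV, hmin, hL₁, hk2, hk0, hnz⟩ := exists_min hA hB hB0 hne hU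
  obtain ⟨n, rfl⟩ : ∃ n, k = n + 1 := ⟨k - 1, by omega⟩
  have hA1 : AnalyticAt ℂ A (x₁, y₁) := (hV _ hV1).1
  have hB1 : AnalyticAt ℂ B (x₁, y₁) := (hV _ hV1).2.1
  have hG : AnalyticAt ℂ (dy^[n] B) (x₁, y₁) := analyticAt_iterate_dy hB1 n
  have hk1 := hmin x₁ y₁ hV1 hL₁
  have hG1 : dy (dy^[n] B) (x₁, y₁) ≠ 0 := by
    rw [Function.iterate_succ_apply'] at hk2
    exact hk2
  obtain ⟨c₁, hc₁, hc₁0, hc₁e⟩ := exists_implicit hG (hk1 n (Nat.lt_succ_self n)) hG1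
  have hc : AnalyticAt ℂ (fun x : ℂ => c₁ (x₁ + x)) 0 := by
    have h1 : AnalyticAt ℂ c₁ ((fun x : ℂ => x₁ + x) 0) := by simpa using hc₁
    exact AnalyticAt.fun_comp h1 (by fun_prop)
  have hc0 : (fun x : ℂ => c₁ (x₁ + x)) 0 = y₁ := by simpa using hc₁0
  have hA2 : AnalyticAt ℂ (fun u : ℂ × ℂ => A (x₁ + u.1, y₁ + u.2)) 0 := by
    have h1 : AnalyticAt ℂ A ((fun u : ℂ × ℂ => (x₁ + u.1, y₁ + u.2)) 0) := by simpa using hA1
    exact AnalyticAt.fun_comp h1 (analyticAt_shift x₁ y₁ 0)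
  have hB2 : AnalyticAt ℂ (fun u : ℂ × ℂ => B (x₁ + u.1, y₁ + u.2)) 0 := by
    have h1 : AnalyticAt ℂ B ((fun u : ℂ × ℂ => (x₁ + u.1, y₁ + u.2)) 0) := by simpa using hB1
    exact AnalyticAt.fun_comp h1 (analyticAt_shift x₁ y₁ 0)
  have hB3 : ¬ ∀ᶠ y in 𝓝 (0 : ℂ), (fun u : ℂ × ℂ => B (x₁ + u.1, y₁ + u.2)) (0, y) = 0 := by
    intro h
    apply hnz
    have hcs : ContinuousAt (fun z : ℂ => z - y₁) y₁ := by fun_prop
    have ht : Tendsto (fun z : ℂ => z - y₁) (𝓝 y₁) (𝓝 0) := by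
      have h2 := hcs.tendsto
      simpa using h2
    filter_upwards [ht.eventually h] with z hz
    simpa using hz
  have hne2 : ¬ ∃ Φ : ℂ × ℂ → ℂ, AnalyticAt ℂ Φ 0 ∧ ∀ᶠ u in 𝓝 (0 : ℂ × ℂ),
      (fun u : ℂ × ℂ => A (x₁ + u.1, y₁ + u.2)) u = (fun u : ℂ × ℂ => B (x₁ + u.1, y₁ + u.2)) u * Φ u := by
    rintro ⟨Φ, hΦ, he⟩
    exact hL₁ (ld_of_ext hΦ he)
  obtain ⟨ε, hε0, hε⟩ : ∃ ε > 0, ∀ u ∈ ball ((x₁, y₁) : ℂ × ℂ) ε,
      u ∈ V ∧ ((dy^[n] B) u = 0 → u.2 = c₁ u.1) := by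
    have h := (hVo.mem_nhds hV1 : V ∈ 𝓝 ((x₁, y₁) : ℂ × ℂ))
    have h2 : ∀ᶠ u in 𝓝 ((x₁, y₁) : ℂ × ℂ), u ∈ V ∧ ((dy^[n] B) u = 0 → u.2 = c₁ u.1) :=
      Filter.Eventually.and h hc₁e
    exact Metric.eventually_nhds_iff_ball.1 h2
  have hbad : ∀ᶠ x in 𝓝[≠] (0 : ℂ), ((x₁ + x, c₁ (x₁ + x)) : ℂ × ℂ) ∈ V ∧
      ¬ LD A B (x₁ + x) (c₁ (x₁ + x)) := by
    have h1 : ¬ ∃ᶠ x in 𝓝[≠] (0 : ℂ), ∀ y ∈ ball (0 : ℂ) ε,
        LD (fun u : ℂ × ℂ => A (x₁ + u.1, y₁ + u.2)) (fun u : ℂ × ℂ => B (x₁ + u.1, y₁ + u.2)) x y := by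
      intro h
      exact hne2 (extend_of_slices hA2 hB2 hB3 hε0 h)
    rw [Filter.not_frequently] at h1
    have h2 : ∀ᶠ x in 𝓝[≠] (0 : ℂ), x ∈ ball (0 : ℂ) ε :=
      mem_nhdsWithin_of_mem_nhds (ball_mem_nhds 0 hε0)
    filter_upwards [h1, h2] with x hx hxε
    push Not at hx
    obtain ⟨y, hy, hLy⟩ := hx
    have hmem : ((x₁ + x, y₁ + y) : ℂ × ℂ) ∈ ball ((x₁, y₁) : ℂ × ℂ) ε := by
      rw [mem_ball, Prod.dist_eq]
      simp only [dist_eq_norm, add_sub_cancel_left]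
      exact max_lt (mem_ball_zero_iff.1 hxε) (mem_ball_zero_iff.1 hy)
    obtain ⟨hv, himp⟩ := hε _ hmem
    have hLD : ¬ LD A B (x₁ + x) (y₁ + y) := fun h => hLy (ld_shift_of h)
    have hG0 := hmin _ _ hv hLD n (Nat.lt_succ_self n)
    have hy2 : y₁ + y = c₁ (x₁ + x) := himp hG0
    rw [← hy2]
    exact ⟨hv, hLD⟩
  refine ⟨x₁, fun x => c₁ (x₁ + x), n + 1, hc, ?_, ?_, ?_, ?_, ?_, ?_⟩
  · rw [hc0]; exact (hV _ hV1).2.2
  · rw [hc0]; exact hA1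
  · rw [hc0]; exact hB1
  · intro i hi
    apply eventually_of_punctured
    · filter_upwards [hbad] with x hx
      exact hmin _ _ hx.1 hx.2 i hi
    · rw [add_zero, hc0]
      exact hk1 i hi
  · rw [hc0]; exact hk2
  · by_contra hcon
    push Not at hcon
    have h1 : ∀ᶠ x in 𝓝 (0 : ℂ), ∀ i ∈ Finset.range (n + 1), (dy^[i] A) (x₁ + x, c₁ (x₁ + x)) = 0 := by
      rw [Filter.eventually_all_finset]
      intro i hi
      exact hcon i (Finset.mem_range.1 hi)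
    have h2 : ∀ᶠ x in 𝓝 (0 : ℂ), (dy^[n + 1] B) (x₁ + x, c₁ (x₁ + x)) ≠ 0 := by
      have h3 : AnalyticAt ℂ (dy^[n + 1] B) ((fun x : ℂ => (x₁ + x, c₁ (x₁ + x))) 0) := by
        have h4 : ((fun x : ℂ => (x₁ + x, c₁ (x₁ + x))) 0 : ℂ × ℂ) = (x₁, y₁) := by
          simp [hc₁0]
        rw [h4]
        exact analyticAt_iterate_dy hB1 (n + 1)
      have h5 : AnalyticAt ℂ (fun x : ℂ => ((x₁ + x, c₁ (x₁ + x)) : ℂ × ℂ)) 0 :=
        AnalyticAt.prod (by fun_prop) hc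
      have h6 : AnalyticAt ℂ (fun x : ℂ => (dy^[n + 1] B) ((fun x : ℂ => (x₁ + x, c₁ (x₁ + x))) x)) 0 :=
        AnalyticAt.fun_comp (f := fun x : ℂ => ((x₁ + x, c₁ (x₁ + x)) : ℂ × ℂ)) h3 h5
      exact h6.continuousAt.eventually_ne (by simpa [hc₁0] using hk2)
    have h3 : ∀ᶠ x in 𝓝[≠] (0 : ℂ), False := by
      filter_upwards [hbad, nhdsWithin_le_nhds h1, nhdsWithin_le_nhds h2] with x hx1 hx2 hx3
      apply hx1.2
      apply ld_of_vanish (hV _ hx1.1).1 (hV _ hx1.1).2.1 (k := n + 1)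
      · intro i hi
        exact hx2 i (Finset.mem_range.2 hi)
      · intro i hi
        exact hmin _ _ hx1.1 hx1.2 i hi
      · exact hx3
    simpa using h3.exists

/-- The coordinate change `(x, y) ↦ (x₁ + x + m (c x + y), c x + y)`. -/
def shear (m x₁ : ℂ) (c : ℂ → ℂ) (u : ℂ × ℂ) : ℂ × ℂ :=
  (x₁ + u.1 + m * (c u.1 + u.2), c u.1 + u.2)

theorem iterate_dy_shift {f : ℂ × ℂ → ℂ} {c : ℂ → ℂ} {x₁ : ℂ} (hc : AnalyticAt ℂ c 0)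
    (hf : AnalyticAt ℂ f (x₁, c 0)) (i : ℕ) :
    AnalyticAt ℂ (fun u : ℂ × ℂ => f (x₁ + u.1, c u.1 + u.2)) 0 ∧
    ∀ᶠ x in 𝓝 (0 : ℂ), (dy^[i] fun u : ℂ × ℂ => f (x₁ + u.1, c u.1 + u.2)) (x, 0) =
      (dy^[i] f) (x₁ + x, c x) := by
  have hσ : AnalyticAt ℂ (fun u : ℂ × ℂ => ((x₁ + u.1, c u.1 + u.2) : ℂ × ℂ)) 0 := by
    have h1 : AnalyticAt ℂ (fun u : ℂ × ℂ => c u.1) 0 :=
      AnalyticAt.fun_comp (f := fun u : ℂ × ℂ => u.1) hc analyticAt_fst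
    exact AnalyticAt.prod (analyticAt_const.add analyticAt_fst) (h1.add analyticAt_snd)
  have hfσ : AnalyticAt ℂ (fun u : ℂ × ℂ => f (x₁ + u.1, c u.1 + u.2)) 0 :=
    AnalyticAt.fun_comp (f := fun u : ℂ × ℂ => ((x₁ + u.1, c u.1 + u.2) : ℂ × ℂ))
      (by simpa using hf) hσ
  refine ⟨hfσ, ?_⟩
  have ht1 : Tendsto (fun x : ℂ => ((x, 0) : ℂ × ℂ)) (𝓝 0) (𝓝 0) := by
    have h1 : ContinuousAt (fun x : ℂ => ((x, 0) : ℂ × ℂ)) 0 := by fun_prop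
    simpa [Prod.zero_eq_mk] using h1.tendsto
  have ht2 : Tendsto (fun x : ℂ => ((x₁ + x, c x) : ℂ × ℂ)) (𝓝 0) (𝓝 (x₁, c 0)) := by
    have h0 : ContinuousAt c 0 := hc.continuousAt
    have h1 : ContinuousAt (fun x : ℂ => ((x₁ + x, c x) : ℂ × ℂ)) 0 := by fun_prop
    simpa using h1.tendsto
  filter_upwards [ht1.eventually hfσ.eventually_analyticAt, ht2.eventually hf.eventually_analyticAt]
    with x hx1 hx2
  rw [iterate_dy_slice hx1 i, iterate_dy_slice hx2 i]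
  have h3 := congrFun (iteratedDeriv_comp_const_add i (fun y : ℂ => f (x₁ + x, y)) (c x)) 0
  rw [add_zero] at h3
  exact h3

theorem coeff_t2_iff {g : ℂ × ℂ → ℂ} (hg : AnalyticAt ℂ g 0) (i : ℕ) :
    PowerSeries.coeff i (t2 g) = 0 ↔ ∀ᶠ x in 𝓝 (0 : ℂ), (dy^[i] g) (x, 0) = 0 := by
  have h1 : AnalyticAt ℂ (fun x : ℂ => (dy^[i] g) (x, 0)) 0 :=
    AnalyticAt.fun_comp (f := fun x : ℂ => ((x, 0) : ℂ × ℂ))
      (by simpa [Prod.zero_eq_mk] using analyticAt_iterate_dy hg i)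
      (AnalyticAt.prod analyticAt_id analyticAt_const)
  rw [← t1_eq_zero_iff h1, t2, PowerSeries.coeff_mk, mul_eq_zero]
  constructor
  · rintro (h | h)
    · exfalso
      have h2 := congrArg PowerSeries.constantCoeff h
      rw [PowerSeries.constantCoeff_C, map_zero, inv_eq_zero, Nat.cast_eq_zero] at h2
      exact Nat.factorial_ne_zero i h2
    · exact h
  · exact Or.inr

theorem coeff_shear_iff {f : ℂ × ℂ → ℂ} {c : ℂ → ℂ} (m x₁ : ℂ) (hc : AnalyticAt ℂ c 0)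
    (hf : AnalyticAt ℂ (fun u : ℂ × ℂ => f (u.1 + m * u.2, u.2)) (x₁, c 0)) (i : ℕ) :
    PowerSeries.coeff i (t2 fun u => f (shear m x₁ c u)) = 0 ↔
      ∀ᶠ x in 𝓝 (0 : ℂ), (dy^[i] fun u : ℂ × ℂ => f (u.1 + m * u.2, u.2)) (x₁ + x, c x) = 0 := by
  obtain ⟨h1, h2⟩ := iterate_dy_shift (f := fun u : ℂ × ℂ => f (u.1 + m * u.2, u.2)) hc hf i
  have h3 : (fun u => f (shear m x₁ c u)) = fun u : ℂ × ℂ =>
      (fun u : ℂ × ℂ => f (u.1 + m * u.2, u.2)) (x₁ + u.1, c u.1 + u.2) := rfl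
  rw [h3, coeff_t2_iff h1 i]
  exact Filter.eventually_congr (h2.mono fun x hx => by rw [hx])

/-- If `A / B` has no analytic extension at `0`, there are coordinates near a point close to `0` in which `B` is
divisible by a higher power of the second coordinate than `A`. -/
theorem exists_curve {A B : ℂ × ℂ → ℂ} (hA : AnalyticAt ℂ A 0) (hB : AnalyticAt ℂ B 0)
    (hB0 : ¬ ∀ᶠ u in 𝓝 (0 : ℂ × ℂ), B u = 0)
    (hne : ¬ ∃ Φ : ℂ × ℂ → ℂ, AnalyticAt ℂ Φ 0 ∧ ∀ᶠ u in 𝓝 (0 : ℂ × ℂ), A u = B u * Φ u)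
    {U : Set (ℂ × ℂ)} (hU : U ∈ 𝓝 (0 : ℂ × ℂ)) :
    ∃ (m x₁ : ℂ) (c : ℂ → ℂ) (j k : ℕ), AnalyticAt ℂ c 0 ∧ shear m x₁ c 0 ∈ U ∧
      (t2 fun u => A (shear m x₁ c u)).order = j ∧ (t2 fun u => B (shear m x₁ c u)).order = k ∧
      j < k := by
  obtain ⟨m, hm⟩ := exists_direction hB hB0
  have hτ : ∀ p : ℂ × ℂ, AnalyticAt ℂ (fun u : ℂ × ℂ => ((u.1 + m * u.2, u.2) : ℂ × ℂ)) p := fun p =>
    AnalyticAt.prod (analyticAt_fst.add (analyticAt_const.mul analyticAt_snd)) analyticAt_snd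
  have hτ' : ∀ p : ℂ × ℂ, AnalyticAt ℂ (fun u : ℂ × ℂ => ((u.1 - m * u.2, u.2) : ℂ × ℂ)) p := fun p =>
    AnalyticAt.prod (analyticAt_fst.sub (analyticAt_const.mul analyticAt_snd)) analyticAt_snd
  have hA' : AnalyticAt ℂ (fun u : ℂ × ℂ => A (u.1 + m * u.2, u.2)) 0 :=
    AnalyticAt.fun_comp (f := fun u : ℂ × ℂ => ((u.1 + m * u.2, u.2) : ℂ × ℂ))
      (by simpa [Prod.zero_eq_mk] using hA) (hτ 0)
  have hB' : AnalyticAt ℂ (fun u : ℂ × ℂ => B (u.1 + m * u.2, u.2)) 0 :=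
    AnalyticAt.fun_comp (f := fun u : ℂ × ℂ => ((u.1 + m * u.2, u.2) : ℂ × ℂ))
      (by simpa [Prod.zero_eq_mk] using hB) (hτ 0)
  have hB0' : ¬ ∀ᶠ y in 𝓝 (0 : ℂ), (fun u : ℂ × ℂ => B (u.1 + m * u.2, u.2)) (0, y) = 0 := by
    intro h
    apply hm
    filter_upwards [h] with y hy
    simpa using hy
  have hne' : ¬ ∃ Φ : ℂ × ℂ → ℂ, AnalyticAt ℂ Φ 0 ∧ ∀ᶠ u in 𝓝 (0 : ℂ × ℂ),
      (fun u : ℂ × ℂ => A (u.1 + m * u.2, u.2)) u = (fun u : ℂ × ℂ => B (u.1 + m * u.2, u.2)) u * Φ u := by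
    rintro ⟨Φ, hΦ, he⟩
    apply hne
    refine ⟨fun u => Φ (u.1 - m * u.2, u.2), ?_, ?_⟩
    · exact AnalyticAt.fun_comp (f := fun u : ℂ × ℂ => ((u.1 - m * u.2, u.2) : ℂ × ℂ))
        (by simpa [Prod.zero_eq_mk] using hΦ) (hτ' 0)
    · have ht : Tendsto (fun u : ℂ × ℂ => ((u.1 - m * u.2, u.2) : ℂ × ℂ)) (𝓝 0) (𝓝 0) := by
        have h2 := (hτ' 0).continuousAt.tendsto
        simpa [Prod.zero_eq_mk] using h2
      filter_upwards [ht.eventually he] with u hu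
      simpa using hu
  have hU' : (fun u : ℂ × ℂ => ((u.1 + m * u.2, u.2) : ℂ × ℂ)) ⁻¹' U ∈ 𝓝 (0 : ℂ × ℂ) := by
    apply (hτ 0).continuousAt.preimage_mem_nhds
    simpa [Prod.zero_eq_mk] using hU
  obtain ⟨x₁, c, k, hc, hmem, hA1, hB1, hv, hnv, i, hi, hiA⟩ := exists_pole_curve hA' hB' hB0' hne' hU'
  have hcoefA := coeff_shear_iff m x₁ hc hA1
  have hcoefB := coeff_shear_iff m x₁ hc hB1
  have hex : ∃ i, PowerSeries.coeff i (t2 fun u => A (shear m x₁ c u)) ≠ 0 :=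
    ⟨i, fun h => hiA ((hcoefA i).1 h)⟩
  classical
  refine ⟨m, x₁, c, Nat.find hex, k, hc, ?_, ?_, ?_, ?_⟩
  · have h : shear m x₁ c 0 = (x₁ + m * c 0, c 0) := by
      simp [shear]
    rw [h]
    exact hmem
  · rw [PowerSeries.order_eq_nat]
    refine ⟨Nat.find_spec hex, fun l hl => ?_⟩
    have := Nat.find_min hex hl
    push Not at this
    exact this
  · rw [PowerSeries.order_eq_nat]
    refine ⟨fun h => ?_, fun l hl => (hcoefB l).2 (hv l hl)⟩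
    have h2 := ((hcoefB k).1 h).self_of_nhds
    rw [add_zero] at h2
    exact hnv h2
  · exact lt_of_le_of_lt (Nat.find_min' hex fun h => hiA ((hcoefA i).1 h)) hi

end Pool.Agent.H68.KR
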