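import Pool.Agent.H23.Omega
import Pool.Agent.H23.Fano

/-!
# KR FT: top forms

Let `b` be the basis of `Ω[K⁄ℂ]` with `b i = d (a i)` (`Pool.Agent.H23.exists_basis_kaehler`).  `⋀[K]^2 Ω` is spanned by the
elements `ιMulti v` (`exteriorPower.ιMulti_span`), and `ιMulti v = b.det v • ιMulti b` for `v : Fin 2 → Ω` (two
alternating maps which agree on the basis, `Module.Basis.ext_alternating`; the right hand side is an alternating map of
`v`, e.g. `(b.det).smulRight`-like; or expand `v 0`, `v 1` in the basis by hand).  So every element is `W • ιMulti b`,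
which is `Form.mk W a` (unfold `Form`, `ExtPow`, `Form.mk`, `ExtPow.wedge`, `d`).
-/

set_option autoImplicit false

open Pool.Agent.H23.Fano (Form)

noncomputable section

namespace Pool.Agent.H68.KR

private theorem FT_ext_smul {K V : Type} [Field K] [AddCommGroup V] [Module K V] {n : ℕ}
    (b : Module.Basis (Fin n) K V) (v : Fin n → V) :
    exteriorPower.ιMulti K n v = b.det v • exteriorPower.ιMulti K n b := by
  have h : exteriorPower.ιMulti K n (M := V) =
      ((LinearMap.toSpanSingleton K (⋀[K]^n V) (exteriorPower.ιMulti K n b)).compAlternatingMap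
        b.det) := by
    refine Module.Basis.ext_alternating b fun i hi => ?_
    let σ : Equiv.Perm (Fin n) := Equiv.ofBijective i (Finite.injective_iff_bijective.1 hi)
    change exteriorPower.ιMulti K n (b ∘ σ) = _
    change _ = (LinearMap.toSpanSingleton K (⋀[K]^n V) (exteriorPower.ιMulti K n b))
      (b.det (b ∘ σ))
    rw [AlternatingMap.map_perm, AlternatingMap.map_perm, b.det_self,
      LinearMap.toSpanSingleton_apply]
    rcases Int.units_eq_one_or (Equiv.Perm.sign σ) with h1 | h1 <;> simp [h1]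
  have h2 := congrArg (fun f => f v) h
  simpa using h2

private theorem FT_exists_smul {K V : Type} [Field K] [AddCommGroup V] [Module K V] {n : ℕ}
    (b : Module.Basis (Fin n) K V) (ω : ⋀[K]^n V) :
    ∃ W : K, ω = W • exteriorPower.ιMulti K n b := by
  have h : ω ∈ Submodule.span K (Set.range (exteriorPower.ιMulti K n (M := V))) := by
    rw [exteriorPower.ιMulti_span]
    exact Submodule.mem_top
  induction h using Submodule.span_induction with
  | mem x hx =>
    obtain ⟨v, rfl⟩ := hx
    exact ⟨b.det v, FT_ext_smul b v⟩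
  | zero => exact ⟨0, by simp⟩
  | add x y hx hy h1 h2 =>
    obtain ⟨W1, h1⟩ := h1
    obtain ⟨W2, h2⟩ := h2
    exact ⟨W1 + W2, by rw [h1, h2, add_smul]⟩
  | smul c x hx h1 =>
    obtain ⟨W1, h1⟩ := h1
    exact ⟨c * W1, by rw [h1, mul_smul]⟩

private theorem FT_exists_form {K : Type} [Field K] [Algebra ℂ K] {a : Fin 2 → K}
    (b : Module.Basis (Fin 2) K Ω[K⁄ℂ]) (hb : ∀ i, b i = KaehlerDifferential.D ℂ K (a i))
    (ω : Form K 2) : ∃ W : K, ω = Form.mk W a := by
  obtain ⟨W, hW⟩ := FT_exists_smul b (show ⋀[K]^2 Ω[K⁄ℂ] from ω)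
  refine ⟨W, ?_⟩
  have h1 : (b : Fin 2 → Ω[K⁄ℂ]) = fun i => KaehlerDifferential.D ℂ K (a i) := funext hb
  rw [h1] at hW
  exact hW

theorem exists_form_mk {K : Type} [Field K] [Algebra ℂ K] {a : Fin 2 → K}
    (ha : IsTranscendenceBasis ℂ a) (ω : Form K 2) : ∃ W : K, ω = Form.mk W a := by
  obtain ⟨b, hb⟩ := Pool.Agent.H23.exists_basis_kaehler ha
  exact FT_exists_form b hb ω

end Pool.Agent.H68.KR
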