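import Pool.Agent.H68.KR.Ch
import Pool.Agent.H68.KR.HZ

/-!
# KR GL: gluing the local extensions to a form on the cone

`Ext M t₀ A B φ Φ p`: near `p` the function `Φ` is the analytic extension of
`A (φ) / B (φ) * D3 t₀ (φ, φ_x, φ_y) ^ M`.

* `Ext.unique`: `g = Φ - Φ'` is analytic and `eval (φ u) B * g u = 0` near `p`.  If `g p ≠ 0` then `g ≠ 0` near `p` and
  `eval (φ u) B = 0` near `p`.
* `Ext.comp`: near `p` (`κ u → κ p`): `eval (φ u) B = c^b eval (σ (κ u)) B` (homogeneous of degree `b`; scaling: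
  `MvPolynomial.IsHomogeneous` lemma or `eval₂_of_isHomogeneous` of file `HZ` may be imported),
  `D3_comp`: `D3 t₀ (φ …) = c^3 jac κ D3 t₀ (σ …) (κ u)`.  With `b = a + 3 M + 1`:
  `eval (φ u) B * (c⁻¹ jac^M Φ (κ u)) = c^(b-1) jac^M (eval (σκ) B Φ (κ u)) = c^(b-1) jac^M eval (σκ) A D3^M
   = c^(b - 1 - a - 3 M) eval (φ u) A * D3 t₀ (φ …) ^ M`.
* `exists_om`: for `x ∈ cone P` choose `t, σ` (`hsm`) and `Φ` (`hext`), and
  `Om x v w = Φ 0 * (D3 t x v w / x (t 0) ^ 3) ^ M` (`0` for `x ∉ cone P`).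
  Second clause: `C = Φ 0 / x (t 0) ^ (3 M)`.
  First clause: let `φ p = x`.  `CChart.param`: `φ = c • σ ∘ κ` near `p`, `κ p = 0`, `c p = 1`.  By `Ext.comp`
  `Φ'' u = (c u)⁻¹ * jac κ u ^ M * Φ_x (κ u)` is an extension for `φ`, so by `Ext.unique`
  `Φ p = Φ'' p = jac κ p ^ M * Φ_x 0`.  `D3_comp` (with `s = t`, at `u = p`) and `CChart.D3_eq` (at `0`):
  `D3 t x (d1 φ p) (d2 φ p) = jac κ p * x (t 0) ^ 3`.
* `isForm_om`.  `add_smul`, `det`: from the second clause and `D3_add_smul`, `D3_det`.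
  Claim (*): for `x ∈ cone P` with its chart `t, σ, Φ` (any `CChart` with an extension): for `u` near `0`:
  `Om (σ u) (d1 σ u) (d2 σ u) = Φ u`: the first clause at the points `p` near `0` (`Ext` holds at all nearby points:
  `eventually_eventually_nhds`, `AnalyticAt.eventually_analyticAt`; `nd_near` for the non-degeneracy; `mem_cone`).
  `scale` (`j = 1`, write `c * Om (c x) (c v) (c w) = Om x v w`): by `CChart.tan` `v = a d1 σ 0 + b d2 σ 0 + e x`,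
  `w = a' … + b' … + e' x`; by `add_smul` and `det` at `x` and at `c x` (where `c v = a (c d1 σ 0) + …`; note that
  the second clause gives these rules for all vectors) it is enough to compare
  `Om (c x) (c d1 σ 0) (c d2 σ 0)` and `c⁻¹ Om x (d1 σ 0) (d2 σ 0)`: the first clause for `φ = c • σ`, `p = 0` and its
  extension `c⁻¹ Φ` (`Ext.comp` with `κ = id`).  (`jac id = 1`.)
  `analytic`: let `φ` be analytic at `p` with values in `cone P`, `x = φ p`, chart `t, σ, Φ` at `x`, `φ = c • σ ∘ κ` near `p`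
  (`param`).  For `u` near `p` let `c = c u ≠ 0`, `y = σ (κ u) ∈ cone P`, `v₁ = d1 σ (κ u)`, `v₂ = d2 σ (κ u)` (tangent at `y` by
  `tan_d1`, `tan_d2`).  `d1_smul_comp`, `d2_smul_comp`: `d1 φ u = c_x y + c (a v₁ + b v₂)`, `d2 φ u = c_y y + c (a' v₁ + b' v₂)` with
  `a b' - b a' = jac κ u`.  By the second clause at the point `c y` of the cone the rules `add_smul` and `det` hold there
  for ALL vectors: `c_x y = (c_x / c) (c y)`, `c (a v₁ + b v₂) = a (c v₁) + b (c v₂)`, so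
  `Om (c y) (d1 φ u) (d2 φ u) = jac κ u ^ M * Om (c y) (c v₁) (c v₂) = jac κ u ^ M * (c u)⁻¹ * Om y v₁ v₂` (`scale`)
  `= jac κ u ^ M * (c u)⁻¹ * Φ (κ u)` by (*).  This is analytic in `u` at `p`.
-/

set_option autoImplicit false

open MvPolynomial Topology Filter
open Pool.Agent.H17BP (Tan IsForm)

noncomputable section

namespace Pool.Agent.H68.KR

variable {N : ℕ}

/-- `Φ` is, near `p`, the analytic extension of `A (φ) / B (φ) * D3 t₀ (φ, φ_x, φ_y) ^ M`. -/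
def Ext (M : ℕ) (t₀ : Fin 3 → Fin (N + 1)) (A B : MvPolynomial (Fin (N + 1)) ℂ)
    (φ : ℂ × ℂ → Fin (N + 1) → ℂ) (Φ : ℂ × ℂ → ℂ) (p : ℂ × ℂ) : Prop :=
  AnalyticAt ℂ Φ p ∧
    ∀ᶠ u in 𝓝 p, eval (φ u) B * Φ u = eval (φ u) A * D3 t₀ (φ u) (d1 φ u) (d2 φ u) ^ M

variable {M a : ℕ} {t₀ : Fin 3 → Fin (N + 1)} {A B : MvPolynomial (Fin (N + 1)) ℂ}

theorem Ext.unique {φ : ℂ × ℂ → Fin (N + 1) → ℂ} {Φ Φ' : ℂ × ℂ → ℂ} {p : ℂ × ℂ}
    (h : Ext M t₀ A B φ Φ p) (h' : Ext M t₀ A B φ Φ' p)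
    (hnd : ¬ ∀ᶠ u in 𝓝 p, eval (φ u) B = 0) : Φ p = Φ' p := by
  by_contra hne
  apply hnd
  have hg : ContinuousAt (fun u => Φ u - Φ' u) p := h.1.continuousAt.sub h'.1.continuousAt
  have hg0 : ∀ᶠ u in 𝓝 p, Φ u - Φ' u ≠ 0 := hg.eventually_ne (sub_ne_zero.2 hne)
  filter_upwards [hg0, h.2, h'.2] with u h1 h2 h3
  have h4 : eval (φ u) B * (Φ u - Φ' u) = 0 := by
    rw [mul_sub, h2, h3, sub_self]
  exact (mul_eq_zero.1 h4).resolve_right h1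

private theorem GL_eval_smul {n : ℕ} {Q : MvPolynomial (Fin (N + 1)) ℂ} (hQ : Q.IsHomogeneous n) (c : ℂ)
    (y : Fin (N + 1) → ℂ) : eval (c • y) Q = c ^ n * eval y Q :=
  eval₂_of_isHomogeneous (RingHom.id ℂ) hQ c y

theorem Ext.comp (hA : A.IsHomogeneous a) (hB : B.IsHomogeneous (a + 3 * M + 1))
    {φ σ : ℂ × ℂ → Fin (N + 1) → ℂ} {Φ c : ℂ × ℂ → ℂ} {κ : ℂ × ℂ → ℂ × ℂ} {p : ℂ × ℂ}
    (hc : AnalyticAt ℂ c p) (hc0 : c p ≠ 0) (hκ : AnalyticAt ℂ κ p) (hσ : AnalyticAt ℂ σ (κ p))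
    (h : Ext M t₀ A B σ Φ (κ p)) (hφ : ∀ᶠ u in 𝓝 p, φ u = c u • σ (κ u)) :
    Ext M t₀ A B φ (fun u => (c u)⁻¹ * jac κ u ^ M * Φ (κ u)) p := by
  refine ⟨((hc.inv hc0).mul ((analyticAt_jac hκ).pow M)).mul (h.1.comp hκ), ?_⟩
  have h2 : ∀ᶠ u in 𝓝 p, eval (σ (κ u)) B * Φ (κ u) =
      eval (σ (κ u)) A * D3 t₀ (σ (κ u)) (d1 σ (κ u)) (d2 σ (κ u)) ^ M :=
    hκ.continuousAt.eventually h.2
  filter_upwards [h2, hφ, D3_comp t₀ hc hκ hσ hφ, hc.continuousAt.eventually_ne hc0] with u e1 e2 e3 e4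
  rw [e3, e2, GL_eval_smul hB, GL_eval_smul hA]
  have e5 : c u ^ (a + 3 * M + 1) * eval (σ (κ u)) B * ((c u)⁻¹ * jac κ u ^ M * Φ (κ u)) =
      c u ^ (a + 3 * M) * jac κ u ^ M * (eval (σ (κ u)) B * Φ (κ u)) := by
    rw [pow_succ]
    field_simp
  rw [e5, e1, mul_pow, mul_pow, pow_add, pow_mul]
  ring

variable {P : Ideal (MvPolynomial (Fin (N + 1)) ℂ)}

theorem exists_om (hA : A.IsHomogeneous a) (hB : B.IsHomogeneous (a + 3 * M + 1))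
    (hsm : ∀ x ∈ cone P, ∃ t σ, CChart P x t σ)
    (hext : ∀ x t σ, CChart P x t σ → ∃ Φ, Ext M t₀ A B σ Φ 0) :
    ∃ Om : (Fin (N + 1) → ℂ) → (Fin (N + 1) → ℂ) → (Fin (N + 1) → ℂ) → ℂ,
      (∀ x ∈ cone P, ∀ (φ : ℂ × ℂ → Fin (N + 1) → ℂ) (p : ℂ × ℂ) (Φ : ℂ × ℂ → ℂ), AnalyticAt ℂ φ p →
        (∀ᶠ u in 𝓝 p, ∀ Q ∈ P, eval (φ u) Q = 0) → φ p = x → Ext M t₀ A B φ Φ p →
        (¬ ∀ᶠ u in 𝓝 p, eval (φ u) B = 0) → Om x (d1 φ p) (d2 φ p) = Φ p) ∧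
      ∀ x ∈ cone P, ∃ (t : Fin 3 → Fin (N + 1)) (C : ℂ), ∀ v w, Om x v w = C * D3 t x v w ^ M := by
  classical
  choose t σ hch using hsm
  choose Φx hΦx using fun (x : Fin (N + 1) → ℂ) (hx : x ∈ cone P) => hext x (t x hx) (σ x hx) (hch x hx)
  refine ⟨fun x v w => if hx : x ∈ cone P then Φx x hx 0 * (D3 (t x hx) x v w / x (t x hx 0) ^ 3) ^ M else 0,
    ?_, ?_⟩
  · intro x hx φ p Φ hφ hφP hφx hE hnd
    obtain ⟨κ, c, hκ, hc, hκ0, hc1, he⟩ := (hch x hx).param hφ hφx hφP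
    have hc0 : c p ≠ 0 := by
      rw [hc1]
      exact one_ne_zero
    have hσ : AnalyticAt ℂ (σ x hx) (κ p) := by
      rw [hκ0]
      exact (hch x hx).an
    have hE' : Ext M t₀ A B (σ x hx) (Φx x hx) (κ p) := by
      rw [hκ0]
      exact hΦx x hx
    have hcomp := Ext.comp hA hB hc hc0 hκ hσ hE' he
    have h1 := Ext.unique hE hcomp hnd
    have h1' : Φ p = (c p)⁻¹ * jac κ p ^ M * Φx x hx (κ p) := h1
    rw [hc1, hκ0, inv_one, one_mul] at h1'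
    have h2 := (D3_comp (t x hx) hc hκ hσ he).self_of_nhds
    have h3 := (hch x hx).D3_eq.self_of_nhds
    rw [hκ0, hc1, h3, one_pow, one_mul, hφx] at h2
    have h4 : x (t x hx 0) ≠ 0 := (hch x hx).ne
    simp only [hx, dif_pos]
    rw [h2, h1', mul_div_cancel_right₀ _ (pow_ne_zero 3 h4), mul_comm]
  · intro x hx
    refine ⟨t x hx, Φx x hx 0 / (x (t x hx 0) ^ 3) ^ M, fun v w => ?_⟩
    simp only [hx, dif_pos]
    rw [div_pow]
    ring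

/-- The local form of `Om` in a chart. -/
private theorem GL_star (hB : B.IsHomogeneous (a + 3 * M + 1)) (hBP : B ∉ P)
    {Om : (Fin (N + 1) → ℂ) → (Fin (N + 1) → ℂ) → (Fin (N + 1) → ℂ) → ℂ}
    (h1 : ∀ x ∈ cone P, ∀ (φ : ℂ × ℂ → Fin (N + 1) → ℂ) (p : ℂ × ℂ) (Φ : ℂ × ℂ → ℂ), AnalyticAt ℂ φ p →
        (∀ᶠ u in 𝓝 p, ∀ Q ∈ P, eval (φ u) Q = 0) → φ p = x → Ext M t₀ A B φ Φ p →
        (¬ ∀ᶠ u in 𝓝 p, eval (φ u) B = 0) → Om x (d1 φ p) (d2 φ p) = Φ p)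
    {x : Fin (N + 1) → ℂ} {t : Fin 3 → Fin (N + 1)} {σ : ℂ × ℂ → Fin (N + 1) → ℂ}
    (hch : CChart P x t σ) {Φ : ℂ × ℂ → ℂ} (hΦ : Ext M t₀ A B σ Φ 0) :
    ∀ᶠ u in 𝓝 (0 : ℂ × ℂ), Om (σ u) (d1 σ u) (d2 σ u) = Φ u := by
  filter_upwards [hch.an.eventually_analyticAt, hch.mem.eventually_nhds, hΦ.1.eventually_analyticAt,
    hΦ.2.eventually_nhds, hch.nd_near, hch.mem_cone] with u a1 a2 a3 a4 a5 a6
  exact h1 (σ u) a6 σ u Φ a1 a2 rfl ⟨a3, a4⟩ (a5 _ B hB hBP)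

private theorem GL_d1_const_smul {σ : ℂ × ℂ → Fin (N + 1) → ℂ} {p : ℂ × ℂ} (h : AnalyticAt ℂ σ p) (c : ℂ) :
    d1 (fun u => c • σ u) p = c • d1 σ p := by
  unfold d1
  rw [fderiv_fun_const_smul h.differentiableAt]
  rfl

private theorem GL_d2_const_smul {σ : ℂ × ℂ → Fin (N + 1) → ℂ} {p : ℂ × ℂ} (h : AnalyticAt ℂ σ p) (c : ℂ) :
    d2 (fun u => c • σ u) p = c • d2 σ p := by
  unfold d2
  rw [fderiv_fun_const_smul h.differentiableAt]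
  rfl

private theorem GL_jac_id (p : ℂ × ℂ) : jac (fun u => u) p = 1 := by
  have e1 : fderiv ℂ (fun v : ℂ × ℂ => v.1) p = ContinuousLinearMap.fst ℂ ℂ ℂ := fderiv_fst
  have e2 : fderiv ℂ (fun v : ℂ × ℂ => v.2) p = ContinuousLinearMap.snd ℂ ℂ ℂ := fderiv_snd
  simp only [jac, dx, dy]
  rw [e1, e2]
  simp

theorem isForm_om (hP : ∀ p ∈ P, ∀ n, homogeneousComponent n p ∈ P) (hA : A.IsHomogeneous a)
    (hB : B.IsHomogeneous (a + 3 * M + 1)) (hBP : B ∉ P) (hsm : ∀ x ∈ cone P, ∃ t σ, CChart P x t σ)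
    (hext : ∀ x t σ, CChart P x t σ → ∃ Φ, Ext M t₀ A B σ Φ 0)
    {Om : (Fin (N + 1) → ℂ) → (Fin (N + 1) → ℂ) → (Fin (N + 1) → ℂ) → ℂ}
    (h1 : ∀ x ∈ cone P, ∀ (φ : ℂ × ℂ → Fin (N + 1) → ℂ) (p : ℂ × ℂ) (Φ : ℂ × ℂ → ℂ), AnalyticAt ℂ φ p →
        (∀ᶠ u in 𝓝 p, ∀ Q ∈ P, eval (φ u) Q = 0) → φ p = x → Ext M t₀ A B φ Φ p →
        (¬ ∀ᶠ u in 𝓝 p, eval (φ u) B = 0) → Om x (d1 φ p) (d2 φ p) = Φ p)
    (h2 : ∀ x ∈ cone P, ∃ (t : Fin 3 → Fin (N + 1)) (C : ℂ), ∀ v w, Om x v w = C * D3 t x v w ^ M) :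
    IsForm (cone P) M 1 Om := by
  -- the rules for all vectors
  have r1 : ∀ x ∈ cone P, ∀ v w : Fin (N + 1) → ℂ, ∀ α β : ℂ,
      Om x (v + α • x) (w + β • x) = Om x v w := by
    intro x hx v w α β
    obtain ⟨t, C, hC⟩ := h2 x hx
    rw [hC, hC, D3_add_smul]
  have r2 : ∀ x ∈ cone P, ∀ v w : Fin (N + 1) → ℂ, ∀ α β γ δ : ℂ,
      Om x (α • v + β • w) (γ • v + δ • w) = (α * δ - β * γ) ^ M * Om x v w := by
    intro x hx v w α β γ δ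
    obtain ⟨t, C, hC⟩ := h2 x hx
    rw [hC, hC, D3_det, mul_pow]
    ring
  have hscale : ∀ x ∈ cone P, ∀ v ∈ Tan (cone P) x, ∀ w ∈ Tan (cone P) x, ∀ c : ℂ, c ≠ 0 →
      c ^ 1 * Om (c • x) (c • v) (c • w) = Om x v w := by
    intro x hx v hv w hw c hc
    obtain ⟨t, σ, hch⟩ := hsm x hx
    obtain ⟨Φ, hΦ⟩ := hext x t σ hch
    obtain ⟨α, β, e, hv'⟩ := hch.tan hv
    obtain ⟨γ, δ, e', hw'⟩ := hch.tan hw
    have hcx : c • x ∈ cone P := cone_smul hP hx hc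
    have k1 : Om x (d1 σ 0) (d2 σ 0) = Φ 0 := by
      have := (GL_star hB hBP h1 hch hΦ).self_of_nhds
      rwa [hch.zero] at this
    have hσ' : AnalyticAt ℂ (fun u => c • σ u) 0 := by
      show AnalyticAt ℂ (c • σ) 0
      exact hch.an.const_smul
    have k2 : Om (c • x) (c • d1 σ 0) (c • d2 σ 0) = c⁻¹ * Φ 0 := by
      have hE : Ext M t₀ A B (fun u => c • σ u) (fun u => c⁻¹ * jac (fun u => u) u ^ M * Φ u) 0 :=
        Ext.comp (c := fun _ => c) (κ := fun u => u) hA hB analyticAt_const hc analyticAt_id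
          hch.an hΦ (Eventually.of_forall fun _ => rfl)
      have hm : ∀ᶠ u in 𝓝 (0 : ℂ × ℂ), ∀ Q ∈ P, eval (c • σ u) Q = 0 := by
        filter_upwards [hch.mem_cone] with u hu
        exact (cone_smul hP hu hc).2
      have hn : ¬ ∀ᶠ u in 𝓝 (0 : ℂ × ℂ), eval (c • σ u) B = 0 := by
        intro hall
        apply hch.nd _ B hB hBP
        filter_upwards [hall] with u hu
        rw [GL_eval_smul hB] at hu
        exact (mul_eq_zero.1 hu).resolve_left (pow_ne_zero _ hc)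
      have h3 := h1 (c • x) hcx (fun u => c • σ u) 0 _ hσ' hm (by rw [hch.zero]) hE hn
      rw [GL_d1_const_smul hch.an, GL_d2_const_smul hch.an] at h3
      rw [h3, GL_jac_id, one_pow, mul_one]
    have hv2 : c • v = (α • (c • d1 σ 0) + β • (c • d2 σ 0)) + e • (c • x) := by
      rw [hv']
      module
    have hw2 : c • w = (γ • (c • d1 σ 0) + δ • (c • d2 σ 0)) + e' • (c • x) := by
      rw [hw']
      module
    rw [hv2, hw2, r1 _ hcx, r2 _ hcx, k2, hv', hw', r1 _ hx, r2 _ hx, k1]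
    field_simp
  refine ⟨fun x hx v _ w _ α β => r1 x hx v w α β, fun x hx v _ w _ α β γ δ => r2 x hx v w α β γ δ,
    hscale, ?_⟩
  intro φ p hφ hφX
  have hx : φ p ∈ cone P := hφX.self_of_nhds
  obtain ⟨t, σ, hch⟩ := hsm (φ p) hx
  obtain ⟨Φ, hΦ⟩ := hext (φ p) t σ hch
  have hφP : ∀ᶠ u in 𝓝 p, ∀ Q ∈ P, eval (φ u) Q = 0 := hφX.mono fun u hu => hu.2
  obtain ⟨κ, c, hκ, hc, hκ0, hc1, he⟩ := hch.param hφ rfl hφP
  have hσ : AnalyticAt ℂ σ (κ p) := by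
    rw [hκ0]
    exact hch.an
  have hΦκ : AnalyticAt ℂ Φ (κ p) := by
    rw [hκ0]
    exact hΦ.1
  have hc0 : c p ≠ 0 := by
    rw [hc1]
    exact one_ne_zero
  have hκt : Tendsto κ (𝓝 p) (𝓝 0) := by
    have := hκ.continuousAt.tendsto
    rwa [hκ0] at this
  have hF : AnalyticAt ℂ (fun u => jac κ u ^ M * ((c u)⁻¹ * Φ (κ u))) p :=
    ((analyticAt_jac hκ).pow M).mul ((hc.inv hc0).mul (hΦκ.comp hκ))
  refine hF.congr ?_
  filter_upwards [he, d1_smul_comp hc hκ hσ he, d2_smul_comp hc hκ hσ he,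
    hc.continuousAt.eventually_ne hc0, hκt.eventually hch.mem_cone,
    hκt.eventually (GL_star hB hBP h1 hch hΦ), hκt.eventually hch.an.eventually_analyticAt,
    hκt.eventually hch.mem_cone.eventually_nhds] with u e1 e2 e3 e4 e5 e6 e7 e8
  have hcy : c u • σ (κ u) ∈ cone P := cone_smul hP e5 e4
  have ht1 : d1 σ (κ u) ∈ Tan (cone P) (σ (κ u)) := tan_d1 e7 e8
  have ht2 : d2 σ (κ u) ∈ Tan (cone P) (σ (κ u)) := tan_d2 e7 e8
  have hs := hscale _ e5 _ ht1 _ ht2 (c u) e4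
  rw [pow_one, e6] at hs
  show jac κ u ^ M * ((c u)⁻¹ * Φ (κ u)) = Om (φ u) (d1 φ u) (d2 φ u)
  have f1 : d1 φ u = (dx (fun v => (κ v).1) u • (c u • d1 σ (κ u)) +
      dx (fun v => (κ v).2) u • (c u • d2 σ (κ u))) + (dx c u / c u) • (c u • σ (κ u)) := by
    rw [e2, smul_smul (dx c u / c u), div_mul_cancel₀ _ e4]
    module
  have f2 : d2 φ u = (dy (fun v => (κ v).1) u • (c u • d1 σ (κ u)) +
      dy (fun v => (κ v).2) u • (c u • d2 σ (κ u))) + (dy c u / c u) • (c u • σ (κ u)) := by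
    rw [e3, smul_smul (dy c u / c u), div_mul_cancel₀ _ e4]
    module
  rw [f1, f2, e1, r1 _ hcy, r2 _ hcy, ← hs]
  unfold jac
  rw [inv_mul_cancel_left₀ e4]
  ring

end Pool.Agent.H68.KR
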