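import Pool.Agent.H68.KR.PD

/-!
# KR JF: the Jacobian of a rational `2`-form and its order

Proof of `exists_jac`.  `F` is a `K`-module through `E` (inside the proof: `letI := E.toAlgebra`,
`letI : Algebra ℂ F := (E.comp (algebraMap ℂ K)).toAlgebra`, `IsScalarTower.of_algebraMap_eq`).  `δ_i = D_i ∘ E` is a
derivation `Derivation ℂ K F` (`Derivation.mk'` or by hand; `ℂ`-linear by the Leibniz rule and `hc`).  Let
`l_i = (δ_i).liftKaehlerDifferential : Ω[K⁄ℂ] →ₗ[K] F`, `l_i (d a) = D_i (E a)`.  The map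
`(v, w) ↦ l_1 v * l_2 w - l_1 w * l_2 v` is alternating (as an `AlternatingMap K Ω F (Fin 2)`; e.g.
`MultilinearMap.alternatization` or by hand, `Matrix.det` of the `2 × 2` matrix `(l_i (v j))`:
`(Matrix.detRowAlternating).compLinearMap` with `LinearMap.pi ![l_1, l_2]`, then `Matrix.det_fin_two`), lift it to
`⋀[K]^2 Ω` with `exteriorPower.alternatingMapLinearEquiv`; `J` is this map as additive homomorphism; `Form.mk c a` is
`c • ιMulti (fun i => D (a i))` (see `Pool/Agent/H23/Fano.lean`, `Form.mk`, `ExtPow.wedge`, `d`).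

Proof of `pole_free`.  Let `J` be the map of `exists_jac` for `DX`, `DT` (`DX_cst`, `DT_cst`).  The element in question
is `m = E H * (J ω) ^ M`, `ω = Form.mk W a`.
(1) For `f` with `0 ≤ vT (E f)`: `0 ≤ vT (DX (E f)), vT (DT (E f))`.
(2) If `0 ≤ vT (E f)` for all `f : K`, all factors have order `≥ 0` (`AddValuation.map_mul`, `map_sub`, `map_pow`).
(3) Otherwise let `D` be the prime divisor of `exists_primeDivisor`.  `hpole D` gives `g`, `η` with
`ω = g • η`, `0 ≤ D.ord (H * g ^ M)`.  `vT (J η) ≥ 0`: `AddSubgroup.closure_induction` (generators by (1)).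
`m = E H * (E g * J η) ^ M = E (H * g ^ M) * (J η) ^ M`.
-/

set_option autoImplicit false

open Pool.Agent.H23.Fano (Form regularForms PrimeDivisorOver)
open Pool.Agent.H17LG.Variety (PoleAtMost)

noncomputable section

namespace Pool.Agent.H68.KR

theorem exists_jac {K F : Type} [Field K] [Algebra ℂ K] [Field F] (E : K →+* F) (D₁ D₂ : F →+ F)
    (h₁ : ∀ a b, D₁ (a * b) = a * D₁ b + b * D₁ a) (h₂ : ∀ a b, D₂ (a * b) = a * D₂ b + b * D₂ a)
    (hc₁ : ∀ c : ℂ, D₁ (E (algebraMap ℂ K c)) = 0) (hc₂ : ∀ c : ℂ, D₂ (E (algebraMap ℂ K c)) = 0) :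
    ∃ J : Form K 2 →+ F, (∀ (g : K) (η : Form K 2), J (g • η) = E g * J η) ∧
      ∀ (c : K) (a : Fin 2 → K), J (Form.mk c a) =
        E c * (D₁ (E (a 0)) * D₂ (E (a 1)) - D₁ (E (a 1)) * D₂ (E (a 0))) := by
  let algKF : Algebra K F := E.toAlgebra
  let algCF : Algebra ℂ F := (E.comp (algebraMap ℂ K)).toAlgebra
  have tow : IsScalarTower ℂ K F := IsScalarTower.of_algebraMap_eq (fun _ => rfl)
  have hsmulK : ∀ (k : K) (x : F), k • x = E k * x := fun k x => rfl
  have hsmulC : ∀ (c : ℂ) (x : F), c • x = E (algebraMap ℂ K c) * x := fun c x => rfl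
  have main : ∀ D : F →+ F, (∀ a b, D (a * b) = a * D b + b * D a) →
      (∀ c : ℂ, D (E (algebraMap ℂ K c)) = 0) → ∃ l : Ω[K⁄ℂ] →ₗ[K] F,
        ∀ x : K, l (KaehlerDifferential.D ℂ K x) = D (E x) := by
    intro D h hc
    let δ : Derivation ℂ K F := Derivation.mk'
      { toFun := fun x => D (E x)
        map_add' := fun x y => by rw [map_add, map_add]
        map_smul' := fun c x => by
          rw [Algebra.smul_def, map_mul, h, hc, mul_zero, add_zero, RingHom.id_apply, hsmulC] }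
      (fun x y => by
        change D (E (x * y)) = x • D (E y) + y • D (E x)
        rw [map_mul, h, hsmulK, hsmulK])
    exact ⟨δ.liftKaehlerDifferential, fun x => δ.liftKaehlerDifferential_comp_D x⟩
  obtain ⟨l₁, hl₁⟩ := main D₁ h₁ hc₁
  obtain ⟨l₂, hl₂⟩ := main D₂ h₂ hc₂
  let A : AlternatingMap K Ω[K⁄ℂ] F (Fin 2) :=
    { toFun := fun v => l₁ (v 0) * l₂ (v 1) - l₁ (v 1) * l₂ (v 0)
      map_update_add' := by
        intro _ v i x y
        fin_cases i
        · simp
          ring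
        · simp
          ring
      map_update_smul' := by
        intro _ v i c x
        fin_cases i
        · simp [hsmulK]
          ring
        · simp [hsmulK]
          ring
      map_eq_zero_of_eq' := by
        intro v i j hij hne
        fin_cases i <;> fin_cases j
        · exact absurd rfl hne
        · have h : v 0 = v 1 := hij
          simp only [h]
          ring
        · have h : v 1 = v 0 := hij
          simp only [h]
          ring
        · exact absurd rfl hne }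
  let J₀ : (⋀[K]^2 Ω[K⁄ℂ]) →ₗ[K] F := exteriorPower.alternatingMapLinearEquiv A
  have hJ₀ : ∀ v : Fin 2 → Ω[K⁄ℂ], J₀ (exteriorPower.ιMulti K 2 v) =
      l₁ (v 0) * l₂ (v 1) - l₁ (v 1) * l₂ (v 0) := fun v =>
    exteriorPower.alternatingMapLinearEquiv_apply_ιMulti A v
  let J : Form K 2 →+ F := J₀.toAddMonoidHom
  have hJs : ∀ (g : K) (η : Form K 2), J (g • η) = E g * J η := fun g η => J₀.map_smul g η
  refine ⟨J, hJs, fun c a => ?_⟩
  have h1 : J (Form.mk c a) = E c * J₀ (exteriorPower.ιMulti K 2 fun i => KaehlerDifferential.D ℂ K (a i)) :=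
    J₀.map_smul c _
  rw [h1, hJ₀, hl₁, hl₁, hl₂, hl₂]

private theorem JF_mul {x y : LL} (hx : 0 ≤ vT x) (hy : 0 ≤ vT y) : 0 ≤ vT (x * y) := by
  rw [AddValuation.map_mul]
  exact add_nonneg hx hy

private theorem JF_add {x y : LL} (hx : 0 ≤ vT x) (hy : 0 ≤ vT y) : 0 ≤ vT (x + y) :=
  (le_min hx hy).trans (vT.map_add x y)

private theorem JF_neg {x : LL} (hx : 0 ≤ vT x) : 0 ≤ vT (-x) := by
  rw [AddValuation.map_neg]
  exact hx

private theorem JF_sub {x y : LL} (hx : 0 ≤ vT x) (hy : 0 ≤ vT y) : 0 ≤ vT (x - y) := by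
  have h : x - y = x + -y := sub_eq_add_neg x y
  rw [h]
  exact JF_add hx (JF_neg hy)

private theorem JF_pow {x : LL} (hx : 0 ≤ vT x) (n : ℕ) : 0 ≤ vT (x ^ n) := by
  rw [AddValuation.map_pow]
  exact nsmul_nonneg hx n

private theorem JF_zero : 0 ≤ vT (0 : LL) := by
  rw [AddValuation.map_zero]
  exact le_top

private theorem JF_jac {x y : LL} (hx : 0 ≤ vT x) (hy : 0 ≤ vT y) :
    0 ≤ vT (DX x * DT y - DX y * DT x) :=
  JF_sub (JF_mul (vT_DX_nonneg hx) (vT_DT_nonneg hy)) (JF_mul (vT_DX_nonneg hy) (vT_DT_nonneg hx))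

theorem pole_free {K : Type} [Field K] [Algebra ℂ K] (E : K →+* LL)
    (hE : ∀ c : ℂ, E (algebraMap ℂ K c) = cst c) (s : K) (b : ℂ) (hs : E s = cst b + xx)
    (M : ℕ) (H W : K) (a : Fin 2 → K)
    (hpole : ∀ D : PrimeDivisorOver K 2, PoleAtMost 0 D M H (Form.mk W a)) :
    0 ≤ vT (E H * (E W * (DX (E (a 0)) * DT (E (a 1)) - DX (E (a 1)) * DT (E (a 0)))) ^ M) := by
  by_cases hall : ∀ f : K, 0 ≤ vT (E f)
  · exact JF_mul (hall H) (JF_pow (JF_mul (hall W) (JF_jac (hall (a 0)) (hall (a 1)))) M)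
  · push Not at hall
    obtain ⟨D, hD⟩ := exists_primeDivisor E hE s b hs hall
    have hX : ∀ c : ℂ, DX (E (algebraMap ℂ K c)) = 0 := fun c => by rw [hE]; exact DX_cst c
    have hT : ∀ c : ℂ, DT (E (algebraMap ℂ K c)) = 0 := fun c => by rw [hE]; exact DT_cst c
    obtain ⟨J, hJs, hJm⟩ := exists_jac (F := LL) E DX DT (fun a b => DX_mul a b)
      (fun a b => DT_mul a b) hX hT
    obtain ⟨g, η, hη, hω, hord⟩ := hpole D
    have hord' : 0 ≤ D.ord (H * g ^ M) := by
      simpa using hord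
    have h1 : 0 ≤ vT (E (H * g ^ M)) := (hD _).1 hord'
    have hgen : ∀ ξ : Form K 2, ξ ∈ regularForms 2 D.localRing → 0 ≤ vT (J ξ) := by
      intro ξ hξ
      unfold regularForms at hξ
      induction hξ using AddSubgroup.closure_induction with
      | mem x hx =>
        obtain ⟨c, b', hc, hb', rfl⟩ := hx
        rw [hJm]
        exact JF_mul ((hD c).1 hc) (JF_jac ((hD _).1 (hb' 0)) ((hD _).1 (hb' 1)))
      | zero => rw [map_zero]; exact JF_zero
      | add x y _ _ hx hy => rw [map_add]; exact JF_add hx hy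
      | neg x _ hx => rw [map_neg]; exact JF_neg hx
    have h2 : 0 ≤ vT (J η) := hgen η hη
    rw [← hJm, hω, hJs]
    have h3 : E H * (E g * J η) ^ M = E (H * g ^ M) * J η ^ M := by
      rw [map_mul, map_pow]
      ring
    rw [h3]
    exact JF_mul h1 (JF_pow h2 M)

end Pool.Agent.H68.KR
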