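import Pool.Agent.H36.BPL.GPc
import Pool.Agent.H68.KR.EXT

/-!
# KR ExtG: poles of the canonical form pulled back by an arbitrary map

`H₀` is a form, `{H₀ = 0}` the boundary.  The section of `M (K + D) - H` pulled back by an arbitrary holomorphic map `φ` from `ℂ²` to the cone becomes
holomorphic when it is multiplied by `M` functions which vanish on the preimage of the boundary.
-/

set_option autoImplicit false

open MvPolynomial Topology Filter
open Pool.Agent.H23.Fano (Form regularForms PrimeDivisorOver)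
open Pool.Agent.H17LG.Variety (FunField ratio PoleAtMost OnBoundary)

noncomputable section

namespace Pool.Agent.H68.KR


section open_map

/-- A holomorphic map of the plane is open where its Jacobian does not vanish. -/
theorem map_nhds_of_jac {κ : ℂ × ℂ → ℂ × ℂ} {p : ℂ × ℂ} (hκ : AnalyticAt ℂ κ p) (hJ : jac κ p ≠ 0) :
    Filter.map κ (𝓝 p) = 𝓝 (κ p) := by
  have h1 := hκ.hasStrictFDerivAt
  refine h1.map_nhds_eq_of_surj ?_
  have e1 : dx (fun v => (κ v).1) p = (fderiv ℂ κ p (1, 0)).1 := by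
    have h2 : HasFDerivAt (fun v => (κ v).1) ((ContinuousLinearMap.fst ℂ ℂ ℂ).comp (fderiv ℂ κ p)) p :=
      hκ.differentiableAt.hasFDerivAt.fst
    simp only [dx]
    rw [h2.fderiv]
    rfl
  have e2 : dy (fun v => (κ v).1) p = (fderiv ℂ κ p (0, 1)).1 := by
    have h2 : HasFDerivAt (fun v => (κ v).1) ((ContinuousLinearMap.fst ℂ ℂ ℂ).comp (fderiv ℂ κ p)) p :=
      hκ.differentiableAt.hasFDerivAt.fst
    simp only [dy]
    rw [h2.fderiv]
    rfl
  have e3 : dx (fun v => (κ v).2) p = (fderiv ℂ κ p (1, 0)).2 := by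
    have h2 : HasFDerivAt (fun v => (κ v).2) ((ContinuousLinearMap.snd ℂ ℂ ℂ).comp (fderiv ℂ κ p)) p :=
      hκ.differentiableAt.hasFDerivAt.snd
    simp only [dx]
    rw [h2.fderiv]
    rfl
  have e4 : dy (fun v => (κ v).2) p = (fderiv ℂ κ p (0, 1)).2 := by
    have h2 : HasFDerivAt (fun v => (κ v).2) ((ContinuousLinearMap.snd ℂ ℂ ℂ).comp (fderiv ℂ κ p)) p :=
      hκ.differentiableAt.hasFDerivAt.snd
    simp only [dy]
    rw [h2.fderiv]
    rfl
  unfold jac at hJ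
  rw [e1, e2, e3, e4] at hJ
  rw [LinearMap.range_eq_top]
  rintro ⟨v, w⟩
  set a := (fderiv ℂ κ p (1, 0)).1 with ha
  set b := (fderiv ℂ κ p (0, 1)).1 with hb
  set c := (fderiv ℂ κ p (1, 0)).2 with hc
  set d := (fderiv ℂ κ p (0, 1)).2 with hd
  refine ⟨((d * v - b * w) / (a * d - b * c), (a * w - c * v) / (a * d - b * c)), ?_⟩
  have h3 : (((d * v - b * w) / (a * d - b * c), (a * w - c * v) / (a * d - b * c)) : ℂ × ℂ) =
      ((d * v - b * w) / (a * d - b * c)) • ((1 : ℂ), (0 : ℂ)) +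
        ((a * w - c * v) / (a * d - b * c)) • ((0 : ℂ), (1 : ℂ)) := by
    ext <;> simp
  rw [h3]
  simp only [ContinuousLinearMap.coe_coe, map_add, map_smul]
  ext
  · simp only [Prod.fst_add, Prod.smul_fst, smul_eq_mul, ← ha, ← hb]
    rw [div_mul_eq_mul_div, div_mul_eq_mul_div, ← add_div, div_eq_iff hJ]
    ring
  · simp only [Prod.snd_add, Prod.smul_snd, smul_eq_mul, ← hc, ← hd]
    rw [div_mul_eq_mul_div, div_mul_eq_mul_div, ← add_div, div_eq_iff hJ]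
    ring

end open_map

variable {N : ℕ} (P : Ideal (MvPolynomial (Fin (N + 1)) ℂ)) [P.IsPrime]

omit [P.IsPrime] in
/-- A map of rank three into the cone is not contained in a hypersurface. -/
theorem nd_of_D3 (hsm : ∀ x ∈ cone P, ∃ t σ, CChart P x t σ) {s : Fin 3 → Fin (N + 1)}
    {φ : ℂ × ℂ → Fin (N + 1) → ℂ} {p : ℂ × ℂ} (hφ : AnalyticAt ℂ φ p) (hφX : ∀ᶠ u in 𝓝 p, φ u ∈ cone P)
    (hD : ¬ ∀ᶠ u in 𝓝 p, D3 s (φ u) (d1 φ u) (d2 φ u) = 0) (d : ℕ) (Q : MvPolynomial (Fin (N + 1)) ℂ)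
    (hQ : Q.IsHomogeneous d) (hQP : Q ∉ P) : ¬ ∀ᶠ u in 𝓝 p, eval (φ u) Q = 0 := by
  intro hQ0
  obtain ⟨t, σ, hch⟩ := hsm _ hφX.self_of_nhds
  obtain ⟨κ, c, hκ, hc, hκ0, hc1, he⟩ := hch.param hφ rfl (hφX.mono fun u hu => hu.2)
  have hσ : AnalyticAt ℂ σ (κ p) := by
    rw [hκ0]
    exact hch.an
  have h1 := D3_comp s hc hκ hσ he
  have hκt : Tendsto κ (𝓝 p) (𝓝 0) := by
    have := hκ.continuousAt.tendsto
    rwa [hκ0] at this
  have hc0 : ∀ᶠ u in 𝓝 p, c u ≠ 0 := hc.continuousAt.eventually_ne (by rw [hc1]; exact one_ne_zero)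
  apply hD
  filter_upwards [h1, hκ.eventually_analyticAt, he.eventually_nhds, hc0.eventually_nhds, hQ0.eventually_nhds,
    hκt.eventually hch.nd_near] with u a1 a2 a3 a4 a5 a6
  rw [a1]
  have hj : jac κ u = 0 := by
    by_contra hj
    apply a6 d Q hQ hQP
    rw [← map_nhds_of_jac a2 hj]
    change ∀ᶠ u' in 𝓝 u, eval (σ (κ u')) Q = 0
    filter_upwards [a3, a4, a5] with u' b1 b2 b3
    rw [b1] at b3
    have h : eval (c u' • σ (κ u')) Q = c u' ^ d * eval (σ (κ u')) Q :=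
      eval₂_of_isHomogeneous (RingHom.id ℂ) hQ (c u') (σ (κ u'))
    rw [h] at b3
    exact (mul_eq_zero.1 b3).resolve_left (pow_ne_zero _ b2)
  rw [hj, mul_zero, zero_mul]

private theorem ExtG_an_snd {c : ℂ → ℂ} (hc : AnalyticAt ℂ c 0) :
    AnalyticAt ℂ (fun u : ℂ × ℂ => c u.1 + u.2) 0 := by
  have h1 : AnalyticAt ℂ (fun u : ℂ × ℂ => u.1) 0 := analyticAt_fst
  have h2 : AnalyticAt ℂ (fun u : ℂ × ℂ => c u.1) 0 :=
    AnalyticAt.fun_comp (g := c) (f := fun u : ℂ × ℂ => u.1) hc h1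
  exact h2.add analyticAt_snd

private theorem ExtG_an_shear {m x₁ : ℂ} {c : ℂ → ℂ} (hc : AnalyticAt ℂ c 0) :
    AnalyticAt ℂ (shear m x₁ c) 0 := by
  have h2 := ExtG_an_snd hc
  have h1 : AnalyticAt ℂ (fun u : ℂ × ℂ => x₁ + u.1 + m * (c u.1 + u.2)) 0 :=
    (analyticAt_const.add analyticAt_fst).add (analyticAt_const.mul h2)
  exact h1.prod h2

private theorem ExtG_jac_shear {m x₁ : ℂ} {c : ℂ → ℂ} {u : ℂ × ℂ}
    (hc : DifferentiableAt ℂ c u.1) : jac (shear m x₁ c) u = 1 := by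
  have h2 : HasFDerivAt (fun v : ℂ × ℂ => c v.1 + v.2)
      (deriv c u.1 • ContinuousLinearMap.fst ℂ ℂ ℂ + ContinuousLinearMap.snd ℂ ℂ ℂ) u := by
    exact (hc.hasDerivAt.comp_hasFDerivAt u hasFDerivAt_fst).add hasFDerivAt_snd
  have h1 : HasFDerivAt (fun v : ℂ × ℂ => x₁ + v.1 + m * (c v.1 + v.2))
      (ContinuousLinearMap.fst ℂ ℂ ℂ + m • (deriv c u.1 • ContinuousLinearMap.fst ℂ ℂ ℂ +
        ContinuousLinearMap.snd ℂ ℂ ℂ)) u := by
    exact (hasFDerivAt_fst.const_add x₁).add (h2.const_mul m)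
  simp only [jac, shear, dx, dy]
  rw [h1.fderiv, h2.fderiv]
  simp

/-- Non-degeneracy is preserved by the shear. -/
private theorem ExtG_nd {m x₁ : ℂ} {c : ℂ → ℂ} (hc : AnalyticAt ℂ c 0) {g : ℂ × ℂ → ℂ}
    (hg : ∀ᶠ u in 𝓝 (0 : ℂ × ℂ), g (shear m x₁ c u) = 0) :
    ∀ᶠ v in 𝓝 (shear m x₁ c 0), g v = 0 := by
  have h0 : (shear m x₁ c 0).1 - m * (shear m x₁ c 0).2 - x₁ = 0 := by
    simp only [shear, Prod.fst_zero, Prod.snd_zero]
    ring
  have hcont : ContinuousAt (fun v : ℂ × ℂ => ((v.1 - m * v.2 - x₁, v.2 - c (v.1 - m * v.2 - x₁)) : ℂ × ℂ))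
      (shear m x₁ c 0) := by
    have ha : ContinuousAt (fun v : ℂ × ℂ => v.1 - m * v.2 - x₁) (shear m x₁ c 0) := by
      fun_prop
    have hb : ContinuousAt (fun v : ℂ × ℂ => c (v.1 - m * v.2 - x₁)) (shear m x₁ c 0) :=
      ContinuousAt.comp' (f := fun v : ℂ × ℂ => v.1 - m * v.2 - x₁) (g := c)
        (by rw [h0]; exact hc.continuousAt) ha
    exact ha.prodMk (continuousAt_snd.sub hb)
  have heta : ((fun v : ℂ × ℂ => ((v.1 - m * v.2 - x₁, v.2 - c (v.1 - m * v.2 - x₁)) : ℂ × ℂ))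
      (shear m x₁ c 0)) = 0 := by
    simp only [h0]
    simp [shear]
  have h1 : ∀ᶠ v in 𝓝 (shear m x₁ c 0), g (shear m x₁ c
      ((fun v : ℂ × ℂ => ((v.1 - m * v.2 - x₁, v.2 - c (v.1 - m * v.2 - x₁)) : ℂ × ℂ)) v)) = 0 := by
    have h3 := hcont.tendsto
    have h4 : (((shear m x₁ c 0).1 - m * (shear m x₁ c 0).2 - x₁,
        (shear m x₁ c 0).2 - c ((shear m x₁ c 0).1 - m * (shear m x₁ c 0).2 - x₁)) : ℂ × ℂ) = 0 := heta
    rw [h4] at h3
    exact h3.eventually hg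
  refine h1.mono fun v hv => ?_
  have h2 : shear m x₁ c (v.1 - m * v.2 - x₁, v.2 - c (v.1 - m * v.2 - x₁)) = v := by
    simp only [shear]
    ext
    · simp only
      ring
    · simp only
      ring
  simpa only [h2] using hv

private theorem ExtG_alg {F : Type} [Field F] (EH EW e1 e2 y0 yo yl : F) (h0 : y0 ≠ 0)
    (ho : yo ≠ 0) (M : ℕ) :
    EH * (yl / yo) * (EW * (e1 / y0 ^ 3)) ^ M * (e2 * y0 ^ (3 * M + 1)) =
      yl * (EH * (y0 / yo) * EW ^ M * e2 * e1 ^ M) := by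
  have h1 : (y0 ^ 3) ^ M ≠ 0 := pow_ne_zero _ (pow_ne_zero _ h0)
  have h2 : y0 ^ (3 * M + 1) = (y0 ^ 3) ^ M * y0 := by rw [pow_succ, pow_mul]
  rw [mul_pow, div_pow, h2]
  field_simp


private theorem ExtG_prod_an (θ : ℂ × ℂ → ℂ × ℂ) (G : List (ℂ × ℂ → ℂ)) (hG : ∀ g ∈ G, AnalyticAt ℂ (fun u => g (θ u)) 0) :
    AnalyticAt ℂ (fun u => (G.map fun g => g (θ u)).prod) 0 := by
  induction G with
  | nil =>
    simp only [List.map_nil, List.prod_nil]
    exact analyticAt_const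
  | cons g G ih =>
    simp only [List.map_cons, List.prod_cons]
    exact (hG g List.mem_cons_self).mul (ih fun g' hg' => hG g' (List.mem_cons_of_mem _ hg'))

/-- An element of `ℂ⟦X⟧⟦T⟧` without constant coefficient has order at least one. -/
private theorem ExtG_one_le {F : PowerSeries (PowerSeries ℂ)} (hF : PowerSeries.coeff 0 F = 0) :
    (((1 : ℕ) : ℤ) : WithTop ℤ) ≤ vT (emb F) := by
  rw [PowerSeries.coeff_zero_eq_constantCoeff_apply] at hF
  obtain ⟨F', rfl⟩ := PowerSeries.X_dvd_iff.2 hF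
  have h1 : vT (emb (PowerSeries.X : PowerSeries (PowerSeries ℂ))) = ((1 : ℕ) : ℤ) :=
    vT_emb (by rw [PowerSeries.order_X]; rfl)
  rw [map_mul, AddValuation.map_mul, h1]
  exact le_add_of_nonneg_right (vT_emb_nonneg F')

/-- The order of the product of the functions in `G`. -/
private theorem ExtG_vprod (θ : ℂ × ℂ → ℂ × ℂ) (G : List (ℂ × ℂ → ℂ))
    (hG : ∀ g ∈ G, AnalyticAt ℂ (fun u => g (θ u)) 0)
    (hG0 : ∀ g ∈ G, PowerSeries.coeff 0 (t2 fun u => g (θ u)) = 0) :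
    (((G.length : ℕ) : ℤ) : WithTop ℤ) ≤ vT (emb (t2 fun u => (G.map fun g => g (θ u)).prod)) := by
  induction G with
  | nil =>
    exact vT_emb_nonneg _
  | cons g G ih =>
    have h1 := ih (fun g' hg' => hG g' (List.mem_cons_of_mem _ hg')) (fun g' hg' => hG0 g' (List.mem_cons_of_mem _ hg'))
    have h2 := ExtG_one_le (hG0 g List.mem_cons_self)
    have h3 : t2 (fun u => ((g :: G).map fun g => g (θ u)).prod) =
        t2 (fun u => g (θ u)) * t2 (fun u => (G.map fun g => g (θ u)).prod) := by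
      rw [← t2_mul (hG g List.mem_cons_self) (ExtG_prod_an θ G fun g' hg' => hG g' (List.mem_cons_of_mem _ hg'))]
      simp only [List.map_cons, List.prod_cons]
    rw [h3, map_mul, AddValuation.map_mul, List.length_cons]
    have h4 : (((G.length + 1 : ℕ) : ℤ) : WithTop ℤ) = (((1 : ℕ) : ℤ) : WithTop ℤ) + (((G.length : ℕ) : ℤ) : WithTop ℤ) := by
      rw [← WithTop.coe_add]
      congr 1
      push_cast
      ring
    rw [h4]
    exact add_le_add h2 h1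

/-- Change of the affine chart for a homogeneous polynomial. -/
private theorem ExtG_hom {k : ℕ} (z : Fin (k + 1) → FunField P) (hz : IsTranscendenceBasis ℂ z)
    {l l' : Fin (N + 1)} (hl : Pool.Agent.H17GT.coordFun P l ≠ 0)
    (hl' : Pool.Agent.H17GT.coordFun P l' ≠ 0) {e : ℕ}
    {Q : MvPolynomial (Fin (N + 1)) ℂ} (hQ : Q.IsHomogeneous e) :
    aeval (fun i => ratio P i l') Q = ratio P l l' ^ e * aeval (fun i => ratio P i l) Q ∧
      ratio P l l' * ratio P l' l = 1 := by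
  obtain ⟨x, hx0, hgen, -, hxP, hxc, hxr⟩ := exists_point P z hz
  have hxl : x l ≠ 0 := fun h0 => hl ((hxc l).1 h0)
  have hxl' : x l' ≠ 0 := fun h0 => hl' ((hxc l').1 h0)
  have key : ∀ j, x j ≠ 0 → aeval (fun i => ratio P i j) Q = (x j)⁻¹ ^ e * aeval x Q := by
    intro j hj
    have h1 : (fun i => ratio P i j) = fun i => (x j)⁻¹ * x i := by
      funext i
      rw [← hxr, div_eq_inv_mul]
    rw [h1, aeval_def, aeval_def, eval₂_of_isHomogeneous _ hQ]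
  refine ⟨?_, ?_⟩
  · rw [key l' hxl', key l hxl, ← hxr l l', div_pow]
    have h1 := pow_ne_zero e hxl
    have h2 := pow_ne_zero e hxl'
    rw [inv_pow, inv_pow]
    field_simp
  · rw [← hxr, ← hxr]
    field_simp


private theorem ExtG_div_ne {F : Type} [Field F] {a b : F} (ha : a ≠ 0) (hb : b ≠ 0) : a / b ^ 3 ≠ 0 :=
  div_ne_zero ha (pow_ne_zero _ hb)

private theorem ExtG_divmul {F : Type} [Field F] (a : F) {b : F} (hb : b ≠ 0) : a / b * b = a :=
  div_mul_cancel₀ a hb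

/-- The zero set of an analytic function which does not vanish near `0` contains no open set near `0`. -/
private theorem ExtG_ident {f : ℂ × ℂ → ℂ} (hf : AnalyticAt ℂ f 0) (h0 : ¬ ∀ᶠ u in 𝓝 (0 : ℂ × ℂ), f u = 0) :
    ∀ᶠ p in 𝓝 (0 : ℂ × ℂ), ¬ ∀ᶠ u in 𝓝 p, f u = 0 := by
  obtain ⟨r, hr, hB⟩ := Metric.eventually_nhds_iff_ball.1 hf.eventually_analyticAt
  filter_upwards [Metric.ball_mem_nhds (0 : ℂ × ℂ) hr] with p hp hcon
  have h1 : AnalyticOnNhd ℂ f (Metric.ball (0 : ℂ × ℂ) r) := fun u hu => hB u hu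
  have h2 := h1.eqOn_zero_of_preconnected_of_eventuallyEq_zero
    (convex_ball (0 : ℂ × ℂ) r).isPreconnected hp hcon
  refine h0 ?_
  filter_upwards [Metric.ball_mem_nhds (0 : ℂ × ℂ) hr] with u hu
  exact h2 hu

theorem exists_extG (z : Fin 2 → FunField P) (hz : IsTranscendenceBasis ℂ z)
    (hsm : ∀ x ∈ cone P, ∃ t σ, CChart P x t σ)
    {t₀ : Fin 3 → Fin (N + 1)} (ht₀ : X (t₀ 0) ∉ P) {o : Fin (N + 1)} (ho : X o ∉ P) {M : ℕ} (hM : 1 ≤ M)
    {e : ℕ} {H₀ : MvPolynomial (Fin (N + 1)) ℂ} (hH₀ : H₀.IsHomogeneous e)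
    {H W : FunField P}
    (hpole : ∀ l, X l ∉ P → ∀ D : PrimeDivisorOver (FunField P) 2,
      (¬ OnBoundary P (fun _ : Fin 1 => H₀) D → PoleAtMost 0 D M (H * ratio P l o)
        (Form.mk W ![ratio P (t₀ 1) (t₀ 0), ratio P (t₀ 2) (t₀ 0)])) ∧
      (OnBoundary P (fun _ : Fin 1 => H₀) D → PoleAtMost M D M (H * ratio P l o)
        (Form.mk W ![ratio P (t₀ 1) (t₀ 0), ratio P (t₀ 2) (t₀ 0)])))
    {d : ℕ} {A B : MvPolynomial (Fin (N + 1)) ℂ} (hA : A.IsHomogeneous d) (hB : B.IsHomogeneous d)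
    (hBP : B ∉ P)
    (hrep : ∀ l, X l ∉ P → (H * ratio P (t₀ 0) o * W ^ M) * aeval (fun i => ratio P i l) B =
      aeval (fun i => ratio P i l) A)
    {φ : ℂ × ℂ → Fin (N + 1) → ℂ} (hφ : AnalyticAt ℂ φ 0) (hφX : ∀ᶠ u in 𝓝 (0 : ℂ × ℂ), φ u ∈ cone P)
    (G : List (ℂ × ℂ → ℂ)) (hG : G.length = M)
    (hGan : ∀ g ∈ G, AnalyticAt ℂ g 0) (hG0 : ∀ g ∈ G, ∀ᶠ u in 𝓝 (0 : ℂ × ℂ), eval (φ u) H₀ = 0 → g u = 0) :
    ∃ Φ : ℂ × ℂ → ℂ, AnalyticAt ℂ Φ 0 ∧ ∀ᶠ u in 𝓝 (0 : ℂ × ℂ),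
      eval (φ u) (B * X (t₀ 0) ^ (3 * M + 1)) * Φ u =
        (G.map fun g => g u).prod * (eval (φ u) A * D3 t₀ (φ u) (d1 φ u) (d2 φ u) ^ M) := by
  classical
  by_cases hD0 : ∀ᶠ u in 𝓝 (0 : ℂ × ℂ), D3 t₀ (φ u) (d1 φ u) (d2 φ u) = 0
  · refine ⟨fun _ => 0, analyticAt_const, ?_⟩
    filter_upwards [hD0] with u hu
    rw [hu, zero_pow (by omega), mul_zero, mul_zero, mul_zero]
  by_contra hne
  have hBX : (B * X (t₀ 0) ^ (3 * M + 1)).IsHomogeneous (d + (3 * M + 1)) :=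
    hB.mul (isHomogeneous_X_pow _ _)
  have hBXP : B * X (t₀ 0) ^ (3 * M + 1) ∉ P := by
    intro hmem
    rcases (inferInstance : P.IsPrime).mem_or_mem hmem with h1 | h1
    · exact hBP h1
    · exact ht₀ ((inferInstance : P.IsPrime).mem_of_pow_mem _ h1)
  have hA'an : AnalyticAt ℂ
      (fun u => eval (φ u) A * D3 t₀ (φ u) (d1 φ u) (d2 φ u) ^ M) 0 :=
    (analyticAt_eval hφ A).mul ((analyticAt_D3 t₀ hφ).pow M)
  have hPan : AnalyticAt ℂ (fun u => (G.map fun g => g u).prod) 0 := ExtG_prod_an (fun u => u) G hGan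
  have hA''an : AnalyticAt ℂ
      (fun u => (G.map fun g => g u).prod * (eval (φ u) A * D3 t₀ (φ u) (d1 φ u) (d2 φ u) ^ M)) 0 :=
    hPan.mul hA'an
  have hB'an : AnalyticAt ℂ (fun u => eval (φ u) (B * X (t₀ 0) ^ (3 * M + 1))) 0 :=
    analyticAt_eval hφ _
  have hB'0 : ¬ ∀ᶠ u in 𝓝 (0 : ℂ × ℂ), eval (φ u) (B * X (t₀ 0) ^ (3 * M + 1)) = 0 :=
    nd_of_D3 P hsm hφ hφX hD0 _ _ hBX hBXP
  have hne' : ¬ ∃ Φ : ℂ × ℂ → ℂ, AnalyticAt ℂ Φ 0 ∧ ∀ᶠ u in 𝓝 (0 : ℂ × ℂ),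
      (fun u => (G.map fun g => g u).prod * (eval (φ u) A * D3 t₀ (φ u) (d1 φ u) (d2 φ u) ^ M)) u =
        (fun u => eval (φ u) (B * X (t₀ 0) ^ (3 * M + 1))) u * Φ u := by
    rintro ⟨Φ, hΦ, hΦ'⟩
    exact hne ⟨Φ, hΦ, hΦ'.mono fun u hu => hu.symm⟩
  have hGa : ∀ᶠ p in 𝓝 (0 : ℂ × ℂ), ∀ g ∈ G, AnalyticAt ℂ g p :=
    (Filter.eventually_all_finite (List.finite_toSet G)).2 fun g hg => (hGan g hg).eventually_analyticAt
  have hGb : ∀ᶠ p in 𝓝 (0 : ℂ × ℂ), ∀ g ∈ G, ∀ᶠ u in 𝓝 p, eval (φ u) H₀ = 0 → g u = 0 :=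
    (Filter.eventually_all_finite (List.finite_toSet G)).2 fun g hg => (hG0 g hg).eventually_nhds
  -- a coordinate which does not vanish
  obtain ⟨l, hl0⟩ : ∃ l, φ 0 l ≠ 0 := by
    by_contra h
    push Not at h
    exact hφX.self_of_nhds.1 (funext h)
  have hl : X l ∉ P := by
    intro hmem0
    have h1 := hφX.self_of_nhds.2 (X l) hmem0
    rw [eval_X] at h1
    exact hl0 h1
  have hφl : AnalyticAt ℂ (fun u => φ u l) 0 := by
    have h1 := analyticAt_eval hφ (X l)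
    simpa only [eval_X] using h1
  have hU : {p : ℂ × ℂ | AnalyticAt ℂ φ p ∧ (∀ᶠ u in 𝓝 p, φ u ∈ cone P) ∧
      (¬ ∀ᶠ u in 𝓝 p, D3 t₀ (φ u) (d1 φ u) (d2 φ u) = 0) ∧ φ p l ≠ 0 ∧ (∀ g ∈ G, AnalyticAt ℂ g p) ∧
      (∀ g ∈ G, ∀ᶠ u in 𝓝 p, eval (φ u) H₀ = 0 → g u = 0)} ∈ 𝓝 (0 : ℂ × ℂ) :=
    hφ.eventually_analyticAt.and (hφX.eventually_nhds.and
      ((ExtG_ident (analyticAt_D3 t₀ hφ) hD0).and ((hφl.continuousAt.eventually_ne hl0).and (hGa.and hGb))))
  obtain ⟨m, x₁, c, j, k', hc, ⟨hσ, hmem, hDp, hlp, hGan', hG0'⟩, hordA, hordB, hjk⟩ :=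
    exists_curve hA''an hB'an hB'0 hne' hU
  have hθ : AnalyticAt ℂ (shear m x₁ c) 0 := ExtG_an_shear hc
  have hψ : AnalyticAt ℂ (fun u => φ (shear m x₁ c u)) 0 :=
    AnalyticAt.fun_comp (g := φ) (f := shear m x₁ c) hσ hθ
  have hmemψ : ∀ᶠ u in 𝓝 (0 : ℂ × ℂ), ∀ Q ∈ P, eval (φ (shear m x₁ c u)) Q = 0 :=
    hθ.continuousAt.eventually (hmem.mono fun u hu => hu.2)
  have hndψ : ∀ (d : ℕ) (Q : MvPolynomial (Fin (N + 1)) ℂ), Q.IsHomogeneous d → Q ∉ P →
      ¬ ∀ᶠ u in 𝓝 (0 : ℂ × ℂ), eval (φ (shear m x₁ c u)) Q = 0 := fun d Q hQ hQP hQ0 =>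
    nd_of_D3 P hsm hσ hmem hDp d Q hQ hQP (ExtG_nd hc hQ0)
  have hψi : ∀ i, AnalyticAt ℂ (fun u => φ (shear m x₁ c u) i) 0 := fun i => by
    have h1 := analyticAt_eval hψ (X i)
    simpa only [eval_X] using h1
  obtain ⟨E, hE1, hE2, hE3, hE4⟩ := exists_embedding P z hz hψ hmemψ hndψ
  have hy : ∀ i, X i ∉ P → emb (t2 fun u => φ (shear m x₁ c u) i) ≠ 0 := by
    intro i hi h0
    have h1 : t2 (fun u => φ (shear m x₁ c u) i) = 0 := by
      apply emb_injective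
      rw [h0, map_zero]
    rw [t2_eq_zero_iff (hψi i)] at h1
    refine hndψ 1 (X i) (isHomogeneous_X _ _) hi (h1.mono fun u hu => ?_)
    rw [eval_X]
    exact hu
  have hGθ : ∀ g ∈ G, AnalyticAt ℂ (fun u => g (shear m x₁ c u)) 0 := fun g hg =>
    AnalyticAt.fun_comp (g := g) (f := shear m x₁ c) (hGan' g hg) hθ
  -- a function which does not vanish at `0` has order `0`
  have hv0 : ∀ f : ℂ × ℂ → ℂ, AnalyticAt ℂ f 0 → f 0 ≠ 0 → vT (emb (t2 f)) = 0 := by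
    intro f hf hf0
    refine vT_emb_of_constantCoeff_ne fun h0 => hf0 ?_
    rw [← PowerSeries.coeff_zero_eq_constantCoeff_apply, coeff_t2_iff hf 0] at h0
    exact h0.self_of_nhds
  set yl : LL := emb (t2 fun u => φ (shear m x₁ c u) l) with hyldef
  have hyl0 : yl ≠ 0 := hy l hl
  have hvl : vT yl = 0 := hv0 _ (hψi l) hlp
  -- the Jacobian
  have hD3e : ∀ᶠ u in 𝓝 (0 : ℂ × ℂ), D3 t₀ (φ (shear m x₁ c u)) (d1 (fun u => φ (shear m x₁ c u)) u)
      (d2 (fun u => φ (shear m x₁ c u)) u) =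
      D3 t₀ (φ (shear m x₁ c u)) (d1 φ (shear m x₁ c u)) (d2 φ (shear m x₁ c u)) := by
    have h1 := D3_comp t₀ (φ := fun u => φ (shear m x₁ c u)) (c := fun _ => (1 : ℂ))
      (analyticAt_const (x := (0 : ℂ × ℂ))) hθ hσ (Filter.Eventually.of_forall fun u => (one_smul ℂ _).symm)
    have h2 : ∀ᶠ u in 𝓝 (0 : ℂ × ℂ), DifferentiableAt ℂ c u.1 := by
      have h3 : ∀ᶠ a in 𝓝 ((0 : ℂ × ℂ).1), DifferentiableAt ℂ c a :=
        hc.eventually_analyticAt.mono fun a ha => ha.differentiableAt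
      exact continuousAt_fst.eventually h3
    filter_upwards [h1, h2] with u h1 h2
    rw [h1, ExtG_jac_shear h2]
    ring
  have hD3 := t2_congr hD3e
  have hD3an : AnalyticAt ℂ (fun u => D3 t₀ (φ (shear m x₁ c u)) (d1 φ (shear m x₁ c u))
      (d2 φ (shear m x₁ c u))) 0 :=
    AnalyticAt.fun_comp (g := fun v => D3 t₀ (φ v) (d1 φ v) (d2 φ v)) (f := shear m x₁ c)
      (analyticAt_D3 t₀ hσ) hθ
  have hJ := hE4 t₀ ht₀
  have hyt := hy (t₀ 0) ht₀
  have hJne : DX (E (ratio P (t₀ 1) (t₀ 0))) * DT (E (ratio P (t₀ 2) (t₀ 0))) -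
      DX (E (ratio P (t₀ 2) (t₀ 0))) * DT (E (ratio P (t₀ 1) (t₀ 0))) ≠ 0 := by
    rw [hJ, hD3]
    refine ExtG_div_ne (F := LL) (fun h0 => ?_) hyt
    have h1 : t2 (fun u => D3 t₀ (φ (shear m x₁ c u)) (d1 φ (shear m x₁ c u))
        (d2 φ (shear m x₁ c u))) = 0 := by
      apply emb_injective
      rw [h0, map_zero]
    rw [t2_eq_zero_iff hD3an] at h1
    exact hDp (ExtG_nd (g := fun v => D3 t₀ (φ v) (d1 φ v) (d2 φ v)) hc h1)
  have hpf : 0 ≤ vT (emb (t2 fun u => (G.map fun g => g (shear m x₁ c u)).prod)) +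
      vT (E (H * ratio P l o) * (E W *
        (DX (E (ratio P (t₀ 1) (t₀ 0))) * DT (E (ratio P (t₀ 2) (t₀ 0))) -
          DX (E (ratio P (t₀ 2) (t₀ 0))) * DT (E (ratio P (t₀ 1) (t₀ 0))))) ^ M) := by
    have hmain := Pool.Agent.H36.BPL.pole_free_logG E hE1 hz ⟨_, _, hJne⟩ M (H * ratio P l o) W
      ![ratio P (t₀ 1) (t₀ 0), ratio P (t₀ 2) (t₀ 0)] (OnBoundary P (fun _ : Fin 1 => H₀)) (hpole l hl)
    simp only [Matrix.cons_val_zero, Matrix.cons_val_one] at hmain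
    rcases hmain with h1 | ⟨D, ⟨j', hj', hnn, m', hpos⟩, ⟨e', he', hord⟩, hV⟩
    · exact add_nonneg (vT_emb_nonneg _) h1
    · -- the curve lies in the boundary
      have hj'P : X j' ∉ P := fun h0 => hj' ((coordFun_eq_zero_iff P j').2 h0)
      have hnnE : ∀ f : FunField P, 0 ≤ D.ord f → 0 ≤ vT (E f) := by
        intro f hf
        by_cases h0 : f = 0
        · rw [h0, map_zero, AddValuation.map_zero]
          exact le_top
        · obtain ⟨n, hn1, hn2⟩ := hord f h0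
          rw [hn1] at hf
          rw [hn2]
          have h2 : (0 : ℤ) ≤ n := WithTop.coe_le_coe.1 hf
          have h3 : (0 : ℤ) ≤ (e' : ℤ) * n := by positivity
          exact WithTop.coe_le_coe.2 h3
      have hyj : vT (emb (t2 fun u => φ (shear m x₁ c u) j')) = 0 := by
        have h1 := hnnE _ (hnn l)
        rw [hE2] at h1
        have h2 : yl / emb (t2 fun u => φ (shear m x₁ c u) j') * emb (t2 fun u => φ (shear m x₁ c u) j') =
            yl := ExtG_divmul (F := LL) yl (hy j' hj'P)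
        have h3 := congrArg vT h2
        rw [AddValuation.map_mul, hvl] at h3
        refine le_antisymm ?_ (vT_emb_nonneg _)
        rw [← h3]
        exact le_add_of_nonneg_left h1
      have hpos' : 0 < vT (E (aeval (fun i => ratio P i j') H₀)) := by
        by_cases h0 : aeval (fun i => ratio P i j') H₀ = 0
        · rw [h0, map_zero, AddValuation.map_zero]
          exact WithTop.coe_lt_top _
        · obtain ⟨n, hn1, hn2⟩ := hord _ h0
          rw [hn1] at hpos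
          rw [hn2]
          have h2 : (0 : ℤ) < n := WithTop.coe_lt_coe.1 hpos
          have h3 : (0 : ℤ) < (e' : ℤ) * n := by positivity
          exact WithTop.coe_lt_coe.2 h3
      have hcj' : Pool.Agent.H17GT.coordFun P j' ≠ 0 := hj'
      have h6 := hE3 e H₀ (X j' ^ e) (aeval (fun i => ratio P i j') H₀) hH₀
        (isHomogeneous_X_pow _ _) (fun l' hl' => by
          rw [map_pow, aeval_X, (ExtG_hom P z hz hcj'
            (fun h0 => hl' ((coordFun_eq_zero_iff P l').1 h0)) hH₀).1, mul_comm])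
      have h7 : t2 (fun u => eval (φ (shear m x₁ c u)) (X j' ^ e)) =
          t2 (fun u => φ (shear m x₁ c u) j') ^ e := by
        rw [← t2_pow (hψi j')]
        simp only [map_pow, eval_X]
      have h8 := congrArg vT h6
      rw [h7, map_pow, AddValuation.map_mul, AddValuation.map_pow, hyj, smul_zero, add_zero] at h8
      have hH : PowerSeries.coeff 0 (t2 fun u => eval (φ (shear m x₁ c u)) H₀) = 0 := by
        by_contra hH
        rw [PowerSeries.coeff_zero_eq_constantCoeff_apply] at hH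
        rw [vT_emb_of_constantCoeff_ne hH] at h8
        rw [h8] at hpos'
        exact lt_irrefl _ hpos'
      have h1 : ∀ᶠ a in 𝓝 (0 : ℂ), eval (φ (shear m x₁ c (a, 0))) H₀ = 0 :=
        (coeff_t2_iff (analyticAt_eval hψ H₀) 0).1 hH
      have h2 : ∀ g ∈ G, PowerSeries.coeff 0 (t2 fun u => g (shear m x₁ c u)) = 0 := by
        intro g hg
        rw [coeff_t2_iff (hGθ g hg) 0]
        have h3 : Tendsto (fun a : ℂ => shear m x₁ c (a, 0)) (𝓝 0) (𝓝 (shear m x₁ c 0)) := by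
          have h4 : ContinuousAt (fun a : ℂ => ((a, 0) : ℂ × ℂ)) 0 := by fun_prop
          exact ContinuousAt.comp (g := shear m x₁ c) (f := fun a : ℂ => ((a, 0) : ℂ × ℂ))
            hθ.continuousAt h4
        filter_upwards [h1, h3.eventually (hG0' g hg)] with a ha hb
        exact hb ha
      have h3 := ExtG_vprod (shear m x₁ c) G hGθ h2
      rw [hG] at h3
      rw [add_comm] at hV
      refine hV.trans ?_
      exact add_le_add_left h3 _
  rw [hJ] at hpf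
  have hrepE := hE3 d A B _ hA hB hrep
  have hAan : AnalyticAt ℂ (fun u => eval (φ (shear m x₁ c u)) A) 0 := analyticAt_eval hψ A
  have hBan : AnalyticAt ℂ (fun u => eval (φ (shear m x₁ c u)) B) 0 := analyticAt_eval hψ B
  have hA2 : t2 (fun u => (fun u => (G.map fun g => g u).prod *
      (eval (φ u) A * D3 t₀ (φ u) (d1 φ u) (d2 φ u) ^ M)) (shear m x₁ c u)) =
        t2 (fun u => (G.map fun g => g (shear m x₁ c u)).prod) *
        (t2 (fun u => eval (φ (shear m x₁ c u)) A) *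
          t2 (fun u => D3 t₀ (φ (shear m x₁ c u)) (d1 φ (shear m x₁ c u))
            (d2 φ (shear m x₁ c u))) ^ M) := by
    rw [← t2_pow hD3an, ← t2_mul hAan (hD3an.fun_pow M),
      ← t2_mul (ExtG_prod_an (shear m x₁ c) G hGθ) (hAan.fun_mul (hD3an.fun_pow M))]
  have hB2 : t2 (fun u => (fun u => eval (φ u) (B * X (t₀ 0) ^ (3 * M + 1))) (shear m x₁ c u)) =
      t2 (fun u => eval (φ (shear m x₁ c u)) B) *
        t2 (fun u => φ (shear m x₁ c u) (t₀ 0)) ^ (3 * M + 1) := by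
    rw [← t2_pow (hψi (t₀ 0)), ← t2_mul hBan ((hψi (t₀ 0)).fun_pow _)]
    simp only [map_mul, map_pow, eval_X]
  have hvA : vT (emb (t2 fun u => (G.map fun g => g (shear m x₁ c u)).prod)) +
      vT (emb (t2 fun u => eval (φ (shear m x₁ c u)) A) *
      emb (t2 (fun u => D3 t₀ (φ (shear m x₁ c u)) (d1 φ (shear m x₁ c u))
          (d2 φ (shear m x₁ c u)))) ^ M) = (j : ℤ) := by
    rw [← AddValuation.map_mul, ← map_pow, ← map_mul, ← map_mul, ← hA2]
    exact vT_emb hordA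
  have hvB : vT (emb (t2 fun u => eval (φ (shear m x₁ c u)) B) *
      emb (t2 fun u => φ (shear m x₁ c u) (t₀ 0)) ^ (3 * M + 1)) = (k' : ℤ) := by
    rw [← map_pow, ← map_mul, ← hB2]
    exact vT_emb hordB
  have hyo := hy o ho
  -- the identity
  have hid : (E (H * ratio P l o) * (E W * (emb (t2 fun u =>
      D3 t₀ (φ (shear m x₁ c u)) (d1 (fun u => φ (shear m x₁ c u)) u)
        (d2 (fun u => φ (shear m x₁ c u)) u)) / emb (t2 fun u => φ (shear m x₁ c u) (t₀ 0)) ^ 3)) ^ M) *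
      (emb (t2 fun u => eval (φ (shear m x₁ c u)) B) *
        emb (t2 fun u => φ (shear m x₁ c u) (t₀ 0)) ^ (3 * M + 1)) =
      yl * (emb (t2 fun u => eval (φ (shear m x₁ c u)) A) *
        emb (t2 (fun u => D3 t₀ (φ (shear m x₁ c u)) (d1 φ (shear m x₁ c u))
          (d2 φ (shear m x₁ c u)))) ^ M) := by
    rw [← hrepE, hD3]
    simp only [map_mul, map_pow, hE2, ← hyldef]
    exact ExtG_alg (F := LL) (E H) (E W) _ _ _ _ _ hyt hyo M
  have hv := congrArg vT hid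
  rw [AddValuation.map_mul vT (E (H * ratio P l o) * _) _,
    AddValuation.map_mul vT yl _, hvB, hvl, zero_add] at hv
  have h1 : ((k' : ℤ) : WithTop ℤ) ≤ ((j : ℤ) : WithTop ℤ) := by
    rw [← hvA, ← hv, ← add_assoc]
    exact le_add_of_nonneg_left hpf
  have h2 : (k' : ℤ) ≤ (j : ℤ) := WithTop.coe_le_coe.1 h1
  have h3 : k' ≤ j := by exact_mod_cast h2
  omega

end Pool.Agent.H68.KR
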