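import Pool.Agent.H68.KR.GL

/-!
# KR GLK: gluing the local extensions to a form on an open part of the cone
-/

set_option autoImplicit false

open MvPolynomial Topology Filter
open Pool.Agent.H17BP (Tan IsForm)

noncomputable section

namespace Pool.Agent.H68.KR

variable {N : ℕ} {M a : ℕ} {t₀ : Fin 3 → Fin (N + 1)} {A B : MvPolynomial (Fin (N + 1)) ℂ}
  {P : Ideal (MvPolynomial (Fin (N + 1)) ℂ)} {K : Set (Fin (N + 1) → ℂ)}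

private theorem GL_eval_smul {n : ℕ} {Q : MvPolynomial (Fin (N + 1)) ℂ} (hQ : Q.IsHomogeneous n) (c : ℂ)
    (y : Fin (N + 1) → ℂ) : eval (c • y) Q = c ^ n * eval y Q :=
  eval₂_of_isHomogeneous (RingHom.id ℂ) hQ c y

private theorem GLK_tan {X Y : Set (Fin (N + 1) → ℂ)} (h : X ⊆ Y) {x v : Fin (N + 1) → ℂ}
    (hv : v ∈ Tan X x) : v ∈ Tan Y x := by
  obtain ⟨γ, h1, h2, h3, h4⟩ := hv
  exact ⟨γ, h1, h2.mono fun z hz => h hz, h3, h4⟩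

private theorem GLK_mem (hKo : ∀ x ∈ K, ∀ᶠ y in 𝓝 x, (∀ Q ∈ P, eval y Q = 0) → y ∈ K)
    {x : Fin (N + 1) → ℂ} (hx : x ∈ K) {t : Fin 3 → Fin (N + 1)} {σ : ℂ × ℂ → Fin (N + 1) → ℂ}
    (hch : CChart P x t σ) : ∀ᶠ u in 𝓝 (0 : ℂ × ℂ), σ u ∈ K := by
  have h1 := hch.an.continuousAt.tendsto
  rw [hch.zero] at h1
  filter_upwards [h1.eventually (hKo x hx), hch.mem] with u h2 h3
  exact h2 h3

theorem exists_omK (hKP : K ⊆ cone P) (hA : A.IsHomogeneous a) (hB : B.IsHomogeneous (a + 3 * M + 1))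
    (hsm : ∀ x ∈ K, ∃ t σ, CChart P x t σ)
    (hext : ∀ x ∈ K, ∀ t σ, CChart P x t σ → ∃ Φ, Ext M t₀ A B σ Φ 0) :
    ∃ Om : (Fin (N + 1) → ℂ) → (Fin (N + 1) → ℂ) → (Fin (N + 1) → ℂ) → ℂ,
      (∀ x ∈ K, ∀ (φ : ℂ × ℂ → Fin (N + 1) → ℂ) (p : ℂ × ℂ) (Φ : ℂ × ℂ → ℂ), AnalyticAt ℂ φ p →
        (∀ᶠ u in 𝓝 p, ∀ Q ∈ P, eval (φ u) Q = 0) → φ p = x → Ext M t₀ A B φ Φ p →
        (¬ ∀ᶠ u in 𝓝 p, eval (φ u) B = 0) → Om x (d1 φ p) (d2 φ p) = Φ p) ∧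
      ∀ x ∈ K, ∃ (t : Fin 3 → Fin (N + 1)) (C : ℂ), ∀ v w, Om x v w = C * D3 t x v w ^ M := by
  classical
  choose t σ hch using hsm
  choose Φx hΦx using fun (x : Fin (N + 1) → ℂ) (hx : x ∈ K) => hext x hx (t x hx) (σ x hx) (hch x hx)
  refine ⟨fun x v w => if hx : x ∈ K then Φx x hx 0 * (D3 (t x hx) x v w / x (t x hx 0) ^ 3) ^ M else 0,
    ?_, ?_⟩
  · intro x hx φ p Φ hφ hφP hφx hE hnd
    obtain ⟨κ, c, hκ, hc, hκ0, hc1, he⟩ := (hch x hx).param hφ hφx hφP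
    have hc0 : c p ≠ 0 := by
      rw [hc1]
      exact one_ne_zero
    have hσ : AnalyticAt ℂ (σ x hx) (κ p) := by
      rw [hκ0]
      exact (hch x hx).an
    have hE' : Ext M t₀ A B (σ x hx) (Φx x hx) (κ p) := by
      rw [hκ0]
      exact hΦx x hx
    have hcomp := Ext.comp hA hB hc hc0 hκ hσ hE' he
    have h1 := Ext.unique hE hcomp hnd
    have h1' : Φ p = (c p)⁻¹ * jac κ p ^ M * Φx x hx (κ p) := h1
    rw [hc1, hκ0, inv_one, one_mul] at h1'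
    have h2 := (D3_comp (t x hx) hc hκ hσ he).self_of_nhds
    have h3 := (hch x hx).D3_eq.self_of_nhds
    rw [hκ0, hc1, h3, one_pow, one_mul, hφx] at h2
    have h4 : x (t x hx 0) ≠ 0 := (hch x hx).ne
    simp only [hx, dif_pos]
    rw [h2, h1', mul_div_cancel_right₀ _ (pow_ne_zero 3 h4), mul_comm]
  · intro x hx
    refine ⟨t x hx, Φx x hx 0 / (x (t x hx 0) ^ 3) ^ M, fun v w => ?_⟩
    simp only [hx, dif_pos]
    rw [div_pow]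
    ring

/-- The local form of `Om` in a chart. -/
private theorem GL_star (hKo : ∀ x ∈ K, ∀ᶠ y in 𝓝 x, (∀ Q ∈ P, eval y Q = 0) → y ∈ K) (hB : B.IsHomogeneous (a + 3 * M + 1)) (hBP : B ∉ P)
    {Om : (Fin (N + 1) → ℂ) → (Fin (N + 1) → ℂ) → (Fin (N + 1) → ℂ) → ℂ}
    (h1 : ∀ x ∈ K, ∀ (φ : ℂ × ℂ → Fin (N + 1) → ℂ) (p : ℂ × ℂ) (Φ : ℂ × ℂ → ℂ), AnalyticAt ℂ φ p →
        (∀ᶠ u in 𝓝 p, ∀ Q ∈ P, eval (φ u) Q = 0) → φ p = x → Ext M t₀ A B φ Φ p →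
        (¬ ∀ᶠ u in 𝓝 p, eval (φ u) B = 0) → Om x (d1 φ p) (d2 φ p) = Φ p)
    {x : Fin (N + 1) → ℂ} (hx : x ∈ K) {t : Fin 3 → Fin (N + 1)} {σ : ℂ × ℂ → Fin (N + 1) → ℂ}
    (hch : CChart P x t σ) {Φ : ℂ × ℂ → ℂ} (hΦ : Ext M t₀ A B σ Φ 0) :
    ∀ᶠ u in 𝓝 (0 : ℂ × ℂ), Om (σ u) (d1 σ u) (d2 σ u) = Φ u := by
  filter_upwards [hch.an.eventually_analyticAt, hch.mem.eventually_nhds, hΦ.1.eventually_analyticAt,
    hΦ.2.eventually_nhds, hch.nd_near, GLK_mem hKo hx hch] with u a1 a2 a3 a4 a5 a6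
  exact h1 (σ u) a6 σ u Φ a1 a2 rfl ⟨a3, a4⟩ (a5 _ B hB hBP)

private theorem GL_d1_const_smul {σ : ℂ × ℂ → Fin (N + 1) → ℂ} {p : ℂ × ℂ} (h : AnalyticAt ℂ σ p) (c : ℂ) :
    d1 (fun u => c • σ u) p = c • d1 σ p := by
  unfold d1
  rw [fderiv_fun_const_smul h.differentiableAt]
  rfl

private theorem GL_d2_const_smul {σ : ℂ × ℂ → Fin (N + 1) → ℂ} {p : ℂ × ℂ} (h : AnalyticAt ℂ σ p) (c : ℂ) :
    d2 (fun u => c • σ u) p = c • d2 σ p := by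
  unfold d2
  rw [fderiv_fun_const_smul h.differentiableAt]
  rfl

private theorem GL_jac_id (p : ℂ × ℂ) : jac (fun u => u) p = 1 := by
  have e1 : fderiv ℂ (fun v : ℂ × ℂ => v.1) p = ContinuousLinearMap.fst ℂ ℂ ℂ := fderiv_fst
  have e2 : fderiv ℂ (fun v : ℂ × ℂ => v.2) p = ContinuousLinearMap.snd ℂ ℂ ℂ := fderiv_snd
  simp only [jac, dx, dy]
  rw [e1, e2]
  simp

theorem isForm_omK (hKP : K ⊆ cone P) (hKs : ∀ x ∈ K, ∀ c : ℂ, c ≠ 0 → c • x ∈ K)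
    (hKo : ∀ x ∈ K, ∀ᶠ y in 𝓝 x, (∀ Q ∈ P, eval y Q = 0) → y ∈ K) (hP : ∀ p ∈ P, ∀ n, homogeneousComponent n p ∈ P) (hA : A.IsHomogeneous a)
    (hB : B.IsHomogeneous (a + 3 * M + 1)) (hBP : B ∉ P) (hsm : ∀ x ∈ K, ∃ t σ, CChart P x t σ)
    (hext : ∀ x ∈ K, ∀ t σ, CChart P x t σ → ∃ Φ, Ext M t₀ A B σ Φ 0)
    {Om : (Fin (N + 1) → ℂ) → (Fin (N + 1) → ℂ) → (Fin (N + 1) → ℂ) → ℂ}
    (h1 : ∀ x ∈ K, ∀ (φ : ℂ × ℂ → Fin (N + 1) → ℂ) (p : ℂ × ℂ) (Φ : ℂ × ℂ → ℂ), AnalyticAt ℂ φ p →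
        (∀ᶠ u in 𝓝 p, ∀ Q ∈ P, eval (φ u) Q = 0) → φ p = x → Ext M t₀ A B φ Φ p →
        (¬ ∀ᶠ u in 𝓝 p, eval (φ u) B = 0) → Om x (d1 φ p) (d2 φ p) = Φ p)
    (h2 : ∀ x ∈ K, ∃ (t : Fin 3 → Fin (N + 1)) (C : ℂ), ∀ v w, Om x v w = C * D3 t x v w ^ M) :
    IsForm K M 1 Om := by
  -- the rules for all vectors
  have r1 : ∀ x ∈ K, ∀ v w : Fin (N + 1) → ℂ, ∀ α β : ℂ,
      Om x (v + α • x) (w + β • x) = Om x v w := by
    intro x hx v w α β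
    obtain ⟨t, C, hC⟩ := h2 x hx
    rw [hC, hC, D3_add_smul]
  have r2 : ∀ x ∈ K, ∀ v w : Fin (N + 1) → ℂ, ∀ α β γ δ : ℂ,
      Om x (α • v + β • w) (γ • v + δ • w) = (α * δ - β * γ) ^ M * Om x v w := by
    intro x hx v w α β γ δ
    obtain ⟨t, C, hC⟩ := h2 x hx
    rw [hC, hC, D3_det, mul_pow]
    ring
  have hscale : ∀ x ∈ K, ∀ v ∈ Tan K x, ∀ w ∈ Tan K x, ∀ c : ℂ, c ≠ 0 →
      c ^ 1 * Om (c • x) (c • v) (c • w) = Om x v w := by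
    intro x hx v hv w hw c hc
    obtain ⟨t, σ, hch⟩ := hsm x hx
    obtain ⟨Φ, hΦ⟩ := hext x hx t σ hch
    obtain ⟨α, β, e, hv'⟩ := hch.tan (GLK_tan hKP hv)
    obtain ⟨γ, δ, e', hw'⟩ := hch.tan (GLK_tan hKP hw)
    have hcx : c • x ∈ K := hKs x hx c hc
    have k1 : Om x (d1 σ 0) (d2 σ 0) = Φ 0 := by
      have := (GL_star hKo hB hBP h1 hx hch hΦ).self_of_nhds
      rwa [hch.zero] at this
    have hσ' : AnalyticAt ℂ (fun u => c • σ u) 0 := by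
      show AnalyticAt ℂ (c • σ) 0
      exact hch.an.const_smul
    have k2 : Om (c • x) (c • d1 σ 0) (c • d2 σ 0) = c⁻¹ * Φ 0 := by
      have hE : Ext M t₀ A B (fun u => c • σ u) (fun u => c⁻¹ * jac (fun u => u) u ^ M * Φ u) 0 :=
        Ext.comp (c := fun _ => c) (κ := fun u => u) hA hB analyticAt_const hc analyticAt_id
          hch.an hΦ (Eventually.of_forall fun _ => rfl)
      have hm : ∀ᶠ u in 𝓝 (0 : ℂ × ℂ), ∀ Q ∈ P, eval (c • σ u) Q = 0 := by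
        filter_upwards [hch.mem_cone] with u hu
        exact (cone_smul hP hu hc).2
      have hn : ¬ ∀ᶠ u in 𝓝 (0 : ℂ × ℂ), eval (c • σ u) B = 0 := by
        intro hall
        apply hch.nd _ B hB hBP
        filter_upwards [hall] with u hu
        rw [GL_eval_smul hB] at hu
        exact (mul_eq_zero.1 hu).resolve_left (pow_ne_zero _ hc)
      have h3 := h1 (c • x) hcx (fun u => c • σ u) 0 _ hσ' hm (by rw [hch.zero]) hE hn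
      rw [GL_d1_const_smul hch.an, GL_d2_const_smul hch.an] at h3
      rw [h3, GL_jac_id, one_pow, mul_one]
    have hv2 : c • v = (α • (c • d1 σ 0) + β • (c • d2 σ 0)) + e • (c • x) := by
      rw [hv']
      module
    have hw2 : c • w = (γ • (c • d1 σ 0) + δ • (c • d2 σ 0)) + e' • (c • x) := by
      rw [hw']
      module
    rw [hv2, hw2, r1 _ hcx, r2 _ hcx, k2, hv', hw', r1 _ hx, r2 _ hx, k1]
    field_simp
  refine ⟨fun x hx v _ w _ α β => r1 x hx v w α β, fun x hx v _ w _ α β γ δ => r2 x hx v w α β γ δ,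
    hscale, ?_⟩
  intro φ p hφ hφX
  have hx : φ p ∈ K := hφX.self_of_nhds
  obtain ⟨t, σ, hch⟩ := hsm (φ p) hx
  obtain ⟨Φ, hΦ⟩ := hext (φ p) hx t σ hch
  have hφP : ∀ᶠ u in 𝓝 p, ∀ Q ∈ P, eval (φ u) Q = 0 := hφX.mono fun u hu => (hKP hu).2
  obtain ⟨κ, c, hκ, hc, hκ0, hc1, he⟩ := hch.param hφ rfl hφP
  have hσ : AnalyticAt ℂ σ (κ p) := by
    rw [hκ0]
    exact hch.an
  have hΦκ : AnalyticAt ℂ Φ (κ p) := by
    rw [hκ0]
    exact hΦ.1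
  have hc0 : c p ≠ 0 := by
    rw [hc1]
    exact one_ne_zero
  have hκt : Tendsto κ (𝓝 p) (𝓝 0) := by
    have := hκ.continuousAt.tendsto
    rwa [hκ0] at this
  have hF : AnalyticAt ℂ (fun u => jac κ u ^ M * ((c u)⁻¹ * Φ (κ u))) p :=
    ((analyticAt_jac hκ).pow M).mul ((hc.inv hc0).mul (hΦκ.comp hκ))
  refine hF.congr ?_
  filter_upwards [he, d1_smul_comp hc hκ hσ he, d2_smul_comp hc hκ hσ he,
    hc.continuousAt.eventually_ne hc0, hκt.eventually (GLK_mem hKo hx hch),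
    hκt.eventually (GL_star hKo hB hBP h1 hx hch hΦ), hκt.eventually hch.an.eventually_analyticAt,
    hκt.eventually (GLK_mem hKo hx hch).eventually_nhds] with u e1 e2 e3 e4 e5 e6 e7 e8
  have hcy : c u • σ (κ u) ∈ K := hKs _ e5 _ e4
  have ht1 : d1 σ (κ u) ∈ Tan K (σ (κ u)) := tan_d1 e7 e8
  have ht2 : d2 σ (κ u) ∈ Tan K (σ (κ u)) := tan_d2 e7 e8
  have hs := hscale _ e5 _ ht1 _ ht2 (c u) e4
  rw [pow_one, e6] at hs
  show jac κ u ^ M * ((c u)⁻¹ * Φ (κ u)) = Om (φ u) (d1 φ u) (d2 φ u)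
  have f1 : d1 φ u = (dx (fun v => (κ v).1) u • (c u • d1 σ (κ u)) +
      dx (fun v => (κ v).2) u • (c u • d2 σ (κ u))) + (dx c u / c u) • (c u • σ (κ u)) := by
    rw [e2, smul_smul (dx c u / c u), div_mul_cancel₀ _ e4]
    module
  have f2 : d2 φ u = (dy (fun v => (κ v).1) u • (c u • d1 σ (κ u)) +
      dy (fun v => (κ v).2) u • (c u • d2 σ (κ u))) + (dy c u / c u) • (c u • σ (κ u)) := by
    rw [e3, smul_smul (dy c u / c u), div_mul_cancel₀ _ e4]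
    module
  rw [f1, f2, e1, r1 _ hcy, r2 _ hcy, ← hs]
  unfold jac
  rw [inv_mul_cancel_left₀ e4]
  ring

end Pool.Agent.H68.KR
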