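import Mathlib

/-!
# KR CB1: a jointly analytic function as an analytic family of functions on a compact set

`S ⊆ ℂ` compact, `f : ℂ × ℂ → ℂ` analytic at all points `(0, ζ)`, `ζ ∈ S`.  Then `x ↦ f (x, ·)` is an analytic map
from a neighbourhood of `0` into the Banach space `C(S, ℂ)`.

Proof.  By compactness of `S` (tube lemma: `generalized_tube_lemma` or `IsCompact.induction_on`/finite cover, the set
`{p | AnalyticAt ℂ f p}` is open: `isOpen_analyticAt`) there is `r > 0` such that `f` is analytic at all `(x, ζ)` with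
`|x| < 2 r`, `ζ ∈ S`.  Put `Φ x = ⟨fun ζ => f (x, ζ), _⟩` for `|x| < 2 r` (continuous), `0` otherwise, and in the same
way `Ψ x ζ = ∂f/∂x (x, ζ) = fderiv ℂ f (x, ζ) (1, 0)`.  It is enough (`DifferentiableOn.analyticAt`, one complex
variable, Banach space valued) to prove `HasDerivAt Φ (Ψ x) x` for `|x| < r`.  Let `ε > 0`.  `∂f/∂x` is uniformly
continuous on the compact set `closedBall 0 r ×ˢ S`, moreover continuous near it; choose `δ` such that
`‖∂f/∂x (x + h, ζ) - ∂f/∂x (x, ζ)‖ ≤ ε` for `|h| ≤ δ` and all `ζ ∈ S` (`|x + h| < 2 r`; take the compact set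
`closedBall x δ₀ ×ˢ S`, `IsCompact.uniformContinuousOn_of_continuous`).  The function
`g (s) = f (s, ζ) - s * ∂f/∂x (x, ζ)` has `‖g' (s)‖ ≤ ε` for `|s - x| ≤ δ`, so by the mean value inequality
(`Convex.norm_image_sub_le_of_norm_hasDerivWithin_le`, `convex_ball`)
`‖f (x + h, ζ) - f (x, ζ) - h ∂f/∂x (x, ζ)‖ ≤ ε |h|` for all `ζ ∈ S` and `|h| < δ`, that is
`‖Φ (x + h) - Φ x - h • Ψ x‖ ≤ ε |h|` (`ContinuousMap.norm_le`), which is `hasDerivAt_iff_isLittleO` /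
`hasDerivAt_iff_isLittleO_nhds_zero`.

(Another possible proof: composition with `f` is an analytic map `C(S, ℂ × ℂ) → C(S, ℂ)`.)
-/

set_option autoImplicit false

open Topology Filter Metric

noncomputable section

namespace Pool.Agent.H68.KR

open scoped Classical in
/-- The restriction of a function to `S` as a continuous map (`0` if it is not continuous). -/
private def CB1_restr (S : Set ℂ) (g : ℂ → ℂ) : C(S, ℂ) :=
  if h : Continuous fun ζ : S => g (ζ : ℂ) then ⟨fun ζ : S => g (ζ : ℂ), h⟩ else 0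

private theorem CB1_restr_apply {S : Set ℂ} {g : ℂ → ℂ} (h : ∀ ζ ∈ S, ContinuousAt g ζ) (ζ : S) :
    CB1_restr S g ζ = g (ζ : ℂ) := by
  have h1 : Continuous fun ζ : S => g (ζ : ℂ) := by
    rw [continuous_iff_continuousAt]
    intro z
    exact ContinuousAt.comp (h z z.2) continuous_subtype_val.continuousAt
  rw [CB1_restr, dif_pos h1]
  rfl

private theorem CB1_hasDerivAt {f : ℂ × ℂ → ℂ} {x ζ : ℂ} (h : AnalyticAt ℂ f (x, ζ)) :
    HasDerivAt (fun s => f (s, ζ)) (fderiv ℂ f (x, ζ) (1, 0)) x := by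
  have h1 : HasDerivAt (fun s : ℂ => (s, ζ)) ((1 : ℂ), (0 : ℂ)) x :=
    (hasDerivAt_id x).prodMk (hasDerivAt_const x ζ)
  have h2 : HasFDerivAt f (fderiv ℂ f (x, ζ)) (x, ζ) := h.differentiableAt.hasFDerivAt
  exact h2.comp_hasDerivAt x h1

private theorem CB1_continuousAt {f : ℂ × ℂ → ℂ} {p : ℂ × ℂ} (h : AnalyticAt ℂ f p) :
    ContinuousAt (fun q : ℂ × ℂ => fderiv ℂ f q (1, 0)) p := by
  have h1 : ContinuousAt (fderiv ℂ f) p := h.fderiv.continuousAt
  exact h1.clm_apply continuousAt_const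

private theorem CB1_deriv {S : Set ℂ} (hS : IsCompact S) [CompactSpace S] {f : ℂ × ℂ → ℂ} {x : ℂ}
    (hx : ∀ ζ ∈ S, AnalyticAt ℂ f (x, ζ)) :
    HasDerivAt (fun s : ℂ => CB1_restr S fun ζ => f (s, ζ))
      (CB1_restr S fun ζ => fderiv ℂ f (x, ζ) (1, 0)) x := by
  have hcont : ∀ y : ℂ, (∀ ζ ∈ S, AnalyticAt ℂ f (y, ζ)) → ∀ ζ ∈ S,
      ContinuousAt (fun z => f (y, z)) ζ := by
    intro y hy ζ hζ
    exact ContinuousAt.comp (f := fun z : ℂ => (y, z)) (hy ζ hζ).continuousAt (by fun_prop)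
  have hcont' : ∀ ζ ∈ S, ContinuousAt (fun z => fderiv ℂ f (x, z) (1, 0)) ζ := by
    intro ζ hζ
    exact ContinuousAt.comp (f := fun z : ℂ => (x, z)) (CB1_continuousAt (hx ζ hζ)) (by fun_prop)
  rw [hasDerivAt_iff_isLittleO, Asymptotics.isLittleO_iff]
  intro c hc
  have h1 : ∀ᶠ y in 𝓝 x, ∀ ζ ∈ S, AnalyticAt ℂ f (y, ζ) :=
    hS.eventually_forall_of_forall_eventually fun ζ hζ => (hx ζ hζ).eventually_analyticAt
  have h2 : ∀ᶠ y in 𝓝 x, ∀ ζ ∈ S,
      ‖fderiv ℂ f (y, ζ) (1, 0) - fderiv ℂ f (x, ζ) (1, 0)‖ < c := by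
    refine hS.eventually_forall_of_forall_eventually
      (P := fun y ζ => ‖fderiv ℂ f (y, ζ) (1, 0) - fderiv ℂ f (x, ζ) (1, 0)‖ < c) fun ζ hζ => ?_
    have h3 : ContinuousAt (fun q : ℂ × ℂ => fderiv ℂ f (q.1, q.2) (1, 0)) (x, ζ) :=
      CB1_continuousAt (hx ζ hζ)
    have h4 : ContinuousAt (fun q : ℂ × ℂ => fderiv ℂ f (x, q.2) (1, 0)) (x, ζ) :=
      ContinuousAt.comp (f := fun q : ℂ × ℂ => (x, q.2))
        (g := fun q : ℂ × ℂ => fderiv ℂ f q (1, 0)) (CB1_continuousAt (hx ζ hζ)) (by fun_prop)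
    have h5 := (h3.sub h4).norm
    refine h5.eventually_lt continuousAt_const ?_
    simpa using hc
  obtain ⟨δ, hδ, hb⟩ := Metric.eventually_nhds_iff_ball.1 (h1.and h2)
  filter_upwards [Metric.ball_mem_nhds x hδ] with y hy
  rw [ContinuousMap.norm_le _ (by positivity)]
  intro ζ
  have h6 : ∀ s ∈ Metric.ball x δ, HasDerivWithinAt
      (fun s => f (s, (ζ : ℂ)) - s * fderiv ℂ f (x, (ζ : ℂ)) (1, 0))
      (fderiv ℂ f (s, (ζ : ℂ)) (1, 0) - fderiv ℂ f (x, (ζ : ℂ)) (1, 0)) (Metric.ball x δ) s := by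
    intro s hs
    have h7 := CB1_hasDerivAt ((hb s hs).1 ζ ζ.2)
    have h8 : HasDerivAt (fun s : ℂ => s * fderiv ℂ f (x, (ζ : ℂ)) (1, 0))
        (1 * fderiv ℂ f (x, (ζ : ℂ)) (1, 0)) s := (hasDerivAt_id s).mul_const _
    rw [one_mul] at h8
    exact (h7.sub h8).hasDerivWithinAt
  have h9 := (convex_ball x δ).norm_image_sub_le_of_norm_hasDerivWithin_le h6
    (fun s hs => ((hb s hs).2 ζ ζ.2).le) (Metric.mem_ball_self hδ) hy
  have h10 : (CB1_restr S (fun ζ => f (y, ζ)) - CB1_restr S (fun ζ => f (x, ζ)) -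
      (y - x) • CB1_restr S fun ζ => fderiv ℂ f (x, ζ) (1, 0)) ζ =
      f (y, (ζ : ℂ)) - y * fderiv ℂ f (x, (ζ : ℂ)) (1, 0) -
        (f (x, (ζ : ℂ)) - x * fderiv ℂ f (x, (ζ : ℂ)) (1, 0)) := by
    rw [ContinuousMap.sub_apply, ContinuousMap.sub_apply, ContinuousMap.smul_apply,
      CB1_restr_apply (hcont y (hb y hy).1), CB1_restr_apply (hcont x hx),
      CB1_restr_apply hcont', smul_eq_mul]
    ring
  rw [h10]
  exact h9

theorem exists_family {S : Set ℂ} (hS : IsCompact S) [CompactSpace S] {f : ℂ × ℂ → ℂ}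
    (hf : ∀ ζ ∈ S, AnalyticAt ℂ f (0, ζ)) :
    ∃ Φ : ℂ → C(S, ℂ), AnalyticAt ℂ Φ 0 ∧ ∀ᶠ x in 𝓝 (0 : ℂ), ∀ ζ : S, Φ x ζ = f (x, (ζ : ℂ)) := by
  have h1 : ∀ᶠ y in 𝓝 (0 : ℂ), ∀ ζ ∈ S, AnalyticAt ℂ f (y, ζ) :=
    hS.eventually_forall_of_forall_eventually fun ζ hζ => (hf ζ hζ).eventually_analyticAt
  refine ⟨fun s : ℂ => CB1_restr S fun ζ => f (s, ζ), ?_, ?_⟩
  · rw [Complex.analyticAt_iff_eventually_differentiableAt]
    filter_upwards [h1] with y hy
    exact (CB1_deriv hS hy).differentiableAt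
  · filter_upwards [h1] with y hy ζ
    refine CB1_restr_apply (g := fun z => f (y, z)) (fun z hz => ?_) ζ
    exact ContinuousAt.comp (f := fun z : ℂ => (y, z)) (hy z hz).continuousAt (by fun_prop)

end Pool.Agent.H68.KR
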