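import Pool.Agent.H68.KR.CB1

/-!
# KR CB2: Cauchy's integral with an analytic parameter

`A, B` are analytic at the points `(0, ζ)`, `|ζ| = ρ`, and `B (0, ζ) ≠ 0` there.  Let `S = sphere 0 ρ` (compact).

* `exists_functional`: `I g = (2πi)⁻¹ ∮ g (ζ) dζ` is a continuous linear functional of `C(S, ℂ)`: it is
  `(2πi)⁻¹ • ∫ θ in 0..2π, deriv (circleMap 0 ρ) θ * g (circleMap 0 ρ θ)` with `circleMap 0 ρ θ ∈ S`
  (`circleMap_mem_sphere`), linear, and of norm `≤ ρ` (`intervalIntegral.norm_integral_le_of_norm_le_const`),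
  `LinearMap.mkContinuous`.  For `h : ℂ → ℂ` with `g ζ = h ζ` on `S`: `I g = (2πi)⁻¹ ∮ h`.
* `exists_kernel`: for `|y₀| < ρ` there is `κ : ℂ → C(S, ℂ)` analytic at `y₀` with `κ y ζ = (ζ - y)⁻¹` for `y` near
  `y₀`: `κ y = Ring.inverse (ι - y • 1)` with `ι ζ = ζ`; `ι - y₀ • 1` is a unit of the Banach algebra `C(S, ℂ)`
  (no zero: `ContinuousMap.isUnit_iff_forall_ne_zero`), `analyticAt_inverse`, and `Ring.inverse` of a unit is the
  pointwise inverse.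
* `exists_cauchy`: `𝓐, 𝓑 : ℂ → C(S, ℂ)` from `exists_family`, `𝓑 0` is a unit, so `x ↦ Ring.inverse (𝓑 x)` is analytic
  at `0`, with the values `1 / B (x, ζ)` for `x` near `0` (units are open).  One fixed function
  `κ y = Ring.inverse (ι - y • 1)`.  `Φ (x, y) = I (𝓐 x * Ring.inverse (𝓑 x) * κ y)` is analytic at `(0, y)` for
  `|y| < ρ` (compositions with `Prod.fst`, `Prod.snd`, product in a Banach algebra, continuous linear `I`).
  If `A (x, ζ) = B (x, ζ) q (ζ)` on `S`, then the function in `I` is `ζ ↦ q ζ / (ζ - y)`, so `Φ (x, y) = q y` by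
  Cauchy's formula (`DiffContOnCl.two_pi_i_inv_smul_circleIntegral_sub_inv_smul` or
  `Complex.two_pi_I_inv_smul_circleIntegral_sub_inv_smul_of_differentiable_on_off_countable`).
-/

set_option autoImplicit false

open Topology Filter Metric

noncomputable section

namespace Pool.Agent.H68.KR

private theorem CB2_inverse_apply {S : Set ℂ} [CompactSpace S] {u : C(S, ℂ)} (hu : IsUnit u) (ζ : S) :
    Ring.inverse u ζ = (u ζ)⁻¹ := by
  have h1 : Ring.inverse u * u = 1 := Ring.inverse_mul_cancel u hu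
  have h2 : Ring.inverse u ζ * u ζ = 1 := by
    have h3 := DFunLike.congr_fun h1 ζ
    simpa using h3
  exact eq_inv_of_mul_eq_one_left h2

private theorem CB2_exists_functional {ρ : ℝ} (hρ : 0 < ρ) [CompactSpace (sphere (0 : ℂ) ρ)] :
    ∃ J : C(sphere (0 : ℂ) ρ, ℂ) →L[ℂ] ℂ, ∀ (g : C(sphere (0 : ℂ) ρ, ℂ)) (h : ℂ → ℂ),
      (∀ ζ : sphere (0 : ℂ) ρ, g ζ = h ζ) →
      J g = (2 * Real.pi * Complex.I : ℂ)⁻¹ • ∮ ζ in C(0, ρ), h ζ := by
  set c : ℝ → sphere (0 : ℂ) ρ := fun θ => ⟨circleMap 0 ρ θ, circleMap_mem_sphere 0 hρ.le θ⟩ with hc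
  have hcc : Continuous c := (continuous_circleMap 0 ρ).subtype_mk _
  have hdc : Continuous fun θ => deriv (circleMap 0 ρ) θ := by
    simp only [deriv_circleMap]
    exact (continuous_circleMap 0 ρ).mul continuous_const
  have hint : ∀ g : C(sphere (0 : ℂ) ρ, ℂ), IntervalIntegrable
      (fun θ => deriv (circleMap 0 ρ) θ • g (c θ)) MeasureTheory.volume 0 (2 * Real.pi) := fun g =>
    (hdc.smul (g.continuous.comp hcc)).intervalIntegrable _ _
  set L : C(sphere (0 : ℂ) ρ, ℂ) →ₗ[ℂ] ℂ :=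
    { toFun := fun g => ∫ θ in (0 : ℝ)..2 * Real.pi, deriv (circleMap 0 ρ) θ • g (c θ)
      map_add' := fun g g' => by
        rw [← intervalIntegral.integral_add (hint g) (hint g')]
        refine intervalIntegral.integral_congr fun θ _ => ?_
        simp only [ContinuousMap.add_apply, smul_add]
      map_smul' := fun a g => by
        rw [RingHom.id_apply, ← intervalIntegral.integral_smul]
        refine intervalIntegral.integral_congr fun θ _ => ?_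
        simp only [ContinuousMap.smul_apply, smul_eq_mul]
        ring } with hL
  have hbd : ∀ g, ‖L g‖ ≤ (ρ * |2 * Real.pi - 0|) * ‖g‖ := by
    intro g
    have h1 : ‖∫ θ in (0 : ℝ)..2 * Real.pi, deriv (circleMap 0 ρ) θ • g (c θ)‖ ≤
        (ρ * ‖g‖) * |2 * Real.pi - 0| := by
      refine intervalIntegral.norm_integral_le_of_norm_le_const fun θ _ => ?_
      rw [norm_smul, deriv_circleMap, norm_mul, Complex.norm_I, mul_one, norm_circleMap_zero,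
        abs_of_pos hρ]
      exact mul_le_mul_of_nonneg_left (g.norm_coe_le_norm _) hρ.le
    have h2 : (ρ * |2 * Real.pi - 0|) * ‖g‖ = (ρ * ‖g‖) * |2 * Real.pi - 0| := by ring
    rw [h2]
    exact h1
  refine ⟨(2 * Real.pi * Complex.I : ℂ)⁻¹ • L.mkContinuous _ hbd, fun g h hgh => ?_⟩
  have h1 : L g = ∮ ζ in C(0, ρ), h ζ := by
    show (∫ θ in (0 : ℝ)..2 * Real.pi, deriv (circleMap 0 ρ) θ • g (c θ)) = _
    unfold circleIntegral
    refine intervalIntegral.integral_congr fun θ _ => ?_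
    exact congrArg (fun w => deriv (circleMap 0 ρ) θ • w) (hgh (c θ))
  rw [_root_.smul_apply, LinearMap.mkContinuous_apply, h1]

theorem exists_cauchy {ρ : ℝ} (hρ : 0 < ρ) {A B : ℂ × ℂ → ℂ}
    (hA : ∀ ζ ∈ sphere (0 : ℂ) ρ, AnalyticAt ℂ A (0, ζ))
    (hB : ∀ ζ ∈ sphere (0 : ℂ) ρ, AnalyticAt ℂ B (0, ζ))
    (hB0 : ∀ ζ ∈ sphere (0 : ℂ) ρ, B (0, ζ) ≠ 0) :
    ∃ Φ : ℂ × ℂ → ℂ, (∀ y ∈ ball (0 : ℂ) ρ, AnalyticAt ℂ Φ (0, y)) ∧
      ∀ᶠ x in 𝓝 (0 : ℂ), ∀ q : ℂ → ℂ, (∀ y ∈ closedBall (0 : ℂ) ρ, AnalyticAt ℂ q y) →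
        (∀ y ∈ sphere (0 : ℂ) ρ, A (x, y) = B (x, y) * q y) →
        ∀ y ∈ ball (0 : ℂ) ρ, Φ (x, y) = q y := by
  haveI hcs : CompactSpace (sphere (0 : ℂ) ρ) := isCompact_iff_compactSpace.1 (isCompact_sphere _ _)
  obtain ⟨J, hJ⟩ := CB2_exists_functional hρ
  obtain ⟨𝓐, hA1, hA2⟩ := exists_family (isCompact_sphere (0 : ℂ) ρ) hA
  obtain ⟨𝓑, hB1, hB2⟩ := exists_family (isCompact_sphere (0 : ℂ) ρ) hB
  set ι : C(sphere (0 : ℂ) ρ, ℂ) := ⟨fun ζ => (ζ : ℂ), continuous_subtype_val⟩ with hι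
  have hunit : IsUnit (𝓑 0) := by
    rw [ContinuousMap.isUnit_iff_forall_ne_zero]
    intro ζ
    rw [hB2.self_of_nhds ζ]
    exact hB0 _ ζ.2
  have hκunit : ∀ y ∈ ball (0 : ℂ) ρ, IsUnit (ι - y • (1 : C(sphere (0 : ℂ) ρ, ℂ))) := by
    intro y hy
    rw [ContinuousMap.isUnit_iff_forall_ne_zero]
    intro ζ h0
    have h1 : (ζ : ℂ) - y = 0 := by
      have h2 : (ι - y • (1 : C(sphere (0 : ℂ) ρ, ℂ))) ζ = (ζ : ℂ) - y := by
        simp [hι]
      rw [← h2]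
      exact h0
    have h3 : (ζ : ℂ) = y := sub_eq_zero.1 h1
    have h4 : ‖(ζ : ℂ)‖ = ρ := mem_sphere_zero_iff_norm.1 ζ.2
    have h5 : ‖y‖ < ρ := mem_ball_zero_iff.1 hy
    rw [h3] at h4
    linarith
  refine ⟨fun p => J (𝓐 p.1 * Ring.inverse (𝓑 p.1) *
    Ring.inverse (ι - p.2 • (1 : C(sphere (0 : ℂ) ρ, ℂ)))), ?_, ?_⟩
  · intro y hy
    have h1 : AnalyticAt ℂ (fun p : ℂ × ℂ => 𝓐 p.1) (0, y) :=
      AnalyticAt.comp (g := 𝓐) (f := Prod.fst) (x := ((0 : ℂ), y)) hA1 analyticAt_fst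
    have h2 : AnalyticAt ℂ (fun p : ℂ × ℂ => 𝓑 p.1) (0, y) :=
      AnalyticAt.comp (g := 𝓑) (f := Prod.fst) (x := ((0 : ℂ), y)) hB1 analyticAt_fst
    have h3 : AnalyticAt ℂ (Ring.inverse : C(sphere (0 : ℂ) ρ, ℂ) → _) (𝓑 0) :=
      analyticOnNhd_inverse (𝕜 := ℂ) (𝓑 0) hunit
    have h4 : AnalyticAt ℂ (fun p : ℂ × ℂ => Ring.inverse (𝓑 p.1)) (0, y) :=
      AnalyticAt.comp (g := Ring.inverse) (f := fun p : ℂ × ℂ => 𝓑 p.1) (x := ((0 : ℂ), y)) h3 h2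
    have h5 : AnalyticAt ℂ (fun p : ℂ × ℂ => ι - p.2 • (1 : C(sphere (0 : ℂ) ρ, ℂ))) (0, y) :=
      analyticAt_const.sub (analyticAt_snd.smul analyticAt_const)
    have h6 : AnalyticAt ℂ (Ring.inverse : C(sphere (0 : ℂ) ρ, ℂ) → _)
        (ι - y • (1 : C(sphere (0 : ℂ) ρ, ℂ))) :=
      analyticOnNhd_inverse (𝕜 := ℂ) _ (hκunit y hy)
    have h7 : AnalyticAt ℂ (fun p : ℂ × ℂ => Ring.inverse (ι - p.2 • (1 : C(sphere (0 : ℂ) ρ, ℂ))))
        (0, y) :=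
      AnalyticAt.comp (g := Ring.inverse)
        (f := fun p : ℂ × ℂ => ι - p.2 • (1 : C(sphere (0 : ℂ) ρ, ℂ))) (x := ((0 : ℂ), y)) h6 h5
    exact (J.analyticAt _).comp ((h1.mul h4).mul h7)
  · have hopen : ∀ᶠ x in 𝓝 (0 : ℂ), IsUnit (𝓑 x) :=
      hB1.continuousAt.eventually (Units.isOpen.mem_nhds hunit)
    filter_upwards [hA2, hB2, hopen] with x hx1 hx2 hx3 q hq hAB y hy
    have hne := (ContinuousMap.isUnit_iff_forall_ne_zero _).1 hx3
    show J (𝓐 x * Ring.inverse (𝓑 x) * Ring.inverse (ι - y • (1 : C(sphere (0 : ℂ) ρ, ℂ)))) = q y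
    rw [hJ _ (fun ζ => (ζ - y)⁻¹ • q ζ)]
    · have hd : DifferentiableOn ℂ q (closedBall 0 ρ) := fun z hz =>
        (hq z hz).differentiableAt.differentiableWithinAt
      exact (hd.mono closure_ball_subset_closedBall).diffContOnCl.two_pi_i_inv_smul_circleIntegral_sub_inv_smul
        hy
    · intro ζ
      rw [ContinuousMap.mul_apply, ContinuousMap.mul_apply, CB2_inverse_apply hx3,
        CB2_inverse_apply (hκunit y hy), hx1, hx2, hAB _ ζ.2]
      have h1 : B (x, (ζ : ℂ)) ≠ 0 := by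
        rw [← hx2 ζ]
        exact hne ζ
      have h2 : (ι - y • (1 : C(sphere (0 : ℂ) ρ, ℂ))) ζ = (ζ : ℂ) - y := by
        simp [hι]
      rw [h2, smul_eq_mul]
      field_simp

end Pool.Agent.H68.KR
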