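import Pool.Agent.H68.KR.CB2

/-!
# KR CB3: extension of a quotient which has no poles on many slices

* `exists_quotient`: for every `y ∈ U` choose `q_y`; put `q y = q_y y`.  Near `y` (punctured neighbourhood) `b z ≠ 0`
  (isolated zeros: `AnalyticAt.eventually_eq_zero_or_eventually_ne_zero`), so
  `q_y z = a z / b z = q_z z = q z`; hence `q = q_y` near `y` (also at `y`), analytic, and `a y = b y * q y`.
* `extend_of_slices`: Let `A, B` be analytic on the polydisc `|x| < r, |y| < r` (`ℂ × ℂ` has the sup norm, so it is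
  `ball 0 r`).  `B (0, ·)` is not `0` near `0`: choose `0 < ρ < min r ρ₀` (`ρ₀` the radius of `h`) with `B (0, y) ≠ 0`
  for `0 < |y| ≤ ρ`, so on `|y| = ρ`.  Let `Φ` be given by `exists_cauchy`.  For `x` near `0`: `|x| < r`,
  `B (x, ζ) ≠ 0` for `|ζ| = ρ` (compactness: tube lemma), and the statement of `exists_cauchy`.  For those `x` with
  `LD A B x y` for all `|y| < ρ₀`: let `ρ' = min r ρ₀ > ρ`; `B (x, ·)` is analytic on the ball of radius `ρ'` and not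
  identically `0`, so not `0` near any point of it (identity theorem,
  `AnalyticOnNhd.eqOn_zero_of_preconnected_of_eventuallyEq_zero`); `exists_quotient` on `U = ball 0 ρ'` gives `q`, and
  `Φ (x, y) = q y`, hence `A (x, y) = B (x, y) Φ (x, y)` for `|y| < ρ`.
  Now let `r₁ ≤ ρ` be such that `Φ` is analytic on `|x| < r₁, |y| < r₁` (as `Φ` is analytic at `0`).  For fixed
  `|y| < r₁` the function `x ↦ A (x, y) - B (x, y) Φ (x, y)` is analytic on `|x| < r₁` and frequently `0` near `0`,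
  so it is `0` (`AnalyticOnNhd.eqOn_zero_of_preconnected_of_frequently_eq_zero`).
-/

set_option autoImplicit false

open Topology Filter Metric

noncomputable section

namespace Pool.Agent.H68.KR

/-- On the slice through `x` the function `A` is divisible by `B` near `y`. -/
def LD (A B : ℂ × ℂ → ℂ) (x y : ℂ) : Prop :=
  ∃ q : ℂ → ℂ, AnalyticAt ℂ q y ∧ ∀ᶠ z in 𝓝 y, A (x, z) = B (x, z) * q z

theorem exists_quotient {a b : ℂ → ℂ} {U : Set ℂ} (hU : IsOpen U) (hb : ∀ y ∈ U, AnalyticAt ℂ b y)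
    (hb0 : ∀ y ∈ U, ¬ ∀ᶠ z in 𝓝 y, b z = 0)
    (h : ∀ y ∈ U, ∃ q : ℂ → ℂ, AnalyticAt ℂ q y ∧ ∀ᶠ z in 𝓝 y, a z = b z * q z) :
    ∃ q : ℂ → ℂ, (∀ y ∈ U, AnalyticAt ℂ q y) ∧ ∀ y ∈ U, a y = b y * q y := by
  classical
  choose! Q hQa hQe using h
  refine ⟨fun y => Q y y, fun y hy => ?_, fun y hy => (hQe y hy).self_of_nhds⟩
  refine (hQa y hy).congr ?_
  have hb1 : ∀ᶠ z in 𝓝[≠] y, b z ≠ 0 :=
    ((hb y hy).eventually_eq_zero_or_eventually_ne_zero).resolve_left (hb0 y hy)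
  have h1 : ∀ᶠ z in 𝓝[≠] y, Q y z = Q z z := by
    filter_upwards [hb1, nhdsWithin_le_nhds (hQe y hy), nhdsWithin_le_nhds (hU.mem_nhds hy)] with z hz1 hz2 hz3
    have h3 := (hQe z hz3).self_of_nhds
    exact mul_left_cancel₀ hz1 (hz2.symm.trans h3)
  filter_upwards [eventually_nhdsWithin_iff.1 h1] with z hz
  by_cases hzy : z = y
  · rw [hzy]
  · exact hz hzy

/-- If `A / B` has no poles in a fixed disc for arbitrarily small `x ≠ 0`, then it is analytic at `0`. -/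
theorem extend_of_slices {A B : ℂ × ℂ → ℂ} (hA : AnalyticAt ℂ A 0) (hB : AnalyticAt ℂ B 0)
    (hB0 : ¬ ∀ᶠ y in 𝓝 (0 : ℂ), B (0, y) = 0) {ρ₀ : ℝ} (hρ₀ : 0 < ρ₀)
    (h : ∃ᶠ x in 𝓝[≠] (0 : ℂ), ∀ y ∈ ball (0 : ℂ) ρ₀, LD A B x y) :
    ∃ Φ : ℂ × ℂ → ℂ, AnalyticAt ℂ Φ 0 ∧ ∀ᶠ u in 𝓝 (0 : ℂ × ℂ), A u = B u * Φ u := by
  classical
  -- a polydisc on which both functions are analytic
  obtain ⟨r, hr, hAB⟩ := Metric.eventually_nhds_iff_ball.1 (hA.eventually_analyticAt.and hB.eventually_analyticAt)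
  have hmem : ∀ {s : ℝ} {x y : ℂ}, ‖x‖ < s → ‖y‖ < s → ((x, y) : ℂ × ℂ) ∈ ball (0 : ℂ × ℂ) s := by
    intro s x y hx hy
    rw [mem_ball_zero_iff, Prod.norm_def]
    exact max_lt hx hy
  have hslx : ∀ {F : ℂ × ℂ → ℂ} {x y : ℂ}, AnalyticAt ℂ F (x, y) → AnalyticAt ℂ (fun z => F (x, z)) y :=
    fun {F x y} hF => AnalyticAt.fun_comp (g := F) (f := fun z : ℂ => ((x, z) : ℂ × ℂ)) hF
      (analyticAt_const.prod analyticAt_id)
  have hsly : ∀ {F : ℂ × ℂ → ℂ} {x y : ℂ}, AnalyticAt ℂ F (x, y) → AnalyticAt ℂ (fun z => F (z, y)) x :=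
    fun {F x y} hF => AnalyticAt.fun_comp (g := F) (f := fun z : ℂ => ((z, y) : ℂ × ℂ)) hF
      (analyticAt_id.prod analyticAt_const)
  -- isolated zeros of the central slice
  have hb : AnalyticAt ℂ (fun y => B (0, y)) 0 := hslx hB
  have hb1 : ∀ᶠ y in 𝓝[≠] (0 : ℂ), B (0, y) ≠ 0 :=
    (hb.eventually_eq_zero_or_eventually_ne_zero).resolve_left hB0
  obtain ⟨ρ₁, hρ₁, hb2⟩ := Metric.eventually_nhds_iff_ball.1 (eventually_nhdsWithin_iff.1 hb1)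
  obtain ⟨R, hR, hRr, hRρ₀, hRρ₁⟩ : ∃ R : ℝ, 0 < R ∧ R ≤ r ∧ R ≤ ρ₀ ∧ R ≤ ρ₁ :=
    ⟨min r (min ρ₀ ρ₁), lt_min hr (lt_min hρ₀ hρ₁), min_le_left _ _,
      (min_le_right _ _).trans (min_le_left _ _), (min_le_right _ _).trans (min_le_right _ _)⟩
  obtain ⟨ρ, hρ, hρR⟩ : ∃ ρ : ℝ, 0 < ρ ∧ ρ < R := ⟨R / 2, by positivity, by linarith⟩
  have hsph : ∀ ζ ∈ sphere (0 : ℂ) ρ, ‖ζ‖ = ρ := fun ζ hζ => by simpa using hζ
  have hABs : ∀ ζ ∈ sphere (0 : ℂ) ρ, AnalyticAt ℂ A (0, ζ) ∧ AnalyticAt ℂ B (0, ζ) := fun ζ hζ =>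
    hAB _ (hmem (by simpa using hr) (by rw [hsph ζ hζ]; linarith))
  have hBs : ∀ ζ ∈ sphere (0 : ℂ) ρ, B (0, ζ) ≠ 0 := fun ζ hζ =>
    hb2 ζ (by rw [mem_ball_zero_iff, hsph ζ hζ]; linarith) (by
      intro h0
      have := hsph ζ hζ
      rw [h0, norm_zero] at this
      linarith)
  obtain ⟨Φ, hΦa, hΦe⟩ := exists_cauchy hρ (fun ζ hζ => (hABs ζ hζ).1) (fun ζ hζ => (hABs ζ hζ).2) hBs
  have h00 : ((0 : ℂ), (0 : ℂ)) = (0 : ℂ × ℂ) := rfl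
  have hΦ0 : AnalyticAt ℂ Φ 0 := h00 ▸ hΦa 0 (by simpa using hρ)
  refine ⟨Φ, hΦ0, ?_⟩
  -- a point of the circle
  obtain ⟨ζ₀, hζ₀⟩ : ∃ ζ₀ : ℂ, ‖ζ₀‖ = ρ := ⟨(ρ : ℂ), by rw [Complex.norm_real, Real.norm_eq_abs, abs_of_pos hρ]⟩
  have hζ₀s : ζ₀ ∈ sphere (0 : ℂ) ρ := by simpa using hζ₀
  have hBx : ∀ᶠ x in 𝓝 (0 : ℂ), B (x, ζ₀) ≠ 0 := by
    have h1 : ContinuousAt (fun x : ℂ => B (x, ζ₀)) 0 := (hsly (hABs ζ₀ hζ₀s).2).continuousAt
    exact h1.eventually_ne (hBs ζ₀ hζ₀s)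
  have hxr : ∀ᶠ x in 𝓝 (0 : ℂ), ‖x‖ < r := by
    filter_upwards [Metric.ball_mem_nhds (0 : ℂ) hr] with x hx
    simpa using hx
  -- the good slices
  have hgood : ∃ᶠ x in 𝓝[≠] (0 : ℂ), ∀ y ∈ ball (0 : ℂ) ρ, A (x, y) = B (x, y) * Φ (x, y) := by
    refine (h.and_eventually (nhdsWithin_le_nhds (hBx.and (hxr.and hΦe)))).mono ?_
    rintro x ⟨hx1, hx2, hx3, hx4⟩
    have hBa : ∀ y ∈ ball (0 : ℂ) R, AnalyticAt ℂ (fun z => B (x, z)) y := fun y hy =>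
      hslx (hAB _ (hmem hx3 (lt_of_lt_of_le (by simpa using hy) hRr))).2
    obtain ⟨q, hqa, hqe⟩ := exists_quotient (a := fun z => A (x, z)) (b := fun z => B (x, z))
      (U := ball (0 : ℂ) R) isOpen_ball hBa (fun y hy hz => by
        have h2 : Set.EqOn (fun z => B (x, z)) 0 (ball (0 : ℂ) R) :=
          AnalyticOnNhd.eqOn_zero_of_preconnected_of_eventuallyEq_zero hBa
            (convex_ball (0 : ℂ) R).isPreconnected hy hz
        exact hx2 (h2 (by rw [mem_ball_zero_iff, hζ₀]; exact hρR)))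
      (fun y hy => hx1 y (ball_subset_ball hRρ₀ hy))
    have h3 := hx4 q (fun y hy => hqa y (closedBall_subset_ball hρR hy))
      (fun y hy => hqe y (closedBall_subset_ball hρR (sphere_subset_closedBall hy)))
    intro y hy
    rw [h3 y hy]
    exact hqe y (ball_subset_ball hρR.le hy)
  -- analytic continuation in the first variable
  obtain ⟨r₂, hr₂, hΦb⟩ := Metric.eventually_nhds_iff_ball.1 hΦ0.eventually_analyticAt
  obtain ⟨r₁, hr₁, hr₁ρ, hr₁r, hr₁r₂⟩ : ∃ r₁ : ℝ, 0 < r₁ ∧ r₁ ≤ ρ ∧ r₁ ≤ r ∧ r₁ ≤ r₂ :=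
    ⟨min ρ (min r r₂), lt_min hρ (lt_min hr hr₂), min_le_left _ _,
      (min_le_right _ _).trans (min_le_left _ _), (min_le_right _ _).trans (min_le_right _ _)⟩
  filter_upwards [Metric.ball_mem_nhds (0 : ℂ × ℂ) hr₁] with u hu
  obtain ⟨x, y⟩ := u
  rw [mem_ball_zero_iff, Prod.norm_def] at hu
  have hx : ‖x‖ < r₁ := (le_max_left _ _).trans_lt hu
  have hy : ‖y‖ < r₁ := (le_max_right _ _).trans_lt hu
  have han : AnalyticOnNhd ℂ (fun z => A (z, y) - B (z, y) * Φ (z, y)) (ball (0 : ℂ) r₁) := by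
    intro z hz
    have hz' : ‖z‖ < r₁ := by simpa using hz
    have h1 := hAB _ (hmem (hz'.trans_le hr₁r) (hy.trans_le hr₁r))
    have h2 := hΦb _ (hmem (hz'.trans_le hr₁r₂) (hy.trans_le hr₁r₂))
    exact (hsly h1.1).sub ((hsly h1.2).mul (hsly h2))
  have hfr : ∃ᶠ z in 𝓝[≠] (0 : ℂ), A (z, y) - B (z, y) * Φ (z, y) = 0 :=
    hgood.mono fun z hz => sub_eq_zero.2 (hz y (by rw [mem_ball_zero_iff]; exact hy.trans_le hr₁ρ))
  have h0 := AnalyticOnNhd.eqOn_zero_of_preconnected_of_frequently_eq_zero han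
    (convex_ball (0 : ℂ) r₁).isPreconnected (by simpa using hr₁ : (0 : ℂ) ∈ ball (0 : ℂ) r₁) hfr
  exact sub_eq_zero.1 (h0 (by simpa using hx : x ∈ ball (0 : ℂ) r₁))

end Pool.Agent.H68.KR
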