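import Pool.Agent.H68.KR.CB3
import Pool.Agent.H68.KR.D2

/-!
# KR CB4: tools for the pole curve

* `exists_direction`: `B` analytic on `ball 0 r` (sup norm).  If for every `m : ℂ` the function `y ↦ B (m y, y)` is
  `0` near `0`, then for `|m| < 1` it is `0` for `|y| < r` (identity theorem).  So `B` vanishes on the open set
  `{(x, y) | |x| < |y| < r}` (`m = x / y`), which is not empty, hence on `ball 0 r`
  (`AnalyticOnNhd.eqOn_zero_of_preconnected_of_eventuallyEq_zero` in `ℂ × ℂ`).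
* `ld_of_vanish`: by `iterate_dy_slice` (valid at the point `(x, y)`) the function `a = A (x, ·)` has
  `iteratedDeriv i a y = 0` for `i < k`, and `b = B (x, ·)` has `iteratedDeriv i b y = 0` for `i < k`,
  `iteratedDeriv k b y ≠ 0`.  So `b z = (z - y)^k b₁ z`, `b₁ y ≠ 0` and `a z = (z - y)^k a₁ z`
  (`natCast_le_analyticOrderAt`, the relation of the order and the derivatives:
  `natCast_le_analyticOrderAt_iff_iteratedDeriv_eq_zero` or the Taylor series), `q = a₁ / b₁`.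
* `ld_of_ne_zero`: `q = A / B`.
* `exists_implicit`: implicit function theorem for `G : ℂ × ℂ → ℂ` analytic at `(x₁, y₁)`, `G (x₁, y₁) = 0`,
  `dy G (x₁, y₁) ≠ 0`: the map `F (x, y) = (x, G (x, y))` is analytic with invertible derivative at `(x₁, y₁)`
  (`(a, b) ↦ (a, G_x a + G_y b)`), so it has a local inverse which is analytic: e.g. `HasStrictFDerivAt` +
  `ContDiffAt.to_localInverse` with smoothness `ω` (`AnalyticAt.contDiffAt`, `ContDiffAt.analyticAt` for `n = ω`),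
  or `OpenPartialHomeomorph.analyticAt_symm`/`hasFPowerSeriesAt_symm`.  `c x = (F⁻¹ (x, 0)).2`.
-/

set_option autoImplicit false

open Topology Filter Metric

noncomputable section

namespace Pool.Agent.H68.KR

private lemma CB4_slice {B : ℂ × ℂ → ℂ} {x y : ℂ} (hB : AnalyticAt ℂ B (x, y)) :
    AnalyticAt ℂ (fun z => B (x, z)) y := by
  have h : AnalyticAt ℂ (fun z : ℂ => ((x, z) : ℂ × ℂ)) y := analyticAt_const.prod analyticAt_id
  exact AnalyticAt.comp (g := B) (f := fun z : ℂ => ((x, z) : ℂ × ℂ)) hB h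

theorem exists_direction {B : ℂ × ℂ → ℂ} (hB : AnalyticAt ℂ B 0)
    (h : ¬ ∀ᶠ u in 𝓝 (0 : ℂ × ℂ), B u = 0) :
    ∃ m : ℂ, ¬ ∀ᶠ y in 𝓝 (0 : ℂ), B (m * y, y) = 0 := by
  by_contra hcon
  push Not at hcon
  obtain ⟨r, hr, hBr⟩ := Metric.eventually_nhds_iff_ball.mp hB.eventually_analyticAt
  have key : ∀ x y : ℂ, ‖x‖ < ‖y‖ → ‖y‖ < r → B (x, y) = 0 := by
    intro x y hxy hy
    have hy0 : y ≠ 0 := by
      intro h0
      rw [h0, norm_zero] at hxy
      exact absurd hxy (not_lt.mpr (norm_nonneg x))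
    have hm : ‖x / y‖ < 1 := by
      rw [norm_div, div_lt_one (norm_pos_iff.mpr hy0)]
      exact hxy
    have han : AnalyticOnNhd ℂ (fun z : ℂ => B (x / y * z, z)) (ball 0 r) := by
      intro z hz
      have h1 : AnalyticAt ℂ (fun z : ℂ => ((x / y * z, z) : ℂ × ℂ)) z :=
        (analyticAt_const.mul analyticAt_id).prod analyticAt_id
      have h2 : ((x / y * z, z) : ℂ × ℂ) ∈ ball (0 : ℂ × ℂ) r := by
        rw [mem_ball_zero_iff] at hz ⊢
        rw [Prod.norm_mk, norm_mul]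
        refine max_lt (lt_of_le_of_lt ?_ hz) hz
        have := norm_nonneg z
        nlinarith
      exact AnalyticAt.comp (g := B) (f := fun z : ℂ => ((x / y * z, z) : ℂ × ℂ)) (hBr _ h2) h1
    have hz := han.eqOn_zero_of_preconnected_of_eventuallyEq_zero
      (convex_ball (0 : ℂ) r).isPreconnected (mem_ball_self hr) (hcon (x / y))
    have h3 := hz (mem_ball_zero_iff.mpr hy)
    simp only [Pi.zero_apply] at h3
    rwa [div_mul_cancel₀ _ hy0] at h3
  apply h
  have han : AnalyticOnNhd ℂ B (ball 0 r) := fun u hu => hBr u hu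
  have hr2 : ‖((r / 2 : ℝ) : ℂ)‖ = r / 2 := by
    rw [Complex.norm_real, Real.norm_of_nonneg (by linarith)]
  have hp : (((0 : ℂ), ((r / 2 : ℝ) : ℂ)) : ℂ × ℂ) ∈ ball (0 : ℂ × ℂ) r := by
    rw [mem_ball_zero_iff, Prod.norm_mk, norm_zero, hr2]
    exact max_lt hr (by linarith)
  have hev : B =ᶠ[𝓝 (((0 : ℂ), ((r / 2 : ℝ) : ℂ)) : ℂ × ℂ)] 0 := by
    have ho : IsOpen {u : ℂ × ℂ | ‖u.1‖ < ‖u.2‖ ∧ ‖u.2‖ < r} := by
      apply IsOpen.inter
      · exact isOpen_lt continuous_fst.norm continuous_snd.norm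
      · exact isOpen_lt continuous_snd.norm continuous_const
    have hm : (((0 : ℂ), ((r / 2 : ℝ) : ℂ)) : ℂ × ℂ) ∈
        {u : ℂ × ℂ | ‖u.1‖ < ‖u.2‖ ∧ ‖u.2‖ < r} := by
      refine ⟨?_, ?_⟩
      · show ‖(0 : ℂ)‖ < ‖((r / 2 : ℝ) : ℂ)‖
        rw [hr2, norm_zero]
        linarith
      · show ‖((r / 2 : ℝ) : ℂ)‖ < r
        rw [hr2]
        linarith
    filter_upwards [ho.mem_nhds hm] with u hu
    exact key u.1 u.2 hu.1 hu.2
  have hz := han.eqOn_zero_of_preconnected_of_eventuallyEq_zero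
    (convex_ball (0 : ℂ × ℂ) r).isPreconnected hp hev
  filter_upwards [ball_mem_nhds (0 : ℂ × ℂ) hr] with u hu
  exact hz hu

theorem ld_of_vanish {A B : ℂ × ℂ → ℂ} {x y : ℂ} (hA : AnalyticAt ℂ A (x, y))
    (hB : AnalyticAt ℂ B (x, y)) {k : ℕ} (h1 : ∀ i < k, (dy^[i] A) (x, y) = 0)
    (h2 : ∀ i < k, (dy^[i] B) (x, y) = 0) (h3 : (dy^[k] B) (x, y) ≠ 0) : LD A B x y := by
  have ha := CB4_slice hA
  have hb := CB4_slice hB
  have e1 : ∀ i < k, iteratedDeriv i (fun z => A (x, z)) y = 0 := by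
    intro i hi
    rw [← iterate_dy_slice hA i]
    exact h1 i hi
  have e2 : ∀ i < k, iteratedDeriv i (fun z => B (x, z)) y = 0 := by
    intro i hi
    rw [← iterate_dy_slice hB i]
    exact h2 i hi
  have e3 : iteratedDeriv k (fun z => B (x, z)) y ≠ 0 := by
    have := iterate_dy_slice hB k
    simp only at this
    rw [← this]
    exact h3
  have oa : (k : ℕ∞) ≤ analyticOrderAt (fun z => A (x, z)) y :=
    (natCast_le_analyticOrderAt_iff_iteratedDeriv_eq_zero ha).mpr e1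
  have ob : (k : ℕ∞) ≤ analyticOrderAt (fun z => B (x, z)) y :=
    (natCast_le_analyticOrderAt_iff_iteratedDeriv_eq_zero hb).mpr e2
  have ob' : ¬ ((k + 1 : ℕ) : ℕ∞) ≤ analyticOrderAt (fun z => B (x, z)) y := by
    intro hle
    exact e3 ((natCast_le_analyticOrderAt_iff_iteratedDeriv_eq_zero hb).mp hle k (Nat.lt_succ_self k))
  obtain ⟨a1, ha1, hea⟩ := (natCast_le_analyticOrderAt ha).mp oa
  obtain ⟨b1, hb1, heb⟩ := (natCast_le_analyticOrderAt hb).mp ob
  have hb1y : b1 y ≠ 0 := by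
    intro h0
    apply ob'
    have ho1 : ((1 : ℕ) : ℕ∞) ≤ analyticOrderAt b1 y := by
      apply (natCast_le_analyticOrderAt_iff_iteratedDeriv_eq_zero hb1).mpr
      intro i hi
      have hi0 : i = 0 := by omega
      subst hi0
      simpa using h0
    obtain ⟨b2, hb2, heb2⟩ := (natCast_le_analyticOrderAt hb1).mp ho1
    refine (natCast_le_analyticOrderAt hb).mpr ⟨b2, hb2, ?_⟩
    filter_upwards [heb, heb2] with z hz hz2
    rw [hz, hz2, smul_smul, ← pow_add]
  refine ⟨fun z => a1 z / b1 z, ha1.div hb1 hb1y, ?_⟩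
  filter_upwards [hea, heb, hb1.continuousAt.eventually_ne hb1y] with z hza hzb hz1
  rw [hza, hzb, smul_eq_mul, smul_eq_mul]
  field_simp

/-- If `B (x, ·)` is not `0` near `y`, there is a first derivative which does not vanish. -/
theorem exists_order {B : ℂ × ℂ → ℂ} {x y : ℂ} (hB : AnalyticAt ℂ B (x, y))
    (h : ¬ ∀ᶠ z in 𝓝 y, B (x, z) = 0) :
    ∃ k : ℕ, (∀ i < k, (dy^[i] B) (x, y) = 0) ∧ (dy^[k] B) (x, y) ≠ 0 := by
  have hb := CB4_slice hB
  have hne : analyticOrderAt (fun z => B (x, z)) y ≠ ⊤ := by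
    intro h0
    exact h (analyticOrderAt_eq_top.mp h0)
  obtain ⟨k, hk⟩ := ENat.ne_top_iff_exists.mp hne
  refine ⟨k, ?_, ?_⟩
  · intro i hi
    rw [iterate_dy_slice hB i]
    exact (natCast_le_analyticOrderAt_iff_iteratedDeriv_eq_zero hb).mp hk.le i hi
  · intro h0
    rw [iterate_dy_slice hB k] at h0
    have hle : ((k + 1 : ℕ) : ℕ∞) ≤ analyticOrderAt (fun z => B (x, z)) y := by
      apply (natCast_le_analyticOrderAt_iff_iteratedDeriv_eq_zero hb).mpr
      intro i hi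
      rcases Nat.lt_succ_iff_lt_or_eq.mp hi with h1 | h1
      · exact (natCast_le_analyticOrderAt_iff_iteratedDeriv_eq_zero hb).mp hk.le i h1
      · rw [h1]
        exact h0
    rw [← hk] at hle
    have : k + 1 ≤ k := by exact_mod_cast hle
    omega

theorem exists_implicit {G : ℂ × ℂ → ℂ} {x₁ y₁ : ℂ} (hG : AnalyticAt ℂ G (x₁, y₁))
    (h0 : G (x₁, y₁) = 0) (h1 : dy G (x₁, y₁) ≠ 0) :
    ∃ c : ℂ → ℂ, AnalyticAt ℂ c x₁ ∧ c x₁ = y₁ ∧
      ∀ᶠ u in 𝓝 ((x₁, y₁) : ℂ × ℂ), G u = 0 → u.2 = c u.1 := by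
  set p : ℂ × ℂ := (x₁, y₁) with hp
  set F : ℂ × ℂ → ℂ × ℂ := fun u => (u.1, G u) with hF
  have hFa : AnalyticAt ℂ F p := analyticAt_fst.prod hG
  set L := fderiv ℂ G p with hL
  have hLy : L (0, 1) ≠ 0 := h1
  have hFd : HasFDerivAt F ((ContinuousLinearMap.fst ℂ ℂ ℂ).prod L) p :=
    hasFDerivAt_fst.prodMk hG.differentiableAt.hasFDerivAt
  have hLab : ∀ a b : ℂ, L (a, b) = a * L (1, 0) + b * L (0, 1) := by
    intro a b
    have : ((a, b) : ℂ × ℂ) = a • ((1, 0) : ℂ × ℂ) + b • ((0, 1) : ℂ × ℂ) := by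
      ext <;> simp
    rw [this, map_add, map_smul, map_smul, smul_eq_mul, smul_eq_mul]
  let e0 : (ℂ × ℂ) ≃ₗ[ℂ] (ℂ × ℂ) :=
    { toFun := fun u => (u.1, L u)
      invFun := fun v => (v.1, (v.2 - v.1 * L (1, 0)) / L (0, 1))
      map_add' := by
        intro u v
        simp
      map_smul' := by
        intro c u
        simp
      left_inv := by
        intro u
        obtain ⟨a, b⟩ := u
        ext
        · rfl
        · simp only
          rw [hLab a b]
          field_simp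
          ring
      right_inv := by
        intro v
        obtain ⟨a, b⟩ := v
        ext
        · rfl
        · simp only
          rw [hLab]
          field_simp
          ring }
  let e : (ℂ × ℂ) ≃L[ℂ] (ℂ × ℂ) := e0.toContinuousLinearEquiv
  have he : (e : (ℂ × ℂ) →L[ℂ] (ℂ × ℂ)) = (ContinuousLinearMap.fst ℂ ℂ ℂ).prod L := by
    ext <;> rfl
  have hFd' : HasFDerivAt F (e : (ℂ × ℂ) →L[ℂ] (ℂ × ℂ)) p := by
    rw [he]
    exact hFd
  have hc : ContDiffAt ℂ (⊤ : WithTop ℕ∞) F p := hFa.contDiffAt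
  have hn : (⊤ : WithTop ℕ∞) ≠ 0 := by
    simp
  have hFp : F p = (x₁, 0) := by
    simp only [hF, hp]
    rw [h0]
  have hinv : AnalyticAt ℂ (hc.localInverse hFd' hn) (x₁, 0) := by
    rw [← hFp]
    exact (hc.to_localInverse hFd' hn).analyticAt
  have hmap : AnalyticAt ℂ (fun x : ℂ => ((x, 0) : ℂ × ℂ)) x₁ := analyticAt_id.prod analyticAt_const
  have hcomp : AnalyticAt ℂ (fun x : ℂ => hc.localInverse hFd' hn (x, 0)) x₁ :=
    AnalyticAt.comp (g := hc.localInverse hFd' hn) (f := fun x : ℂ => ((x, 0) : ℂ × ℂ)) hinv hmap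
  refine ⟨fun x => (hc.localInverse hFd' hn (x, 0)).2, ?_, ?_, ?_⟩
  · exact analyticAt_snd.comp hcomp
  · have := hc.localInverse_apply_image hFd' hn
    rw [hFp] at this
    simp only
    rw [this]
  · have hleft : ∀ᶠ u in 𝓝 p, hc.localInverse hFd' hn (F u) = u :=
      (hc.hasStrictFDerivAt' hFd' hn).eventually_left_inverse
    filter_upwards [hleft] with u hu hGu
    have h5 : F u = (u.1, 0) := by
      simp only [hF]
      rw [hGu]
    rw [h5] at hu
    rw [hu]

end Pool.Agent.H68.KR
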