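import Pool.Agent.H68.KR.T2

/-!
# KR HD: Laurent series with coefficients in Laurent series, their derivations

`LL = ℂ((X))((T))`.  `emb` embeds `ℂ⟦X⟧⟦T⟧`.  `vT` is the order in `T`.  (Do not use `Algebra ℂ LL` or
`Derivation`, there are several instances; derivations are additive maps with the Leibniz rule.)

Proofs.
* `exists_mapD` (coefficientwise `a_n ↦ δ a_n`, the support gets smaller).  Leibniz: `HahnSeries.coeff_mul_left'`,
  `HahnSeries.coeff_mul_right'` (sum over the antidiagonal of larger well-founded sets),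
  `δ (∑ a_i b_j) = ∑ (δ a_i b_j + a_i δ b_j)`.
* `exists_deriv`.  First the Euler derivation `θ : a_n ↦ n a_n` in the same way (`n = i + j` on the antidiagonal),
  then `D F = single (-1) 1 * θ F` (`HahnSeries.coeff_single_mul_add`: `(single (-1) 1 * G).coeff n = G.coeff (n + 1)`).
* `DT_emb`, `DX_emb`: compare coefficients (`HahnSeries.ofPowerSeries_apply`, `LaurentSeries.coeff_coe`,
  `PowerSeries.coeff_derivative`; indices `n < -1`: both sides `0`; `n = -1`: the factor `n + 1` is `0`).
* `vT_nonneg_iff`: `HahnSeries.addVal_apply`, `HahnSeries.orderTop`.  `vT_DT_nonneg`, `vT_DX_nonneg` follow.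
* `vT_emb`: the least index with a non-zero coefficient.
-/

set_option autoImplicit false

open Topology Filter

noncomputable section

namespace Pool.Agent.H68.KR

section

variable {R : Type} [CommRing R]

/-- The derivation of `R((T))` given by a derivation of `R`. -/
theorem exists_mapD (δ : R →+ R) (hδ : ∀ a b, δ (a * b) = a * δ b + b * δ a) :
    ∃ D : HahnSeries ℤ R →+ HahnSeries ℤ R, (∀ F n, (D F).coeff n = δ (F.coeff n)) ∧
      ∀ F G, D (F * G) = F * D G + G * D F := by
  refine ⟨{ toFun := fun F => F.map δ, map_zero' := ?_, map_add' := ?_ }, fun F n => ?_,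
    fun F G => ?_⟩
  · ext n
    simp
  · intro F G
    ext n
    simp
  · rfl
  · have hs : ∀ H : HahnSeries ℤ R, (H.map δ).support ⊆ H.support := by
      intro H n hn
      rw [HahnSeries.mem_support] at hn ⊢
      intro h0
      apply hn
      rw [HahnSeries.map_coeff, h0, map_zero]
    ext n
    have h1 : (F * G.map δ).coeff n = _ :=
      HahnSeries.coeff_mul_right' (x := F) (a := n) G.isPWO_support (hs G)
    have h2 : (F.map δ * G).coeff n = _ :=
      HahnSeries.coeff_mul_left' (y := G) (a := n) F.isPWO_support (hs F)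
    change ((F * G).map δ).coeff n = (F * G.map δ + G * F.map δ).coeff n
    rw [mul_comm G (F.map δ), HahnSeries.coeff_add, h1, h2, HahnSeries.map_coeff,
      HahnSeries.coeff_mul, map_sum, ← Finset.sum_add_distrib]
    refine Finset.sum_congr rfl fun ij _ => ?_
    rw [hδ, HahnSeries.map_coeff, HahnSeries.map_coeff, mul_comm (G.coeff ij.2)]

/-- The Euler derivation. -/
private theorem X_euler : ∃ D : HahnSeries ℤ R →+ HahnSeries ℤ R,
    (∀ F (n : ℤ), (D F).coeff n = ((n : ℤ) : R) * F.coeff n) ∧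
      ∀ F G, D (F * G) = F * D G + G * D F := by
  have hp : ∀ F : HahnSeries ℤ R, (Function.support fun n : ℤ => ((n : ℤ) : R) * F.coeff n).IsPWO := by
    intro F
    refine F.isPWO_support.mono fun n hn => ?_
    rw [HahnSeries.mem_support]
    intro h0
    apply hn
    change ((n : ℤ) : R) * F.coeff n = 0
    rw [h0, mul_zero]
  refine ⟨AddMonoidHom.mk' (fun F => HahnSeries.mk (fun n : ℤ => ((n : ℤ) : R) * F.coeff n) (hp F))
    ?_, fun F n => rfl, fun F G => ?_⟩
  · intro F G
    ext n
    simp [mul_add]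
  · set θ : HahnSeries ℤ R → HahnSeries ℤ R := fun F => ⟨fun n : ℤ => ((n : ℤ) : R) * F.coeff n, hp F⟩
      with hθ
    have hc : ∀ F n, (θ F).coeff n = ((n : ℤ) : R) * F.coeff n := fun F n => rfl
    have hs : ∀ H : HahnSeries ℤ R, (θ H).support ⊆ H.support := by
      intro H n hn
      rw [HahnSeries.mem_support] at hn ⊢
      intro h0
      apply hn
      rw [hc, h0, mul_zero]
    ext n
    have h1 : (F * θ G).coeff n = _ :=
      HahnSeries.coeff_mul_right' (x := F) (a := n) G.isPWO_support (hs G)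
    have h2 : (θ F * G).coeff n = _ :=
      HahnSeries.coeff_mul_left' (y := G) (a := n) F.isPWO_support (hs F)
    change (θ (F * G)).coeff n = (F * θ G + G * θ F).coeff n
    rw [mul_comm G (θ F), HahnSeries.coeff_add, h1, h2, hc, HahnSeries.coeff_mul, Finset.mul_sum,
      ← Finset.sum_add_distrib]
    refine Finset.sum_congr rfl fun ij hij => ?_
    have hn : ij.1 + ij.2 = n := (Finset.mem_antidiagonal.1 hij).2.2
    rw [hc, hc, ← hn]
    push_cast
    ring

/-- The derivation `d/dT` of `R((T))`. -/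
theorem exists_deriv : ∃ D : HahnSeries ℤ R →+ HahnSeries ℤ R,
    (∀ F (n : ℤ), (D F).coeff n = ((n + 1 : ℤ) : R) * F.coeff (n + 1)) ∧
      ∀ F G, D (F * G) = F * D G + G * D F := by
  obtain ⟨θ, hθ, hθm⟩ := X_euler (R := R)
  refine ⟨(AddMonoidHom.mulLeft (HahnSeries.single (-1 : ℤ) (1 : R))).comp θ, fun F n => ?_,
    fun F G => ?_⟩
  · change (HahnSeries.single (-1 : ℤ) (1 : R) * θ F).coeff n = _
    have h := HahnSeries.coeff_single_mul_add (r := (1 : R)) (x := θ F) (a := n + 1) (b := (-1 : ℤ))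
    rw [show n + 1 + (-1 : ℤ) = n by ring] at h
    rw [h, hθ, one_mul]
  · change HahnSeries.single (-1 : ℤ) (1 : R) * θ (F * G) =
      F * (HahnSeries.single (-1 : ℤ) (1 : R) * θ G) + G * (HahnSeries.single (-1 : ℤ) (1 : R) * θ F)
    rw [hθm]
    ring

end

/-- Laurent series in `X`. -/
abbrev L1 : Type := HahnSeries ℤ ℂ

/-- Laurent series in `T` whose coefficients are Laurent series in `X`. -/
abbrev LL : Type := HahnSeries ℤ L1

/-- The embedding `ℂ⟦X⟧⟦T⟧ → ℂ((X))((T))`. -/
def emb : PowerSeries (PowerSeries ℂ) →+* LL :=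
  (HahnSeries.ofPowerSeries ℤ L1).comp (PowerSeries.map (HahnSeries.ofPowerSeries ℤ ℂ))

/-- The constants. -/
def cst : ℂ →+* LL := (HahnSeries.C : L1 →+* LL).comp (HahnSeries.C : ℂ →+* L1)

/-- The first variable `X`. -/
def xx : LL := HahnSeries.C (HahnSeries.single 1 1)

/-- The order in `T`. -/
def vT : AddValuation LL (WithTop ℤ) := HahnSeries.addVal ℤ L1

/-- The derivation `d/dT`. -/
def DT : LL →+ LL := (exists_deriv (R := L1)).choose

/-- The derivation `d/dX`. -/
def DX : LL →+ LL :=
  (exists_mapD (R := L1) (exists_deriv (R := ℂ)).choose (exists_deriv (R := ℂ)).choose_spec.2).choose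

theorem DT_coeff (F : LL) (n : ℤ) : (DT F).coeff n = ((n + 1 : ℤ) : L1) * F.coeff (n + 1) :=
  (exists_deriv (R := L1)).choose_spec.1 F n

theorem DT_mul (F G : LL) : DT (F * G) = F * DT G + G * DT F :=
  (exists_deriv (R := L1)).choose_spec.2 F G

theorem DX_coeff (F : LL) (n k : ℤ) :
    ((DX F).coeff n).coeff k = ((k + 1 : ℤ) : ℂ) * (F.coeff n).coeff (k + 1) := by
  have h1 := (exists_mapD (R := L1) (exists_deriv (R := ℂ)).choose
    (exists_deriv (R := ℂ)).choose_spec.2).choose_spec.1 F n
  have h2 := (exists_deriv (R := ℂ)).choose_spec.1 (F.coeff n) k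
  rw [← h2, ← h1]
  rfl

theorem DX_mul (F G : LL) : DX (F * G) = F * DX G + G * DX F :=
  (exists_mapD (R := L1) (exists_deriv (R := ℂ)).choose
    (exists_deriv (R := ℂ)).choose_spec.2).choose_spec.2 F G

private theorem X_coeff_of {R : Type} [CommRing R] (F : PowerSeries R) (n : ℤ) :
    (HahnSeries.ofPowerSeries ℤ R F).coeff n = if n < 0 then 0 else PowerSeries.coeff n.natAbs F :=
  PowerSeries.coeff_coe F n

private theorem X_coeff_emb (F : PowerSeries (PowerSeries ℂ)) (n : ℤ) :
    (emb F).coeff n = if n < 0 then 0 else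
      HahnSeries.ofPowerSeries ℤ ℂ (PowerSeries.coeff n.natAbs F) := by
  change (HahnSeries.ofPowerSeries ℤ L1 (PowerSeries.map (HahnSeries.ofPowerSeries ℤ ℂ) F)).coeff n = _
  rw [X_coeff_of, PowerSeries.coeff_map]

theorem emb_injective : Function.Injective emb := by
  have h1 : Function.Injective (HahnSeries.ofPowerSeries ℤ L1) := HahnSeries.ofPowerSeries_injective
  have h2 : Function.Injective (HahnSeries.ofPowerSeries ℤ ℂ) := HahnSeries.ofPowerSeries_injective
  have h3 : Function.Injective (PowerSeries.map (HahnSeries.ofPowerSeries ℤ ℂ)) := by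
    intro F G h
    ext n : 1
    apply h2
    have := congrArg (PowerSeries.coeff n) h
    rwa [PowerSeries.coeff_map, PowerSeries.coeff_map] at this
  exact h1.comp h3

theorem emb_C_C (c : ℂ) : emb (PowerSeries.C (PowerSeries.C c)) = cst c := by
  change HahnSeries.ofPowerSeries ℤ L1 (PowerSeries.map (HahnSeries.ofPowerSeries ℤ ℂ)
    (PowerSeries.C (PowerSeries.C c))) = HahnSeries.C (HahnSeries.C c)
  rw [PowerSeries.map_C, HahnSeries.ofPowerSeries_C, HahnSeries.ofPowerSeries_C]

theorem emb_C_X : emb (PowerSeries.C PowerSeries.X) = xx := by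
  change HahnSeries.ofPowerSeries ℤ L1 (PowerSeries.map (HahnSeries.ofPowerSeries ℤ ℂ)
    (PowerSeries.C PowerSeries.X)) = HahnSeries.C (HahnSeries.single 1 1)
  rw [PowerSeries.map_C, HahnSeries.ofPowerSeries_C, HahnSeries.ofPowerSeries_X]

private theorem X_coeff_cst (c : ℂ) (n : ℤ) :
    (cst c).coeff n = if n = 0 then HahnSeries.C c else 0 := by
  change (HahnSeries.single (0 : ℤ) (HahnSeries.single (0 : ℤ) c)).coeff n = _
  rw [HahnSeries.coeff_single]
  split_ifs <;> rfl

theorem DT_cst (c : ℂ) : DT (cst c) = 0 := by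
  refine HahnSeries.ext (funext fun n => ?_)
  rw [DT_coeff, X_coeff_cst, HahnSeries.coeff_zero]
  split_ifs with h
  · rw [h, Int.cast_zero, zero_mul]
  · rw [mul_zero]

theorem DX_cst (c : ℂ) : DX (cst c) = 0 := by
  refine HahnSeries.ext (funext fun n => HahnSeries.ext (funext fun k => ?_))
  rw [DX_coeff, X_coeff_cst, HahnSeries.coeff_zero, HahnSeries.coeff_zero]
  split_ifs with h
  · change _ * (HahnSeries.single (0 : ℤ) c).coeff (k + 1) = 0
    rw [HahnSeries.coeff_single]
    split_ifs with h'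
    · rw [h', Int.cast_zero, zero_mul]
    · rw [mul_zero]
  · rw [HahnSeries.coeff_zero, mul_zero]

theorem DT_emb (F : PowerSeries (PowerSeries ℂ)) :
    DT (emb F) = emb (PowerSeries.derivative (PowerSeries ℂ) F) := by
  refine HahnSeries.ext (funext fun n => ?_)
  rw [DT_coeff, X_coeff_emb, X_coeff_emb]
  rcases lt_trichotomy n (-1) with h | h | h
  · rw [if_pos (by omega), if_pos (by omega), mul_zero]
  · subst h
    rw [if_pos (by omega : (-1 : ℤ) < 0)]
    norm_num
  · obtain ⟨m, rfl⟩ := Int.eq_ofNat_of_zero_le (by omega : 0 ≤ n)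
    rw [if_neg (by omega), if_neg (by omega)]
    have e1 : ((m : ℤ) + 1).natAbs = m + 1 := by omega
    have e2 : ((m : ℤ)).natAbs = m := by omega
    rw [e1, e2, PowerSeries.coeff_derivative, map_mul, mul_comm]
    congr 1
    push_cast
    rw [map_natCast]

theorem DX_emb (F : PowerSeries (PowerSeries ℂ)) : DX (emb F) = emb (pX F) := by
  refine HahnSeries.ext (funext fun n => HahnSeries.ext (funext fun k => ?_))
  rw [DX_coeff, X_coeff_emb, X_coeff_emb]
  split_ifs with h0
  · rw [HahnSeries.coeff_zero, HahnSeries.coeff_zero, mul_zero]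
  rw [pX, PowerSeries.coeff_mk, X_coeff_of, X_coeff_of]
  rcases lt_trichotomy k (-1) with h | h | h
  · rw [if_pos (by omega), if_pos (by omega), mul_zero]
  · subst h
    rw [if_pos (by omega : (-1 : ℤ) < 0)]
    norm_num
  · obtain ⟨m, rfl⟩ := Int.eq_ofNat_of_zero_le (by omega : 0 ≤ k)
    rw [if_neg (by omega), if_neg (by omega)]
    have e1 : ((m : ℤ) + 1).natAbs = m + 1 := by omega
    have e2 : ((m : ℤ)).natAbs = m := by omega
    rw [e1, e2, PowerSeries.coeff_derivative, mul_comm]
    push_cast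
    ring

theorem vT_nonneg_iff (F : LL) : 0 ≤ vT F ↔ ∀ n : ℤ, n < 0 → F.coeff n = 0 := by
  rw [vT, HahnSeries.addVal_apply]
  constructor
  · intro h n hn
    by_contra hc
    have h1 : F.orderTop ≤ (n : WithTop ℤ) := HahnSeries.orderTop_le_of_coeff_ne_zero hc
    have h2 : (0 : WithTop ℤ) ≤ (n : WithTop ℤ) := h.trans h1
    have h3 : (0 : ℤ) ≤ n := by exact_mod_cast h2
    omega
  · intro h
    by_cases hF : F = 0
    · subst hF
      rw [HahnSeries.orderTop_zero]
      exact le_top
    · rw [HahnSeries.orderTop_of_ne_zero hF]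
      by_contra hc
      rw [not_le] at hc
      have h3 : F.isWF_support.min (HahnSeries.support_nonempty_iff.2 hF) < (0 : ℤ) := by
        exact_mod_cast hc
      exact (Set.IsWF.min_mem F.isWF_support (HahnSeries.support_nonempty_iff.2 hF)) (h _ h3)

theorem vT_DT_nonneg {F : LL} (h : 0 ≤ vT F) : 0 ≤ vT (DT F) := by
  rw [vT_nonneg_iff] at h ⊢
  intro n hn
  rw [DT_coeff]
  rcases lt_or_eq_of_le (by omega : n + 1 ≤ 0) with h1 | h1
  · rw [h _ h1, mul_zero]
  · rw [h1, Int.cast_zero, zero_mul]

theorem vT_DX_nonneg {F : LL} (h : 0 ≤ vT F) : 0 ≤ vT (DX F) := by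
  rw [vT_nonneg_iff] at h ⊢
  intro n hn
  refine HahnSeries.ext (funext fun k => ?_)
  rw [DX_coeff, h n hn, HahnSeries.coeff_zero, HahnSeries.coeff_zero, mul_zero]

theorem vT_C {a : L1} (ha : a ≠ 0) : vT (HahnSeries.C a) = 0 := by
  rw [vT, HahnSeries.addVal_apply]
  exact HahnSeries.orderTop_single ha

theorem vT_emb_nonneg (F : PowerSeries (PowerSeries ℂ)) : 0 ≤ vT (emb F) := by
  rw [vT_nonneg_iff]
  intro n hn
  rw [X_coeff_emb, if_pos hn]

theorem vT_emb {F : PowerSeries (PowerSeries ℂ)} {n : ℕ} (h : F.order = n) : vT (emb F) = (n : ℤ) := by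
  rw [PowerSeries.order_eq_nat] at h
  obtain ⟨h1, h2⟩ := h
  have hinj : Function.Injective (HahnSeries.ofPowerSeries ℤ ℂ) := HahnSeries.ofPowerSeries_injective
  have hc : (emb F).coeff (n : ℤ) ≠ 0 := by
    rw [X_coeff_emb, if_neg (by omega), Int.natAbs_natCast]
    exact (map_ne_zero_iff _ hinj).2 h1
  rw [vT, HahnSeries.addVal_apply]
  apply le_antisymm
  · exact HahnSeries.orderTop_le_of_coeff_ne_zero hc
  · have hF : emb F ≠ 0 := by
      intro h0
      apply hc
      rw [h0, HahnSeries.coeff_zero]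
    rw [HahnSeries.orderTop_of_ne_zero hF]
    by_contra hlt
    rw [not_le] at hlt
    have h3 : (emb F).isWF_support.min (HahnSeries.support_nonempty_iff.2 hF) < (n : ℤ) := by
      exact_mod_cast hlt
    have h4 := Set.IsWF.min_mem (emb F).isWF_support (HahnSeries.support_nonempty_iff.2 hF)
    apply h4
    rw [X_coeff_emb]
    split_ifs with h5
    · rfl
    · rw [h2 _ (by omega), map_zero]

theorem vT_emb_of_constantCoeff_ne {F : PowerSeries (PowerSeries ℂ)}
    (h : PowerSeries.constantCoeff F ≠ 0) : vT (emb F) = 0 := by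
  have h1 : F.order = (0 : ℕ) := by
    rw [PowerSeries.order_eq_nat]
    refine ⟨?_, fun i hi => absurd hi (Nat.not_lt_zero i)⟩
    rw [PowerSeries.coeff_zero_eq_constantCoeff_apply]
    exact h
  exact vT_emb h1

end Pool.Agent.H68.KR
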