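import Pool.Agent.H68.KR.EV
import Pool.Agent.H68.KR.HD
import Pool.Agent.H68.KR.Ch

/-!
# KR EM: the embedding of the function field given by an analytic map into the cone

Proof of `exists_embedding`.  Let `y i = emb (t2 (φ · i))`.  For every polynomial `Q`:
`eval₂ cst y Q = emb (t2 (fun u => eval (φ u) Q))` (`t2_eval`, `MvPolynomial.hom_eval₂`,
`emb.comp (C.comp C) = cst` by `emb_C_C`).  So for homogeneous `Q`: `eval₂ cst y Q = 0 ↔ Q ∈ P` by `hmem`, `hnd`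
(`emb_injective`, `t2_eq_zero_iff`, `analyticAt_eval`).  `exists_eval` gives `E` with `E (ratio i j) = y i / y j`.
Third statement: choose `l` with `X l ∉ P` (`exists_point`: some `x i ≠ 0`), then `y l ≠ 0`, and use `eval_hom_rep`.
Fourth statement: `y (s 0) ≠ 0`.  For an additive map `D` of the field `LL` with the Leibniz rule:
`D (a / b) = (D a * b - a * D b) / b ^ 2` for `b ≠ 0` (from `a = (a / b) * b`).  So the left hand side is
`(1 / y₀^4) ((DX y₁ y₀ - y₁ DX y₀) (DT y₂ y₀ - y₂ DT y₀) - (DX y₂ y₀ - y₂ DX y₀) (DT y₁ y₀ - y₁ DT y₀))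
  = D3 s y (DX ∘ y) (DT ∘ y) / y₀ ^ 3` (`field_simp; ring`),
and `DX (y i) = emb (pX (t2 (φ · i))) = emb (t2 (dx (φ · i))) = emb (t2 (d1 φ · i))` (`DX_emb`, `t2_dx`, `d1_apply`,
`t2_congr`), similarly `DT`; finally `D3 s y … = emb (t2 (D3 s φ (d1 φ) (d2 φ)))` by `t2_mul`, `t2_add` (and the
consequence `t2_sub`, e.g. from `t2_add`, `t2_mul`, `t2_const (-1)`).
-/

set_option autoImplicit false

open MvPolynomial Topology Filter
open Pool.Agent.H17LG.Variety (FunField ratio)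

noncomputable section

namespace Pool.Agent.H68.KR

private theorem EM_div {F : Type} [Field F] {D : F → F} (hD : ∀ a b, D (a * b) = a * D b + b * D a) (a b : F)
    (hb : b ≠ 0) : D (a / b) = (D a * b - a * D b) / b ^ 2 := by
  have h1 : D a = D (a / b * b) := by rw [div_mul_cancel₀ a hb]
  rw [hD] at h1
  rw [h1, eq_div_iff (pow_ne_zero 2 hb)]
  field_simp
  ring

private theorem EM_jac {F : Type} [Field F] {D D' : F → F} (hD : ∀ a b, D (a * b) = a * D b + b * D a)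
    (hD' : ∀ a b, D' (a * b) = a * D' b + b * D' a) (a b c : F) (ha : a ≠ 0) :
    D (b / a) * D' (c / a) - D (c / a) * D' (b / a) =
      (a * (D b * D' c - D c * D' b) - b * (D a * D' c - D c * D' a) + c * (D a * D' b - D b * D' a)) /
        a ^ 3 := by
  rw [EM_div hD _ _ ha, EM_div hD _ _ ha, EM_div hD' _ _ ha, EM_div hD' _ _ ha]
  field_simp
  ring

private theorem EM_sub {f g : ℂ × ℂ → ℂ} (hf : AnalyticAt ℂ f 0) (hg : AnalyticAt ℂ g 0) :
    t2 (fun u => f u - g u) = t2 f - t2 g := by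
  have h1 : t2 (fun u => (-1 : ℂ) * g u) = - t2 g := by
    rw [t2_mul analyticAt_const hg, t2_const]
    simp
  have h2 := t2_add hf (g := fun u => (-1 : ℂ) * g u) (analyticAt_const.mul hg)
  rw [h1] at h2
  rw [sub_eq_add_neg, ← h2]
  congr 1
  funext u
  ring

private theorem EM_comp {n : ℕ} {ψ : ℂ × ℂ → Fin n → ℂ} (h : AnalyticAt ℂ ψ 0) (i : Fin n) :
    AnalyticAt ℂ (fun u => ψ u i) 0 :=
  (analyticAt_pi_iff.1 h) i

private theorem EM_DX {n : ℕ} {φ : ℂ × ℂ → Fin (n + 1) → ℂ} (hφ : AnalyticAt ℂ φ 0) (i : Fin (n + 1)) :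
    DX (emb (t2 fun u => φ u i)) = emb (t2 fun u => d1 φ u i) := by
  rw [DX_emb, t2_dx (EM_comp hφ i)]
  congr 1
  refine t2_congr ?_
  filter_upwards [hφ.eventually_analyticAt] with u hu
  exact (d1_apply hu i).symm

private theorem EM_DT {n : ℕ} {φ : ℂ × ℂ → Fin (n + 1) → ℂ} (hφ : AnalyticAt ℂ φ 0) (i : Fin (n + 1)) :
    DT (emb (t2 fun u => φ u i)) = emb (t2 fun u => d2 φ u i) := by
  rw [DT_emb, t2_dy (EM_comp hφ i)]
  congr 1
  refine t2_congr ?_
  filter_upwards [hφ.eventually_analyticAt] with u hu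
  exact (d2_apply hu i).symm

private theorem EM_D3 {n : ℕ} {φ ψ χ : ℂ × ℂ → Fin (n + 1) → ℂ} (hφ : AnalyticAt ℂ φ 0)
    (hψ : AnalyticAt ℂ ψ 0) (hχ : AnalyticAt ℂ χ 0) (s : Fin 3 → Fin (n + 1)) :
    emb (t2 fun u => D3 s (φ u) (ψ u) (χ u)) =
      D3 s (fun i => emb (t2 fun u => φ u i)) (fun i => emb (t2 fun u => ψ u i))
        (fun i => emb (t2 fun u => χ u i)) := by
  have hm : ∀ i j, AnalyticAt ℂ (fun u => ψ u i * χ u j) 0 := fun i j =>
    (EM_comp hψ i).mul (EM_comp hχ j)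
  have hd : ∀ i j, AnalyticAt ℂ (fun u => ψ u i * χ u j - ψ u j * χ u i) 0 := fun i j =>
    (hm i j).sub (hm j i)
  have ht : ∀ k i j, AnalyticAt ℂ (fun u => φ u k * (ψ u i * χ u j - ψ u j * χ u i)) 0 := fun k i j =>
    (EM_comp hφ k).mul (hd i j)
  have h1 : ∀ i j, emb (t2 fun u => ψ u i * χ u j - ψ u j * χ u i) =
      emb (t2 fun u => ψ u i) * emb (t2 fun u => χ u j) -
        emb (t2 fun u => ψ u j) * emb (t2 fun u => χ u i) := by
    intro i j
    rw [EM_sub (hm i j) (hm j i), t2_mul (EM_comp hψ i) (EM_comp hχ j),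
      t2_mul (EM_comp hψ j) (EM_comp hχ i), map_sub, map_mul, map_mul]
  have h2 : ∀ k i j, emb (t2 fun u => φ u k * (ψ u i * χ u j - ψ u j * χ u i)) =
      emb (t2 fun u => φ u k) * (emb (t2 fun u => ψ u i) * emb (t2 fun u => χ u j) -
        emb (t2 fun u => ψ u j) * emb (t2 fun u => χ u i)) := by
    intro k i j
    rw [t2_mul (EM_comp hφ k) (hd i j), map_mul, h1]
  have h3 : (fun u => D3 s (φ u) (ψ u) (χ u)) = fun u =>
      (φ u (s 0) * (ψ u (s 1) * χ u (s 2) - ψ u (s 2) * χ u (s 1)) -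
        φ u (s 1) * (ψ u (s 0) * χ u (s 2) - ψ u (s 2) * χ u (s 0))) +
      φ u (s 2) * (ψ u (s 0) * χ u (s 1) - ψ u (s 1) * χ u (s 0)) := rfl
  have h4 : t2 (fun u => D3 s (φ u) (ψ u) (χ u)) =
      t2 (fun u => φ u (s 0) * (ψ u (s 1) * χ u (s 2) - ψ u (s 2) * χ u (s 1))) -
        t2 (fun u => φ u (s 1) * (ψ u (s 0) * χ u (s 2) - ψ u (s 2) * χ u (s 0))) +
      t2 (fun u => φ u (s 2) * (ψ u (s 0) * χ u (s 1) - ψ u (s 1) * χ u (s 0))) := by
    rw [h3, ← EM_sub (ht (s 0) (s 1) (s 2)) (ht (s 1) (s 0) (s 2))]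
    exact t2_add ((ht (s 0) (s 1) (s 2)).sub (ht (s 1) (s 0) (s 2))) (ht (s 2) (s 0) (s 1))
  rw [h4, map_add, map_sub, h2, h2, h2]
  rfl

theorem exists_embedding {N : ℕ} (P : Ideal (MvPolynomial (Fin (N + 1)) ℂ)) [P.IsPrime] {k : ℕ}
    (z : Fin (k + 1) → FunField P) (hz : IsTranscendenceBasis ℂ z) {φ : ℂ × ℂ → Fin (N + 1) → ℂ}
    (hφ : AnalyticAt ℂ φ 0) (hmem : ∀ᶠ u in 𝓝 (0 : ℂ × ℂ), ∀ Q ∈ P, eval (φ u) Q = 0)
    (hnd : ∀ (d : ℕ) (Q : MvPolynomial (Fin (N + 1)) ℂ), Q.IsHomogeneous d → Q ∉ P →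
      ¬ ∀ᶠ u in 𝓝 (0 : ℂ × ℂ), eval (φ u) Q = 0) :
    ∃ E : FunField P →+* LL, (∀ c : ℂ, E (algebraMap ℂ (FunField P) c) = cst c) ∧
      (∀ i j, E (ratio P i j) = emb (t2 fun u => φ u i) / emb (t2 fun u => φ u j)) ∧
      (∀ (d : ℕ) (A B : MvPolynomial (Fin (N + 1)) ℂ) (f : FunField P), A.IsHomogeneous d →
        B.IsHomogeneous d →
        (∀ l, X l ∉ P → f * aeval (fun i => ratio P i l) B = aeval (fun i => ratio P i l) A) →
        E f * emb (t2 fun u => eval (φ u) B) = emb (t2 fun u => eval (φ u) A)) ∧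
      ∀ s : Fin 3 → Fin (N + 1), X (s 0) ∉ P →
        DX (E (ratio P (s 1) (s 0))) * DT (E (ratio P (s 2) (s 0))) -
            DX (E (ratio P (s 2) (s 0))) * DT (E (ratio P (s 1) (s 0))) =
          emb (t2 fun u => D3 s (φ u) (d1 φ u) (d2 φ u)) / emb (t2 fun u => φ u (s 0)) ^ 3 := by
  classical
  set y : Fin (N + 1) → LL := fun i => emb (t2 fun u => φ u i) with hy0
  have key : ∀ Q : MvPolynomial (Fin (N + 1)) ℂ,
      eval₂ cst y Q = emb (t2 fun u => eval (φ u) Q) := by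
    intro Q
    have h1 := MvPolynomial.hom_eval₂ (S₂ := LL) Q ((PowerSeries.C : PowerSeries ℂ →+* PowerSeries (PowerSeries ℂ)).comp
        (PowerSeries.C : ℂ →+* PowerSeries ℂ)) emb (fun i => t2 (fun u => φ u i))
    have h2 : emb.comp ((PowerSeries.C : PowerSeries ℂ →+* PowerSeries (PowerSeries ℂ)).comp
        (PowerSeries.C : ℂ →+* PowerSeries ℂ)) = cst := RingHom.ext fun c => (emb_C_C c)
    rw [h2] at h1
    rw [t2_eval hφ Q]
    exact h1.symm
  have hy : ∀ (d : ℕ) (Q : MvPolynomial (Fin (N + 1)) ℂ), Q.IsHomogeneous d →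
      (eval₂ cst y Q = 0 ↔ Q ∈ P) := by
    intro d Q hQ
    rw [key, map_eq_zero_iff emb emb_injective, t2_eq_zero_iff (analyticAt_eval hφ Q)]
    constructor
    · intro h
      by_contra hc
      exact hnd d Q hQ hc h
    · intro h
      exact hmem.mono fun u hu => hu Q h
  have hyl : ∀ l, X l ∉ P → y l ≠ 0 := by
    intro l hl h0
    apply hl
    rw [← hy 1 (X l) (isHomogeneous_X ℂ l), eval₂_X, h0]
  obtain ⟨l, hl⟩ : ∃ l, X l ∉ P := by
    obtain ⟨x, hx0, -, -, -, hx, -⟩ := exists_point P z hz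
    by_contra hc
    push Not at hc
    apply hx0
    funext i
    exact (hx i).2 ((coordFun_eq_zero_iff P i).2 (hc i))
  obtain ⟨E, hE, hr⟩ := exists_eval P z hz cst y hy
  refine ⟨E, hE, hr, ?_, ?_⟩
  · intro d A B f hA hB hf
    have h1 := eval_hom_rep (F := LL) P cst y E hE hr (hyl l hl) hA hB (hf l hl)
    rw [key, key] at h1
    exact h1
  · intro s hs
    have h0 : y (s 0) ≠ 0 := hyl _ hs
    have hd1 : AnalyticAt ℂ (d1 φ) 0 := analyticAt_d1 hφ
    have hd2 : AnalyticAt ℂ (d2 φ) 0 := analyticAt_d2 hφ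
    have hx : ∀ i, emb (t2 fun u => d1 φ u i) = DX (y i) := fun i => (EM_DX hφ i).symm
    have ht : ∀ i, emb (t2 fun u => d2 φ u i) = DT (y i) := fun i => (EM_DT hφ i).symm
    rw [EM_D3 hφ hd1 hd2 s, hr (s 1) (s 0), hr (s 2) (s 0)]
    have h1 := EM_jac (F := LL) (D := DX) (D' := DT) DX_mul DT_mul (y (s 0)) (y (s 1)) (y (s 2)) h0
    rw [← hx, ← hx, ← hx, ← ht, ← ht, ← ht] at h1
    exact h1

end Pool.Agent.H68.KR
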