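import Pool.Agent.H68.KR.JF
import Pool.Agent.H68.KR.FT

/-!
# KR JFL: the order of the Jacobian of a form with logarithmic poles
-/

set_option autoImplicit false

open Pool.Agent.H23.Fano (Form regularForms PrimeDivisorOver)
open Pool.Agent.H17LG.Variety (PoleAtMost)

noncomputable section

namespace Pool.Agent.H68.KR

theorem DT_xx : DT xx = 0 := by
  rw [← emb_C_X, DT_emb]
  have h : PowerSeries.derivative (PowerSeries ℂ) (PowerSeries.C PowerSeries.X) = 0 := by
    ext n : 1
    rw [PowerSeries.coeff_derivative, PowerSeries.coeff_C]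
    simp
  rw [h, map_zero]

theorem DX_xx : DX xx = 1 := by
  rw [← emb_C_X, DX_emb]
  have h : pX (PowerSeries.C PowerSeries.X) = 1 := by
    ext n : 1
    rw [pX, PowerSeries.coeff_mk, PowerSeries.coeff_C, PowerSeries.coeff_one]
    split_ifs with h0
    · ext k
      rw [PowerSeries.coeff_derivative, PowerSeries.coeff_X, PowerSeries.coeff_one]
      by_cases hk : k = 0
      · subst hk
        simp
      · simp [hk]
    · rw [map_zero]
  rw [h, map_one]

theorem vT_coeff {F : LL} {n : ℤ} (h : vT F = n) : F.coeff n ≠ 0 ∧ ∀ m < n, F.coeff m = 0 := by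
  have h1 : F.orderTop = n := h
  refine ⟨HahnSeries.coeff_orderTop_ne h1, fun m hm => ?_⟩
  apply HahnSeries.coeff_eq_zero_of_lt_orderTop
  rw [h1]
  exact_mod_cast hm

theorem vT_of_coeff {F : LL} {n : ℤ} (h1 : F.coeff n ≠ 0) (h2 : ∀ m < n, F.coeff m = 0) :
    vT F = n := by
  have h3 : F.orderTop ≤ n := HahnSeries.orderTop_le_of_coeff_ne_zero h1
  have h4 : F.orderTop ≠ ⊤ := ne_top_of_le_ne_top (WithTop.coe_ne_top) h3
  obtain ⟨k, hk⟩ := WithTop.ne_top_iff_exists.1 h4
  have h5 : F.coeff k ≠ 0 := HahnSeries.coeff_orderTop_ne hk.symm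
  have h6 : k ≤ n := by
    rw [← hk] at h3
    exact_mod_cast h3
  have h7 : n ≤ k := by
    by_contra hlt
    exact h5 (h2 k (not_le.1 hlt))
  change F.orderTop = n
  rw [← hk, le_antisymm h6 h7]

theorem vT_DT {F : LL} {n : ℤ} (h : vT F = n) (hn : n ≠ 0) : vT (DT F) = ((n - 1 : ℤ) : WithTop ℤ) := by
  obtain ⟨h1, h2⟩ := vT_coeff h
  apply vT_of_coeff
  · rw [DT_coeff]
    have h3 : n - 1 + 1 = n := by ring
    rw [h3]
    refine mul_ne_zero ?_ h1
    intro h4
    have h5 : ((n : ℤ) : L1) = HahnSeries.C (n : ℂ) := by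
      rw [map_intCast]
    rw [h5] at h4
    have h6 : ((n : ℤ) : ℂ) = 0 := by
      exact HahnSeries.C_injective (h4.trans (map_zero (HahnSeries.C : ℂ →+* L1)).symm)
    exact hn (by exact_mod_cast h6)
  · intro m hm
    rw [DT_coeff, h2 (m + 1) (by omega), mul_zero]

/-- A prime divisor with the valuation ring of an embedding has the order of the embedding. -/
theorem ord_eq_of_nonneg_iff {K : Type} [Field K] [Algebra ℂ K] (E : K →+* LL)
    (D : PrimeDivisorOver K 2) (hD : ∀ f, 0 ≤ D.ord f ↔ 0 ≤ vT (E f))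
    (hst : ∀ f, ∃ g, DT (E f) = E g) : ∀ f, D.ord f = vT (E f) := by
  obtain ⟨t, ht⟩ := D.exists_uniformizer
  have ht0 : t ≠ 0 := by
    rintro rfl
    rw [D.ord.map_zero] at ht
    exact absurd ht (by simp)
  set v : AddValuation K (WithTop ℤ) := vT.comap E with hv
  have hex : ∀ f : K, f ≠ 0 → ∃ n : ℤ, vT (E f) = (n : WithTop ℤ) := by
    intro f hf
    have h : vT (E f) ≠ ⊤ := by
      intro h
      exact hf (v.top_iff.mp h)
    exact ⟨(vT (E f)).untop h, (WithTop.coe_untop _ _).symm⟩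
  have hex' : ∀ f : K, f ≠ 0 → ∃ n : ℤ, D.ord f = (n : WithTop ℤ) := by
    intro f hf
    have h : D.ord f ≠ ⊤ := by
      intro h
      exact hf (D.ord.top_iff.mp h)
    exact ⟨(D.ord f).untop h, (WithTop.coe_untop _ _).symm⟩
  obtain ⟨e, he⟩ := hex t ht0
  -- units
  have hinv : ∀ f : K, f ≠ 0 → D.ord f = 0 → vT (E f) = 0 := by
    intro f hf h0
    obtain ⟨n, hn⟩ := hex f hf
    have h1 : 0 ≤ vT (E f) := (hD f).1 (by rw [h0])
    have h2 : D.ord f⁻¹ = 0 := by
      have := D.ord.map_mul f f⁻¹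
      rw [mul_inv_cancel₀ hf, D.ord.map_one, h0, zero_add] at this
      exact this.symm
    have h3 : 0 ≤ vT (E f⁻¹) := (hD _).1 (by rw [h2])
    obtain ⟨m, hm⟩ := hex f⁻¹ (inv_ne_zero hf)
    have h4 : vT (E f) + vT (E f⁻¹) = 0 := by
      rw [← AddValuation.map_mul, ← map_mul, mul_inv_cancel₀ hf, map_one, AddValuation.map_one]
    rw [hn] at h1 h4 ⊢
    rw [hm] at h3 h4
    have h5 : 0 ≤ n := by exact_mod_cast h1
    have h6 : 0 ≤ m := by exact_mod_cast h3
    have h7 : n + m = 0 := by exact_mod_cast h4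
    have h8 : n = 0 := by omega
    rw [h8]
    rfl
  have hpow : ∀ (v : AddValuation K (WithTop ℤ)) (c : ℤ), v t = c → ∀ n : ℤ, v (t ^ n) = ((n * c : ℤ) : WithTop ℤ) := by
    intro v c hc n
    have hnat : ∀ k : ℕ, v (t ^ k) = ((k * c : ℤ) : WithTop ℤ) := by
      intro k
      induction k with
      | zero => simp [v.map_one]
      | succ k ih =>
        rw [pow_succ, v.map_mul, ih, hc]
        have : ((k + 1 : ℕ) : ℤ) * c = k * c + c := by push_cast; ring
        rw [this]
        push_cast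
        rfl
    obtain ⟨k, rfl | rfl⟩ := n.eq_nat_or_neg
    · rw [zpow_natCast, hnat]
    · have h1 : v (t ^ k) + v (t ^ (-(k : ℤ))) = 0 := by
        rw [← v.map_mul, ← zpow_natCast t k, ← zpow_add₀ ht0, add_neg_cancel, zpow_zero, v.map_one]
      rw [hnat] at h1
      have h2 : v (t ^ (-(k : ℤ))) ≠ ⊤ := by
        intro h
        exact zpow_ne_zero _ ht0 (v.top_iff.mp h)
      obtain ⟨q, hq⟩ := WithTop.ne_top_iff_exists.1 h2
      rw [← hq] at h1 ⊢
      have h3 : k * c + q = 0 := by exact_mod_cast h1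
      have h4 : q = -(k : ℤ) * c := by linarith
      rw [h4]
  have hmain : ∀ f : K, f ≠ 0 → ∀ n : ℤ, D.ord f = n → vT (E f) = ((n * e : ℤ) : WithTop ℤ) := by
    intro f hf n hn
    have h1 : D.ord (f * t ^ (-n)) = 0 := by
      rw [D.ord.map_mul, hn, hpow D.ord 1 (by rw [ht]; rfl) (-n)]
      have : n + (-n) * 1 = 0 := by ring
      exact_mod_cast this
    have h2 := hinv _ (mul_ne_zero hf (zpow_ne_zero _ ht0)) h1
    obtain ⟨m, hm⟩ := hex f hf
    have h3 : vT (E (t ^ (-n))) = ((-n * e : ℤ) : WithTop ℤ) := hpow v e he (-n)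
    rw [map_mul, AddValuation.map_mul, hm, h3] at h2
    have h4 : m + -n * e = 0 := by exact_mod_cast h2
    rw [hm]
    have h5 : m = n * e := by linarith
    rw [h5]
  have he1 : e = 1 := by
    have h1 : 0 < e := by
      have h2 : 0 ≤ vT (E t) := (hD t).1 (by rw [ht]; exact zero_le_one)
      rw [he] at h2
      have h3 : 0 ≤ e := by exact_mod_cast h2
      rcases h3.lt_or_eq with h4 | h4
      · exact h4
      · exfalso
        -- then the inverse of the uniformiser would be integral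
        have h5 : 0 ≤ vT (E t⁻¹) := by
          have h6 : vT (E t) + vT (E t⁻¹) = 0 := by
            rw [← AddValuation.map_mul, ← map_mul, mul_inv_cancel₀ ht0, map_one, AddValuation.map_one]
          rw [he, ← h4] at h6
          have h7 : ((0 : ℤ) : WithTop ℤ) + vT (E t⁻¹) = 0 := h6
          have h8 : vT (E t⁻¹) = 0 := by
            rw [WithTop.coe_zero, zero_add] at h7
            exact h7
          rw [h8]
        have h6 : 0 ≤ D.ord t⁻¹ := (hD _).2 h5
        have h7 : D.ord t + D.ord t⁻¹ = 0 := by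
          rw [← D.ord.map_mul, mul_inv_cancel₀ ht0, D.ord.map_one]
        obtain ⟨q, hq⟩ := hex' t⁻¹ (inv_ne_zero ht0)
        rw [hq] at h6 h7
        rw [ht] at h7
        have h8 : 0 ≤ q := by exact_mod_cast h6
        have h9 : 1 + q = 0 := by exact_mod_cast h7
        omega
    by_contra hne
    obtain ⟨g, hg⟩ := hst t
    have h2 := vT_DT he (ne_of_gt h1)
    rw [hg] at h2
    have hg0 : g ≠ 0 := by
      rintro rfl
      rw [map_zero, AddValuation.map_zero] at h2
      exact WithTop.top_ne_coe h2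
    obtain ⟨n, hn⟩ := hex' g hg0
    have h3 := hmain g hg0 n hn
    rw [h3] at h2
    have h4 : n * e = e - 1 := by exact_mod_cast h2
    have h5 : e ∣ 1 := ⟨1 - n, by linarith⟩
    have h6 := Int.le_of_dvd one_pos h5
    omega
  intro f
  by_cases hf : f = 0
  · subst hf
    exact (D.ord.map_zero).trans v.map_zero.symm
  · obtain ⟨n, hn⟩ := hex' f hf
    rw [hn, hmain f hf n hn, he1, mul_one]

/-- The derivative `d/dT` preserves the image of the function field. -/
theorem exists_DT_eq {K : Type} [Field K] [Algebra ℂ K] (E : K →+* LL)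
    (hE : ∀ c : ℂ, E (algebraMap ℂ K c) = cst c) {s r : K} {b : ℂ} (hs : E s = cst b + xx)
    (hr : DT (E r) = 1) (hb : IsTranscendenceBasis ℂ ![s, r]) (f : K) : ∃ g, DT (E f) = E g := by
  have hX : ∀ c : ℂ, DX (E (algebraMap ℂ K c)) = 0 := fun c => by rw [hE]; exact DX_cst c
  have hT : ∀ c : ℂ, DT (E (algebraMap ℂ K c)) = 0 := fun c => by rw [hE]; exact DT_cst c
  obtain ⟨J, -, hJm⟩ := exists_jac (F := LL) E DX DT (fun a b => DX_mul a b)
    (fun a b => DT_mul a b) hX hT
  obtain ⟨g, hg⟩ := exists_form_mk hb (Form.mk 1 ![s, f])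
  have hDXs : DX (E s) = 1 := by
    rw [hs, map_add, DX_cst, DX_xx]
    exact zero_add (1 : LL)
  have hDTs : DT (E s) = 0 := by
    rw [hs, map_add, DT_cst, DT_xx]
    exact zero_add (0 : LL)
  have key : ∀ (F : Type) [Field F] (x y z w : F), 1 * (1 * x - y * 0) = z * (1 * 1 - w * 0) → x = z := by
    intro F _ x y z w h
    simpa using h
  have h1 := congrArg J hg
  rw [hJm, hJm] at h1
  simp only [Matrix.cons_val_zero, Matrix.cons_val_one, Matrix.cons_val_fin_one] at h1
  rw [hDXs, hDTs, hr, map_one] at h1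
  exact ⟨g, key LL _ _ _ _ h1⟩

private theorem JFL_mul {x y : LL} (hx : 0 ≤ vT x) (hy : 0 ≤ vT y) : 0 ≤ vT (x * y) := by
  rw [AddValuation.map_mul]
  exact add_nonneg hx hy

private theorem JFL_add {x y : LL} (hx : 0 ≤ vT x) (hy : 0 ≤ vT y) : 0 ≤ vT (x + y) :=
  (le_min hx hy).trans (vT.map_add x y)

private theorem JFL_neg {x : LL} (hx : 0 ≤ vT x) : 0 ≤ vT (-x) := by
  rw [AddValuation.map_neg]
  exact hx

private theorem JFL_sub {x y : LL} (hx : 0 ≤ vT x) (hy : 0 ≤ vT y) : 0 ≤ vT (x - y) := by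
  have h : x - y = x + -y := sub_eq_add_neg x y
  rw [h]
  exact JFL_add hx (JFL_neg hy)

private theorem JFL_pow {x : LL} (hx : 0 ≤ vT x) (n : ℕ) : 0 ≤ vT (x ^ n) := by
  rw [AddValuation.map_pow]
  exact nsmul_nonneg hx n

private theorem JFL_jac {x y : LL} (hx : 0 ≤ vT x) (hy : 0 ≤ vT y) :
    0 ≤ vT (DX x * DT y - DX y * DT x) :=
  JFL_sub (JFL_mul (vT_DX_nonneg hx) (vT_DT_nonneg hy))
    (JFL_mul (vT_DX_nonneg hy) (vT_DT_nonneg hx))

theorem pole_free_log {K : Type} [Field K] [Algebra ℂ K] (E : K →+* LL)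
    (hE : ∀ c : ℂ, E (algebraMap ℂ K c) = cst c) {s r : K} {b : ℂ} (hs : E s = cst b + xx)
    (hr : DT (E r) = 1) (hb : IsTranscendenceBasis ℂ ![s, r])
    (M : ℕ) (H W : K) (a : Fin 2 → K) (Bd : PrimeDivisorOver K 2 → Prop)
    (hpole : ∀ D : PrimeDivisorOver K 2, (¬ Bd D → PoleAtMost 0 D M H (Form.mk W a)) ∧
      (Bd D → PoleAtMost M D M H (Form.mk W a))) :
    0 ≤ vT (E H * (E W * (DX (E (a 0)) * DT (E (a 1)) - DX (E (a 1)) * DT (E (a 0)))) ^ M) ∨
      ∃ D : PrimeDivisorOver K 2, Bd D ∧ (∀ f, D.ord f = vT (E f)) ∧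
        0 ≤ vT (E H * (E W * (DX (E (a 0)) * DT (E (a 1)) - DX (E (a 1)) * DT (E (a 0)))) ^ M) + M := by
  by_cases hall : ∀ f : K, 0 ≤ vT (E f)
  · exact Or.inl (JFL_mul (hall H) (JFL_pow (JFL_mul (hall W) (JFL_jac (hall (a 0)) (hall (a 1)))) M))
  · push Not at hall
    obtain ⟨D, hD⟩ := exists_primeDivisor E hE s b hs hall
    have hord_eq := ord_eq_of_nonneg_iff E D hD (exists_DT_eq E hE hs hr hb)
    have hX : ∀ c : ℂ, DX (E (algebraMap ℂ K c)) = 0 := fun c => by rw [hE]; exact DX_cst c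
    have hT : ∀ c : ℂ, DT (E (algebraMap ℂ K c)) = 0 := fun c => by rw [hE]; exact DT_cst c
    obtain ⟨J, hJs, hJm⟩ := exists_jac (F := LL) E DX DT (fun a b => DX_mul a b)
      (fun a b => DT_mul a b) hX hT
    have hgen : ∀ ξ : Form K 2, ξ ∈ regularForms 2 D.localRing → 0 ≤ vT (J ξ) := by
      intro ξ hξ
      unfold regularForms at hξ
      induction hξ using AddSubgroup.closure_induction with
      | mem x hx =>
        obtain ⟨c, b', hc, hb', rfl⟩ := hx
        rw [hJm]
        exact JFL_mul ((hD c).1 hc) (JFL_jac ((hD _).1 (hb' 0)) ((hD _).1 (hb' 1)))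
      | zero =>
        rw [map_zero, AddValuation.map_zero]
        exact le_top
      | add x y _ _ hx hy => rw [map_add]; exact JFL_add hx hy
      | neg x _ hx => rw [map_neg]; exact JFL_neg hx
    have hcomm : ∀ (g : K) (η : Form K 2), Form.mk W a = g • η →
        E H * (E W * (DX (E (a 0)) * DT (E (a 1)) - DX (E (a 1)) * DT (E (a 0)))) ^ M =
          E (H * g ^ M) * J η ^ M := by
      intro g η hω
      rw [← hJm, hω, hJs, map_mul, map_pow]
      ring
    by_cases hB : Bd D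
    · right
      refine ⟨D, hB, hord_eq, ?_⟩
      obtain ⟨g, η, hη, hω, hord⟩ := (hpole D).2 hB
      rw [hcomm g η hω, AddValuation.map_mul, ← hord_eq]
      have h2 : 0 ≤ vT (J η ^ M) := JFL_pow (hgen η hη) M
      calc (0 : WithTop ℤ) ≤ D.ord (H * g ^ M) + M := hord
        _ ≤ D.ord (H * g ^ M) + vT (J η ^ M) + M := by
          gcongr
          exact le_add_of_nonneg_right h2
    · left
      obtain ⟨g, η, hη, hω, hord⟩ := (hpole D).1 hB
      have hord' : 0 ≤ D.ord (H * g ^ M) := by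
        simpa using hord
      rw [hcomm g η hω]
      exact JFL_mul ((hD _).1 hord') (JFL_pow (hgen η hη) M)

end Pool.Agent.H68.KR
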