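import Pool.Agent.H68.KR.EXT
import Pool.Agent.H68.KR.KOD

/-!
# KR Main: surfaces of general type carry a holomorphic section of `M K - H`
-/

set_option autoImplicit false

open MvPolynomial Topology Filter
open Pool.Agent.H23.Fano (Form regularForms PrimeDivisorOver)
open Pool.Agent.H17LG.Variety (FunField ratio PoleAtMost IsLogGeneralType)
open Pool.Agent.H17BP (Tan IsForm NoZeros)
open Pool.Agent.H17GT (coordFun)

noncomputable section

namespace Pool.Agent.H68.KR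

variable {N : ℕ} (P : Ideal (MvPolynomial (Fin (N + 1)) ℂ)) [P.IsPrime]

theorem ratio_ne_zero {i j : Fin (N + 1)} (hi : X i ∉ P) (hj : X j ∉ P) : ratio P i j ≠ 0 := by
  intro h
  have h1 : coordFun P i / coordFun P j = 0 := congrArg Subtype.val h
  rcases div_eq_zero_iff.1 h1 with h2 | h2
  · exact hi ((coordFun_eq_zero_iff P i).1 h2)
  · exact hj ((coordFun_eq_zero_iff P j).1 h2)

/-- The Jacobian of a chart with respect to the fixed pair of coordinate ratios is the quotient of two forms. -/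
theorem exists_jacobian_form {z : Fin 2 → FunField P} (hz : IsTranscendenceBasis ℂ z)
    {t₀ : Fin 3 → Fin (N + 1)} (ht₀ : X (t₀ 0) ∉ P)
    (hb₀ : IsTranscendenceBasis ℂ ![ratio P (t₀ 1) (t₀ 0), ratio P (t₀ 2) (t₀ 0)])
    (t : Fin 3 → Fin (N + 1)) :
    ∃ (e : ℕ) (R : MvPolynomial (Fin (N + 1)) ℂ), R.IsHomogeneous e ∧ R ∉ P ∧
      ∀ (x : Fin (N + 1) → ℂ) (σ : ℂ × ℂ → Fin (N + 1) → ℂ), CChart P x t σ → x (t₀ 0) ≠ 0 →
        eval x R ≠ 0 → D3 t₀ x (d1 σ 0) (d2 σ 0) ≠ 0 := by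
  by_cases hex : ∃ x σ, CChart P x t σ
  · obtain ⟨x, σ, hσ⟩ := hex
    obtain ⟨ht, hb⟩ := hσ.isTranscendenceBasis P hz
    obtain ⟨e, A, B, hA, hB, hBP, hmain⟩ := exists_jacobian P z hz ht₀ ht hb₀ hb
    have hAP : A ∉ P := (hmain x σ hσ).1
    refine ⟨e + e, A * B, hA.mul hB, fun h => ?_, fun y τ hτ hy hR hD => ?_⟩
    · rcases Ideal.IsPrime.mem_or_mem inferInstance h with h1 | h1
      · exact hAP h1
      · exact hBP h1
    · have h1 := (hmain y τ hτ).2
      rw [hD, zero_mul] at h1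
      rw [map_mul] at hR
      have h2 : eval y A ≠ 0 := left_ne_zero_of_mul hR
      exact (mul_ne_zero (pow_ne_zero 3 hy) h2) h1.symm
  · exact ⟨0, 1, isHomogeneous_one _ _, fun h => (Ideal.ne_top_iff_one P).1 Ideal.IsPrime.ne_top' h,
      fun x σ hσ => absurd ⟨x, σ, hσ⟩ hex⟩

theorem exists_form (hP : ∀ p ∈ P, ∀ n, homogeneousComponent n p ∈ P) {z : Fin 2 → FunField P}
    (hz : IsTranscendenceBasis ℂ z)
    (hgt : IsLogGeneralType (K := FunField P) (k := 2) fun _ => False)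
    (hsm : ∀ x ∈ cone P, ∃ t σ, CChart P x t σ) :
    ∃ (M : ℕ) (Om : (Fin (N + 1) → ℂ) → (Fin (N + 1) → ℂ) → (Fin (N + 1) → ℂ) → ℂ) (D₀ : ℕ)
      (Q₀ : MvPolynomial (Fin (N + 1)) ℂ), 1 ≤ M ∧ Q₀.IsHomogeneous D₀ ∧ Q₀ ∉ P ∧
      IsForm (cone P) M 1 Om ∧ NoZeros (cone P) {x | x ∈ cone P ∧ eval x Q₀ = 0} Om := by
  by_cases hne : (cone P).Nonempty
  swap
  · have hemp : ∀ x, x ∉ cone P := fun x hx => hne ⟨x, hx⟩
    refine ⟨1, fun _ _ _ => 0, 0, 1, le_rfl, isHomogeneous_one _ _,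
      fun h => (Ideal.ne_top_iff_one P).1 Ideal.IsPrime.ne_top' h, ⟨?_, ?_, ?_, ?_⟩, ?_⟩
    · exact fun x hx => absurd hx (hemp x)
    · exact fun x hx => absurd hx (hemp x)
    · exact fun x hx => absurd hx (hemp x)
    · exact fun φ p _ h => absurd h.self_of_nhds (hemp _)
    · exact fun x hx => absurd hx (hemp x)
  obtain ⟨x₀, hx₀⟩ := hne
  obtain ⟨t₀, σ₀, hσ₀⟩ := hsm x₀ hx₀
  obtain ⟨ht₀, hb₀⟩ := hσ₀.isTranscendenceBasis P hz
  obtain ⟨ω, hω, M, H, o, hM, hH, ho, hpole⟩ := kodaira P z hz hgt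
  obtain ⟨W, rfl⟩ := exists_form_mk hb₀ ω
  have hW : W ≠ 0 := by
    rintro rfl
    apply hω
    unfold Form.mk
    exact zero_smul _ _
  obtain ⟨d, A, B, hA, hB, hBP, hAP, hrep⟩ :=
    exists_hom_rep P z hz (H * ratio P (t₀ 0) o * W ^ M)
  have hAP' : A ∉ P := hAP (mul_ne_zero (mul_ne_zero hH (ratio_ne_zero P ht₀ ho)) (pow_ne_zero _ hW))
  have hext : ∀ x t σ, CChart P x t σ → ∃ Φ, Ext M t₀ A (B * X (t₀ 0) ^ (3 * M + 1)) σ Φ 0 :=
    fun x t σ h => exists_ext P z hz ht₀ ho hpole hA hB hBP hrep h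
  have hB' : (B * X (t₀ 0) ^ (3 * M + 1)).IsHomogeneous (d + 3 * M + 1) := by
    have := hB.mul (isHomogeneous_X_pow (R := ℂ) (t₀ 0) (3 * M + 1))
    rwa [← add_assoc] at this
  have hBP' : B * X (t₀ 0) ^ (3 * M + 1) ∉ P := by
    intro h
    rcases Ideal.IsPrime.mem_or_mem inferInstance h with h1 | h1
    · exact hBP h1
    · exact ht₀ (Ideal.IsPrime.mem_of_pow_mem inferInstance _ h1)
  obtain ⟨Om, h1, h2⟩ := exists_om (P := P) hA hB' hsm hext
  have hform : IsForm (cone P) M 1 Om := isForm_om hP hA hB' hBP' hsm hext h1 h2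
  choose e R hR hRP hRne using exists_jacobian_form P hz ht₀ hb₀
  set B' := B * X (t₀ 0) ^ (3 * M + 1) with hB'def
  have hprod : (∏ t, R t).IsHomogeneous (∑ t, e t) := IsHomogeneous.prod _ _ _ fun t _ => hR t
  have hprodP : (∏ t, R t) ∉ P := by
    intro h
    obtain ⟨t, -, ht⟩ := (Ideal.IsPrime.prod_mem_iff (p := P)).1 h
    exact hRP t ht
  refine ⟨M, Om, (d + (d + 3 * M + 1)) + 1 + ∑ t, e t, A * B' * X (t₀ 0) * ∏ t, R t, hM,
    ((hA.mul hB').mul (isHomogeneous_X _ _)).mul hprod, fun h => ?_, hform, ?_⟩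
  · rcases Ideal.IsPrime.mem_or_mem inferInstance h with h3 | h3
    · rcases Ideal.IsPrime.mem_or_mem inferInstance h3 with h4 | h4
      · rcases Ideal.IsPrime.mem_or_mem inferInstance h4 with h5 | h5
        · exact hAP' h5
        · exact hBP' h5
      · exact ht₀ h4
    · exact hprodP h3
  · intro x hx hxB v hv w hw hind
    have hQ : eval x (A * B' * X (t₀ 0) * ∏ t, R t) ≠ 0 := fun h => hxB ⟨hx, h⟩
    rw [map_mul, map_mul, map_mul, eval_X, map_prod] at hQ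
    have hQR := right_ne_zero_of_mul hQ
    have hQ1 := left_ne_zero_of_mul hQ
    have hx0 := right_ne_zero_of_mul hQ1
    have hQ2 := left_ne_zero_of_mul hQ1
    have hxA := left_ne_zero_of_mul hQ2
    have hxB' := right_ne_zero_of_mul hQ2
    rw [Finset.prod_ne_zero_iff] at hQR
    obtain ⟨t, σ, hσ⟩ := hsm x hx
    obtain ⟨Φ, hΦ⟩ := hext x t σ hσ
    have hD := hRne t x σ hσ hx0 (hQR t (Finset.mem_univ t))
    have hnd : ¬ ∀ᶠ u in 𝓝 (0 : ℂ × ℂ), eval (σ u) B' = 0 := hσ.nd _ _ hB' hBP'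
    have h3 : Om x (d1 σ 0) (d2 σ 0) = Φ 0 := h1 x hx σ 0 Φ hσ.an hσ.mem hσ.zero hΦ hnd
    have h4 := hΦ.2.self_of_nhds
    rw [hσ.zero] at h4
    have hΦ0 : Φ 0 ≠ 0 := by
      intro h0
      rw [h0, mul_zero] at h4
      exact (mul_ne_zero hxA (pow_ne_zero M hD)) h4.symm
    obtain ⟨a, b, c, hvv⟩ := hσ.tan hv
    obtain ⟨a', b', c', hww⟩ := hσ.tan hw
    obtain ⟨s, C, hC⟩ := h2 x hx
    have h5 : Om x v w = (a * b' - b * a') ^ M * Om x (d1 σ 0) (d2 σ 0) := by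
      rw [hC, hC, hvv, hww, D3_add_smul, D3_det, mul_pow]
      ring
    rw [h5, h3]
    refine mul_ne_zero (pow_ne_zero M fun hdet => ?_) hΦ0
    -- a linear relation
    rw [Fintype.linearIndependent_iff] at hind
    by_cases hab : a = 0 ∧ b = 0
    · have h6 := hind ![-c, 1, 0] (by
        simp [Fin.sum_univ_three, hvv, hab.1, hab.2]) 1
      simp at h6
    · have h6 := hind ![-(c * b' - c' * b), b', -b] (by
        simp only [Fin.sum_univ_three, Matrix.cons_val_zero, Matrix.cons_val_one,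
          Matrix.cons_val_two, Matrix.head_cons, Matrix.tail_cons]
        rw [hvv, hww]
        ext i
        simp only [Pi.add_apply, Pi.smul_apply, smul_eq_mul, Pi.zero_apply]
        linear_combination (d1 σ 0 i) * hdet)
      have h7 := hind ![-(c' * a - c * a'), -a', a] (by
        simp only [Fin.sum_univ_three, Matrix.cons_val_zero, Matrix.cons_val_one,
          Matrix.cons_val_two, Matrix.head_cons, Matrix.tail_cons]
        rw [hvv, hww]
        ext i
        simp only [Pi.add_apply, Pi.smul_apply, smul_eq_mul, Pi.zero_apply]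
        linear_combination (d2 σ 0 i) * hdet)
      apply hab
      have h8 := h6 2
      have h9 := h7 2
      simp at h8 h9
      exact ⟨h9, h8⟩

end Pool.Agent.H68.KR
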