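import Pool.Agent.H68.KR.HD
import Pool.Agent.H17LG.Variety

set_option autoImplicit false

open Pool.Agent.H23.Fano (Form regularForms PrimeDivisorOver)

noncomputable section

namespace Pool.Agent.H68.KR

private def PD_phi : Polynomial ℂ →+* L1 :=
  (HahnSeries.ofPowerSeries ℤ ℂ).comp Polynomial.coeToPowerSeries.ringHom

private theorem PD_phi_C (c : ℂ) : PD_phi (Polynomial.C c) = HahnSeries.C c := by
  simp [PD_phi]

private theorem PD_phi_X : PD_phi Polynomial.X = HahnSeries.single 1 1 := by
  simp [PD_phi]

private theorem PD_phi_injective : Function.Injective PD_phi := by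
  intro p q h
  have h1 := HahnSeries.ofPowerSeries_injective (Γ := ℤ) (R := ℂ) h
  exact Polynomial.coe_injective ℂ h1

private theorem PD_eval_ne (a : ℂ) (p : MvPolynomial (Fin (2 - 1)) ℂ) (hp : p ≠ 0) :
    MvPolynomial.eval₂ (HahnSeries.C : ℂ →+* L1) (fun _ => HahnSeries.C a + HahnSeries.single 1 1) p ≠ 0 := by
  set P : Polynomial ℂ := MvPolynomial.aeval (fun _ => Polynomial.X) p with hP
  have hback : Polynomial.aeval (MvPolynomial.X (R := ℂ) (0 : Fin (2 - 1))) P = p := by
    have : (Polynomial.aeval (MvPolynomial.X (R := ℂ) (0 : Fin (2 - 1)))).comp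
        (MvPolynomial.aeval (fun _ : Fin (2 - 1) => (Polynomial.X : Polynomial ℂ))) =
        AlgHom.id ℂ (MvPolynomial (Fin (2 - 1)) ℂ) := by
      apply MvPolynomial.algHom_ext
      intro i
      have hi : i = 0 := Subsingleton.elim (α := Fin 1) _ _
      simp [hi]
    exact congrArg (fun f => f p) this
  have hP0 : P ≠ 0 := by
    intro h
    rw [h, map_zero] at hback
    exact hp hback.symm
  have hT : Polynomial.taylor a P ≠ 0 := by
    intro h
    exact hP0 (Polynomial.taylor_injective a (by rw [h, map_zero]))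
  have hmain : MvPolynomial.eval₂ (HahnSeries.C : ℂ →+* L1)
      (fun _ => HahnSeries.C a + HahnSeries.single 1 1) p = PD_phi (Polynomial.taylor a P) := by
    have h1 : ∀ q : MvPolynomial (Fin (2 - 1)) ℂ, MvPolynomial.eval₂Hom (HahnSeries.C : ℂ →+* L1)
        (fun _ => HahnSeries.C a + HahnSeries.single 1 1) q =
        (PD_phi.comp ((Polynomial.taylorAlgHom a : Polynomial ℂ →ₐ[ℂ] Polynomial ℂ).toRingHom.comp
          (MvPolynomial.aeval (fun _ : Fin (2 - 1) => (Polynomial.X : Polynomial ℂ))).toRingHom)) q := by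
      intro q
      congr 1
      apply MvPolynomial.ringHom_ext
      · intro c
        simp [PD_phi_C]
      · intro i
        simp [PD_phi_C, PD_phi_X, add_comm]
    have := h1 p
    simpa [hP] using this
  rw [hmain]
  intro h
  exact hT (PD_phi_injective (by rw [h, map_zero]))

theorem exists_primeDivisor {K : Type} [Field K] [Algebra ℂ K] (E : K →+* LL)
    (hE : ∀ c : ℂ, E (algebraMap ℂ K c) = cst c) (s : K) (a : ℂ) (hs : E s = cst a + xx)
    (hneg : ∃ f : K, vT (E f) < 0) :
    ∃ D : PrimeDivisorOver K 2, ∀ f : K, 0 ≤ D.ord f ↔ 0 ≤ vT (E f) := by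
  classical
  set v : AddValuation K (WithTop ℤ) := vT.comap E with hv
  have hvE : ∀ f, v f = vT (E f) := fun f => rfl
  -- integer values
  have hex : ∀ f : K, f ≠ 0 → ∃ n : ℤ, v f = (n : WithTop ℤ) := by
    intro f hf
    have h : v f ≠ ⊤ := by
      intro h
      exact hf (v.top_iff.mp h)
    exact ⟨(v f).untop h, (WithTop.coe_untop _ _).symm⟩
  choose! val hval using hex
  have hval_mul : ∀ f g : K, f ≠ 0 → g ≠ 0 → val (f * g) = val f + val g := by
    intro f g hf hg
    have h := v.map_mul f g
    rw [hval f hf, hval g hg, hval (f * g) (mul_ne_zero hf hg)] at h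
    exact_mod_cast h
  have hval_one : val 1 = 0 := by
    have h := v.map_one
    rw [hval 1 one_ne_zero] at h
    exact_mod_cast h
  have hval_inv : ∀ f : K, f ≠ 0 → val f⁻¹ = - val f := by
    intro f hf
    have h := hval_mul f f⁻¹ hf (inv_ne_zero hf)
    rw [mul_inv_cancel₀ hf, hval_one] at h
    omega
  have hval_pow : ∀ (f : K) (n : ℕ), f ≠ 0 → val (f ^ n) = n * val f := by
    intro f n hf
    induction n with
    | zero => simp [hval_one]
    | succ n ih =>
      rw [pow_succ, hval_mul _ _ (pow_ne_zero n hf) hf, ih]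
      push_cast
      ring
  have hval_zpow : ∀ (f : K) (n : ℤ), f ≠ 0 → val (f ^ n) = n * val f := by
    intro f n hf
    obtain ⟨m, rfl | rfl⟩ := n.eq_nat_or_neg
    · rw [zpow_natCast, hval_pow f m hf]
    · rw [zpow_neg, zpow_natCast, hval_inv _ (pow_ne_zero m hf), hval_pow f m hf]
      ring
  -- minimal positive value
  have hpos : ∃ n : ℕ, 0 < n ∧ ∃ t : K, t ≠ 0 ∧ val t = n := by
    obtain ⟨f, hf⟩ := hneg
    have hf0 : f ≠ 0 := by
      rintro rfl
      simp at hf
    have h1 : val f < 0 := by
      have h := hval f hf0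
      rw [hvE] at h
      rw [h] at hf
      exact_mod_cast hf
    refine ⟨(-val f).toNat, by omega, f⁻¹, inv_ne_zero hf0, ?_⟩
    rw [hval_inv f hf0]
    omega
  set e := Nat.find hpos with he
  obtain ⟨he0, t, ht0, htv⟩ := Nat.find_spec hpos
  rw [← he] at he0 htv
  have hmin : ∀ (n : ℕ) (f : K), 0 < n → f ≠ 0 → val f = n → e ≤ n :=
    fun n f hn hf h => Nat.find_min' hpos ⟨hn, f, hf, h⟩
  have heZ : (0 : ℤ) < e := by exact_mod_cast he0
  have hdvd : ∀ f : K, f ≠ 0 → val f = e * (val f / e) := by
    intro f hf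
    have h1 : val (f * t ^ (-(val f / e))) = val f - (val f / e) * e := by
      rw [hval_mul _ _ hf (zpow_ne_zero _ ht0), hval_zpow t _ ht0, htv]
      ring
    have h2 : val f - (val f / e) * e = val f % e := by
      have := Int.emod_add_mul_ediv (val f) e
      linarith
    have h3 : 0 ≤ val f % e := Int.emod_nonneg _ (ne_of_gt heZ)
    have h4 : val f % e < e := Int.emod_lt_of_pos _ heZ
    rcases h3.eq_or_lt with h5 | h5
    · have := Int.emod_add_mul_ediv (val f) e
      omega
    · exfalso
      have h6 := hmin (val f % e).toNat (f * t ^ (-(val f / e))) (by omega)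
        (mul_ne_zero hf (zpow_ne_zero _ ht0)) (by rw [h1, h2]; omega)
      omega
  set w : K → WithTop ℤ := fun f => if f = 0 then ⊤ else ((val f / e : ℤ) : WithTop ℤ) with hw
  have hw0 : w 0 = ⊤ := by simp [hw]
  have hwn : ∀ f : K, f ≠ 0 → w f = ((val f / e : ℤ) : WithTop ℤ) := by
    intro f hf
    simp [hw, hf]
  let ord : AddValuation K (WithTop ℤ) := AddValuation.of w hw0
    (by rw [hwn 1 one_ne_zero, hval_one]; simp)
    (by
      intro f g
      by_cases hf : f = 0
      · subst hf
        rw [zero_add, hw0]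
        simp
      by_cases hg : g = 0
      · subst hg
        rw [add_zero, hw0]
        simp
      by_cases hfg : f + g = 0
      · rw [hfg, hw0]
        exact le_top
      have h := v.map_add f g
      rw [hval f hf, hval g hg, hval (f + g) hfg] at h
      rw [hwn f hf, hwn g hg, hwn _ hfg]
      have h' : min (val f) (val g) ≤ val (f + g) := by exact_mod_cast h
      have h1 := hdvd f hf
      have h2 := hdvd g hg
      have h3 := hdvd (f + g) hfg
      have : min (val f / e) (val g / e) ≤ val (f + g) / e := by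
        rcases min_le_iff.mp h' with h4 | h4
        · exact le_trans (min_le_left _ _) (Int.ediv_le_ediv heZ h4)
        · exact le_trans (min_le_right _ _) (Int.ediv_le_ediv heZ h4)
      exact_mod_cast this)
    (by
      intro f g
      by_cases hf : f = 0
      · subst hf
        rw [zero_mul, hw0]
        simp
      by_cases hg : g = 0
      · subst hg
        rw [mul_zero, hw0]
        simp
      rw [hwn _ (mul_ne_zero hf hg), hwn f hf, hwn g hg, hval_mul f g hf hg]
      have h1 := hdvd f hf
      have h2 : (val f + val g) / (e : ℤ) = val f / e + val g / e := by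
        rw [Int.add_ediv_of_dvd_left ⟨_, h1⟩]
      rw [h2]
      push_cast
      rfl)
  have hord : ∀ f, ord f = w f := fun f => rfl
  have hnn : ∀ f : K, 0 ≤ ord f ↔ 0 ≤ vT (E f) := by
    intro f
    rw [hord, ← hvE]
    by_cases hf : f = 0
    · subst hf
      rw [hw0, v.map_zero]
    rw [hwn f hf, hval f hf]
    have h1 := hdvd f hf
    constructor
    · intro h
      have h' : 0 ≤ val f / (e : ℤ) := by exact_mod_cast h
      have : 0 ≤ val f := by rw [h1]; positivity
      exact_mod_cast this
    · intro h
      have h' : 0 ≤ val f := by exact_mod_cast h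
      have : 0 ≤ val f / (e : ℤ) := Int.ediv_nonneg h' heZ.le
      exact_mod_cast this
  have hC : ∀ f : K, ∀ b : L1, b ≠ 0 → E f = HahnSeries.C b → ord f = 0 := by
    intro f b hb hf
    have h1 : v f = 0 := by rw [hvE, hf, vT_C hb]
    have hf0 : f ≠ 0 := by
      rintro rfl
      rw [v.map_zero] at h1
      exact WithTop.top_ne_zero h1
    rw [hord, hwn f hf0]
    rw [hval f hf0] at h1
    have h2 : val f = 0 := by exact_mod_cast h1
    rw [h2]
    simp
  refine ⟨⟨ord, ?_, ⟨t, ?_⟩, ⟨fun _ => s, ?_, ?_⟩⟩, hnn⟩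
  · intro c
    rw [hnn, hE]
    by_cases hc : c = 0
    · subst hc
      simp
    · have : vT (cst c) = 0 := vT_C (a := HahnSeries.C c) (by simpa using hc)
      rw [this]
  · rw [hord, hwn t ht0, htv, Int.ediv_self (ne_of_gt heZ)]
    rfl
  · intro i
    have : ord s = 0 := by
      apply hC s (HahnSeries.C a + HahnSeries.single 1 1)
      · have h := PD_eval_ne a (MvPolynomial.X 0) (MvPolynomial.X_ne_zero 0)
        simpa using h
      · rw [hs, map_add]
        rfl
    exact this.ge
  · intro p hp
    apply hC _ _ (PD_eval_ne a p hp)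
    clear hp
    induction p using MvPolynomial.induction_on with
    | C c => simp [hE, cst]
    | add p q hp' hq' =>
      rw [map_add, map_add, hp', hq', ← map_add, MvPolynomial.eval₂_add]
    | mul_X p i hp' =>
      rw [map_mul, map_mul, hp', MvPolynomial.aeval_X, MvPolynomial.eval₂_mul, map_mul,
        MvPolynomial.eval₂_X, hs, map_add]
      rfl

end Pool.Agent.H68.KR
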