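import Mathlib

/-!
# KR T1: the Taylor series of a function of one variable

`t1 f = ∑ f^(n)(0) / n! X^n`.

Proofs.
* `t1_congr`: `Filter.EventuallyEq.iteratedDeriv_eq`.
* `constantCoeff_t1`, `t1_const`, `t1_id`, `t1_add`: coefficients (`iteratedDeriv_add`, `iteratedDeriv_const`; for
  `t1_id` it is enough to know `iteratedDeriv (n + 2) (fun x => x) 0 = 0`, from `iteratedDeriv_succ'` and
  `deriv_id''`).
* `t1_deriv`: `iteratedDeriv_succ'`: `iteratedDeriv (n + 1) f = iteratedDeriv n (deriv f)`.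
* `t1_mul`: for all `n` and all `f, g`: `coeff n (t1 (f g)) = coeff n (t1 f * t1 g)`, by induction on `n`.
  `n = 0`: `constantCoeff_t1`. Step: `(n + 1) coeff (n + 1) F = coeff n F'`, and by `t1_deriv`, `t1_add`, `t1_congr` and the
  induction hypothesis `(t1 (f g))' = t1 (f' g + f g')` has the same `n`-th coefficient as
  `t1 f' t1 g + t1 f t1 g' = (t1 f t1 g)'`.
  (Or directly: `iteratedDeriv_mul`.)
* `t1_eq_zero_iff`: `AnalyticAt` with all derivatives `0` at `0`: e.g. `HasFPowerSeriesAt` with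
  `FormalMultilinearSeries.coeff`, or `analyticOrderAt` (`analyticOrderAt_eq_top`, if the order were the finite number
  `n` then `f = x^n g`, `g 0 ≠ 0` and the `n`-th derivative is `n! g 0`), or `AnalyticAt.hasFPowerSeriesAt`
  (`f` has the power series with the coefficients `iteratedDeriv n f 0 / n!`).
-/

set_option autoImplicit false

open Topology Filter

noncomputable section

namespace Pool.Agent.H68.KR

/-- The Taylor series at `0` of a function of one variable. -/
def t1 (f : ℂ → ℂ) : PowerSeries ℂ :=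
  PowerSeries.mk fun n => iteratedDeriv n f 0 / (n.factorial : ℂ)

private theorem T1_coeff (f : ℂ → ℂ) (n : ℕ) :
    PowerSeries.coeff n (t1 f) = iteratedDeriv n f 0 / (n.factorial : ℂ) := by
  unfold t1
  rw [PowerSeries.coeff_mk]

theorem t1_congr {f g : ℂ → ℂ} (h : ∀ᶠ x in 𝓝 (0 : ℂ), f x = g x) : t1 f = t1 g := by
  ext n
  have h1 : iteratedDeriv n f 0 = iteratedDeriv n g 0 := Filter.EventuallyEq.iteratedDeriv_eq n h
  rw [T1_coeff, T1_coeff, h1]

theorem constantCoeff_t1 (f : ℂ → ℂ) : PowerSeries.constantCoeff (t1 f) = f 0 := by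
  rw [← PowerSeries.coeff_zero_eq_constantCoeff_apply, T1_coeff, iteratedDeriv_zero,
    Nat.factorial_zero, Nat.cast_one, div_one]

theorem t1_const (c : ℂ) : t1 (fun _ => c) = PowerSeries.C c := by
  ext n
  rw [T1_coeff, iteratedDeriv_const, PowerSeries.coeff_C]
  by_cases h : n = 0
  · rw [if_pos h, h, Nat.factorial_zero, Nat.cast_one, div_one]
  · rw [if_neg h, zero_div]

theorem t1_id : t1 (fun x => x) = PowerSeries.X := by
  ext n
  rw [T1_coeff, iteratedDeriv_fun_id_zero, PowerSeries.coeff_X]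
  by_cases h : n = 1
  · rw [if_pos h, h, Nat.factorial_one, Nat.cast_one, div_one]
  · rw [if_neg h, zero_div]

theorem t1_add {f g : ℂ → ℂ} (hf : AnalyticAt ℂ f 0) (hg : AnalyticAt ℂ g 0) :
    t1 (fun x => f x + g x) = t1 f + t1 g := by
  ext n
  rw [map_add, T1_coeff, T1_coeff, T1_coeff, iteratedDeriv_fun_add hf.contDiffAt hg.contDiffAt,
    add_div]

theorem t1_deriv {f : ℂ → ℂ} (hf : AnalyticAt ℂ f 0) :
    PowerSeries.derivative ℂ (t1 f) = t1 (deriv f) := by
  ext n
  rw [PowerSeries.coeff_derivative, T1_coeff, T1_coeff, iteratedDeriv_succ', Nat.factorial_succ]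
  have h1 : (n.factorial : ℂ) ≠ 0 := by exact_mod_cast n.factorial_ne_zero
  have h2 : ((n : ℂ) + 1) ≠ 0 := by exact_mod_cast n.succ_ne_zero
  push_cast
  field_simp

theorem t1_mul {f g : ℂ → ℂ} (hf : AnalyticAt ℂ f 0) (hg : AnalyticAt ℂ g 0) :
    t1 (fun x => f x * g x) = t1 f * t1 g := by
  ext n
  rw [PowerSeries.coeff_mul, T1_coeff, iteratedDeriv_fun_mul hf.contDiffAt hg.contDiffAt,
    Finset.Nat.sum_antidiagonal_eq_sum_range_succ
      (fun i j => PowerSeries.coeff i (t1 f) * PowerSeries.coeff j (t1 g)) n, Finset.sum_div]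
  refine Finset.sum_congr rfl fun i hi => ?_
  have hi' : i ≤ n := Nat.lt_succ_iff.1 (Finset.mem_range.1 hi)
  rw [T1_coeff, T1_coeff]
  have h1 : (n.factorial : ℂ) ≠ 0 := by exact_mod_cast n.factorial_ne_zero
  have h2 : (i.factorial : ℂ) ≠ 0 := by exact_mod_cast i.factorial_ne_zero
  have h3 : ((n - i).factorial : ℂ) ≠ 0 := by exact_mod_cast (n - i).factorial_ne_zero
  have h4 : ((n.choose i : ℂ)) * i.factorial * (n - i).factorial = n.factorial := by
    exact_mod_cast Nat.choose_mul_factorial_mul_factorial hi'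
  rw [← h4]
  rw [← h4] at h1
  have h5 : ((n.choose i : ℂ)) ≠ 0 := by
    intro h
    rw [h, zero_mul, zero_mul] at h1
    exact h1 rfl
  field_simp

theorem t1_eq_zero_iff {f : ℂ → ℂ} (hf : AnalyticAt ℂ f 0) :
    t1 f = 0 ↔ ∀ᶠ x in 𝓝 (0 : ℂ), f x = 0 := by
  constructor
  · intro h
    have h1 := hasFPowerSeriesAt_iff.1 hf.hasFPowerSeriesAt
    filter_upwards [h1] with z hz
    have h2 : (fun n => z ^ n • (FormalMultilinearSeries.ofScalars ℂ
        (fun n => iteratedDeriv n f 0 / (n.factorial : ℂ))).coeff n) = fun _ => (0 : ℂ) := by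
      funext n
      rw [FormalMultilinearSeries.coeff_ofScalars, ← T1_coeff, h]
      simp
    rw [h2, zero_add] at hz
    exact hz.unique hasSum_zero
  · intro h
    rw [t1_congr h, t1_const, map_zero]

end Pool.Agent.H68.KR
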